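import Pool.Agent.helper71.FJ.Gen
import Pool.Agent.helper71.FG.Far50x
import Pool.Agent.helper71.FJ.Crt.CovL
import Pool.Agent.helper71.FJ.Crt.LHIA
import Pool.Agent.helper71.FJ.Crt.LHIIIA
import Pool.Agent.helper71.FJ.Crt.LMaA
import Pool.Agent.helper71.FJ.Crt.LMbA
import Pool.Agent.helper71.FJ.Crt.LMcA
import Pool.Agent.helper71.FJ.Crt.XHIA
import Pool.Agent.helper71.FJ.Crt.XHIIIA
import Pool.Agent.helper71.FJ.Crt.XMaA
import Pool.Agent.helper71.FJ.Crt.XMbA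

/-!
# The far field for `50 ≤ e ≤ 100`
-/

namespace Pool.Agent.helper71.FJ

open Complex ComplexConjugate Pool.Agent.helper31.EQ.Y Pool.Agent.helper31.EQ.R
open Pool.Agent.helper12.EQL Pool.Agent.helper12.RP Pool.Agent.helper12.FF Pool.Agent.helper63.FF
open Pool.Agent.helper71.FF (B1 B2 Geo exB1 exB2 geo_of sa su AL A5)
open Pool.Agent.helper71.FG (PtE RE Ag Ag_pos R0x_le)

variable {κ : ℝ} {τ : ℂ} {R w : ℝ} {v : B1}

/-- `e K > 1/2` -/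
theorem farPtL (D : PtE (3 * 5⁻¹) v.e κ τ R w) (G : Geo κ (shf κ τ) v) (hE : 50 ≤ v.e)
    (hE1 : v.e ≤ 100) {de : ℝ} (hde0 : 0 < de) (hee : v.e * (de * de) = 1)
    (hK : v.e * v.K ^ 2 ≤ 22716 / 16384 + 1925 / 1024 * de) (hb : 1 / 2 < v.e * v.K)
    (hde1 : de ≤ 141422 / 1000000) (ht1 : v.t ≤ 13 / 32) :
    FarPt v.e κ (1 - Real.sinh κ / 1024) w (2 * AL v.e v.K * Real.sinh κ ^ 2) R
      (RE v.e κ (w * R)) τ := by
  obtain ⟨v2⟩ := exB2 v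
  have ht := G.t0
  have hu := G.u0
  have hu1 := G.u1
  have hn := G.n0
  have hn1 := n_le G
  have hde2 : 819 / 8192 ≤ de := de_lo hee hE1 hde0 (by norm_num) G.e0
  refine chart_split G hde0 hee ?_ ?_ ?_ ?_ ?_
  · intro sg z hsg hz hz2 h1 h2 h3
    have hsg1 : sg ≤ 33 / 8 := by
      by_contra hc
      push Not at hc
      nlinarith
    rcases le_total sg (33 / 16) with hs | hs
    · exact ptLHI D G (by linarith) hde0 h1 h2 hee hE hE1 hK hb h3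
        (covLHI_0 hsg hs hz hz2 hde2 (by linarith) hn.le hn1)
    · exact ptLHI D G (by linarith) hde0 h1 h2 hee hE hE1 hK hb h3
        (covLHI_1 hs hsg1 hz hz2 hde2 (by linarith) hn.le hn1)
  · intro al g ha ha1 hae hg hg1 h1 h2
    exact ptLHIII D G (by linarith) hde0 h1 h2 hee hE hE1 hK hb (by rw [← hae]; exact ha1)
      (covLHIII_0 ha ha1 hu.le hu1 hg hg1 hn.le hn1)
  · intro S z hS hS1 hz hz2 h1 h2
    exact ptLMa D G (by linarith) hde0 h1 h2 hz hee hE hE1 hK hb hz2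
      (covLMa_0 hS hS1 ht.le ht1 hz.le hz2 hn.le hn1)
  · intro S r g hS hS1 hr hr8 hg hg1 h1 h2 h3
    rcases le_total r 1 with hr1 | hr1
    · exact ptLMb D G (by linarith) hde0 h1 h2 h3 hr hee hE hE1 hK hb
        (covLMb_0 hS hS1 hr.le hr1 hg hg1 hn.le hn1)
    · exact ptLMb D G (by linarith) hde0 h1 h2 h3 hr hee hE hE1 hK hb
        (covLMb_1 hS hS1 hr1 hr8 hg hg1 hn.le hn1)
  · intro ri tr hri hri1 htr h1 h2 h3 h4
    exact ptLMc D G (by linarith) hde0 hri h1 h2 hee hE hE1 hK hb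
      (covLMc_0 hri.le hri1 hu.le hu1 htr
        (tr_le G v2 D (by linarith) h3 htr h4 (by linarith)) hn.le hn1)

/-- `e K` small -/
theorem farPtX (D : PtE (3 * 5⁻¹) v.e κ τ R w) (G : Geo κ (shf κ τ) v) (hE : 50 ≤ v.e)
    (hE1 : v.e ≤ 100) {de : ℝ} (hde0 : 0 < de) (hee : v.e * (de * de) = 1)
    (hb : v.e * v.K ≤ 129 / 256)
    (hde1 : de ≤ 141422 / 1000000) (ht1 : v.t ≤ 13 / 32) :
    FarPt v.e κ (1 - Real.sinh κ / 1024) w (2 * A5 v.e v.K * Real.sinh κ ^ 2) R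
      (RE v.e κ (w * R)) τ := by
  obtain ⟨v2⟩ := exB2 v
  have ht := G.t0
  have hu := G.u0
  have hu1 := G.u1
  have hn := G.n0
  have hn1 := n_le G
  have hde2 : 819 / 8192 ≤ de := de_lo hee hE1 hde0 (by norm_num) G.e0
  refine chart_split G hde0 hee ?_ ?_ ?_ ?_ ?_
  · intro sg z hsg hz hz2 h1 h2 h3
    have hsg1 : sg ≤ 33 / 8 := by
      by_contra hc
      push Not at hc
      nlinarith
    rcases le_total sg (33 / 16) with hs | hs
    · exact ptXHI D G (by linarith) hde0 h1 h2 hee hE hE1 hb h3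
        (covXHI_0 hsg hs hz hz2 hde2 (by linarith) hn.le hn1)
    · exact ptXHI D G (by linarith) hde0 h1 h2 hee hE hE1 hb h3
        (covXHI_1 hs hsg1 hz hz2 hde2 (by linarith) hn.le hn1)
  · intro al g ha ha1 hae hg hg1 h1 h2
    exact ptXHIII D G (by linarith) hde0 h1 h2 hee hE hE1 hb (by rw [← hae]; exact ha1)
      (covXHIII_0 ha ha1 hu.le hu1 hg hg1 hn.le hn1)
  · intro S z hS hS1 hz hz2 h1 h2
    exact ptXMa D G (by linarith) hde0 h1 h2 hz hee hE hE1 hb hz2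
      (covXMa_0 hS hS1 ht.le ht1 hz.le hz2 hn.le hn1)
  · intro S r g hS hS1 hr hr8 hg hg1 h1 h2 h3
    rcases le_total r 1 with hr1 | hr1
    · exact ptXMb D G (by linarith) hde0 h1 h2 h3 hr hee hE hE1 hb
        (covXMb_0 hS hS1 hr.le hr1 hg hg1 hn.le hn1)
    · exact ptXMb D G (by linarith) hde0 h1 h2 h3 hr hee hE hE1 hb
        (covXMb_1 hS hS1 hr1 hr8 hg hg1 hn.le hn1)
  · intro ri tr hri hri1 htr h1 h2 h3 h4
    exact (no_Mc G v2 D (by linarith) h4 hb).elim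

/-- **The conditions per point**, `50 ≤ e ≤ 100`. -/
theorem farPt100 {e κ : ℝ} (h50 : 50 ≤ e) (h100 : e ≤ 100) (hκ : 0 < κ)
    (hk : Pool.Agent.helper12.RS.kfun e κ < 4 ^ (1 / e) - 1) {τ : ℂ} {R w : ℝ}
    (D : PtE (3 * 5⁻¹) e κ τ R w) :
    FarPt e κ (1 - Real.sinh κ / 1024) w (2 * Ag e κ * Real.sinh κ ^ 2) R (RE e κ (w * R)) τ := by
  obtain ⟨hτ0, -⟩ := reg_s hκ D.R2.le D.τ0
  have hs0 := shf_re hκ hτ0.le
  obtain ⟨v, ve, vt, vu, vn⟩ := exB1 e (Real.sinh κ * sa (shf κ τ) / su (shf κ τ))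
    (su (shf κ τ)) ((1 - Real.tanh (κ / 2) ^ 2) / sa (shf κ τ))
  have G : Geo κ (shf κ τ) v := geo_of hκ hs0 v (by rw [ve]; linarith) vt vu vn
  obtain ⟨v2⟩ := exB2 v
  have hE : 50 ≤ v.e := by rw [ve]; exact h50
  have hE1 : v.e ≤ 100 := by rw [ve]; exact h100
  have D' : PtE (3 * 5⁻¹) v.e κ τ R w := by rw [ve]; exact D
  obtain ⟨de, hde0, hee⟩ := de_ex G.e0
  have hde1 : de ≤ 141422 / 1000000 := de_hi hee hE (by norm_num) hde0 (by norm_num)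
  have hK : v.e * v.K ^ 2 ≤ 22716 / 16384 + 1925 / 1024 * de := by
    rw [G.K]
    exact dom_K kp50 hE hκ hde0 hee hde1 (by rw [ve]; exact hk)
  have hh : v.h ≤ 3 / 32 := by
    refine h_leK G (by norm_num) ?_
    have h1 : 50 * v.K ^ 2 ≤ v.e * v.K ^ 2 := mul_le_mul_of_nonneg_right hE (sq_nonneg _)
    norm_num
    linarith
  have ht1 := G.t_crude v2 D'.toD (by norm_num) hh
  norm_num at ht1
  rw [← ve]
  by_cases hs : e * κ ≤ 1 / 2
  · have hA : Ag v.e κ = A5 v.e v.K := by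
      unfold Ag A5
      rw [if_pos (by rw [ve]; exact hs)]
    rw [hA]
    obtain ⟨-, heK⟩ := G.eK_le (by linarith : 4 ≤ v.e) (by rw [ve]; exact hs)
    exact farPtX D' G hE hE1 hde0 hee heK hde1 (by linarith)
  · push Not at hs
    have hA : Ag v.e κ = AL v.e v.K := by
      unfold Ag AL
      rw [if_neg (by rw [ve]; exact not_le.2 hs), G.K]
    rw [hA]
    have heK := G.eK_gt (by rw [ve]; exact hs)
    exact farPtL D' G hE hE1 hde0 hee hK heK hde1 (by linarith)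

/-- **Far field data**, `50 ≤ e ≤ 100`. -/
noncomputable def far100 {e κ : ℝ} (h50 : 50 ≤ e) (h100 : e ≤ 100) (hκ : 0 < κ)
    (hk : Pool.Agent.helper12.RS.kfun e κ < 4 ^ (1 / e) - 1) :
    FarN e κ (1 - Real.sinh κ / 1024) :=
  farn (bw := 3 * 5⁻¹) hκ (by norm_num) (Ag_pos (by linarith) hκ) (Real.exp_pos _) le_rfl
    (fun _ _ _ D => farPt100 h50 h100 hκ hk D)

theorem far100_Ω {e κ : ℝ} (h50 : 50 ≤ e) (h100 : e ≤ 100) (hκ : 0 < κ)
    (hk : Pool.Agent.helper12.RS.kfun e κ < 4 ^ (1 / e) - 1) :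
    (far100 h50 h100 hκ hk).Ω 0 = OmR κ (Real.exp (-(2 * κ * (49 / 10))))
      (RE e κ (Real.exp (-(2 * κ * (49 / 10))))) := farn_Ω _ _ _ _ _ _

theorem far100_X {e κ : ℝ} (h50 : 50 ≤ e) (h100 : e ≤ 100) (hκ : 0 < κ)
    (hk : Pool.Agent.helper12.RS.kfun e κ < 4 ^ (1 / e) - 1) :
    (far100 h50 h100 hκ hk).X 0 = Xr κ (2 * Ag e κ * Real.sinh κ ^ 2)
      (Real.exp (-(2 * κ * (49 / 10)))) := farn_X _ _ _ _ _ _

/-- **Far field data**, `50 ≤ e ≤ 100`, from the index `x0`. -/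
noncomputable def far100x {e κ x0 : ℝ} (h50 : 50 ≤ e) (h100 : e ≤ 100) (hκ : 0 < κ)
    (hk : Pool.Agent.helper12.RS.kfun e κ < 4 ^ (1 / e) - 1) (hx : 39 / 10 ≤ x0) :
    FarN e κ (1 - Real.sinh κ / 1024) :=
  farn (bw := 3 * 5⁻¹) hκ (by norm_num) (Ag_pos (by linarith) hκ) (Real.exp_pos _) (R0x_le hκ hx)
    (fun _ _ _ D => farPt100 h50 h100 hκ hk D)

theorem far100x_Ω {e κ x0 : ℝ} (h50 : 50 ≤ e) (h100 : e ≤ 100) (hκ : 0 < κ)
    (hk : Pool.Agent.helper12.RS.kfun e κ < 4 ^ (1 / e) - 1) (hx : 39 / 10 ≤ x0) :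
    (far100x h50 h100 hκ hk hx).Ω 0 = OmR κ (Real.exp (-(2 * κ * (x0 + 1))))
      (RE e κ (Real.exp (-(2 * κ * (x0 + 1))))) := farn_Ω _ _ _ _ _ _

theorem far100x_X {e κ x0 : ℝ} (h50 : 50 ≤ e) (h100 : e ≤ 100) (hκ : 0 < κ)
    (hk : Pool.Agent.helper12.RS.kfun e κ < 4 ^ (1 / e) - 1) (hx : 39 / 10 ≤ x0) :
    (far100x h50 h100 hκ hk hx).X 0 = Xr κ (2 * Ag e κ * Real.sinh κ ^ 2)
      (Real.exp (-(2 * κ * (x0 + 1)))) := farn_X _ _ _ _ _ _

end Pool.Agent.helper71.FJ
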