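import Pool.Agent.helper71.FJ.Gen
import Pool.Agent.helper71.FJ.Crt.CovQ
import Pool.Agent.helper71.FJ.Crt.QHIA
import Pool.Agent.helper71.FJ.Crt.QHIIA
import Pool.Agent.helper71.FJ.Crt.QHIIIA
import Pool.Agent.helper71.FJ.Crt.QMaA
import Pool.Agent.helper71.FJ.Crt.QMbA
import Pool.Agent.helper71.FJ.Crt.QMcA

/-!
# The far field for `e ≥ 100`
-/

namespace Pool.Agent.helper71.FJ

open Complex ComplexConjugate Pool.Agent.helper31.EQ.Y Pool.Agent.helper31.EQ.R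
open Pool.Agent.helper12.EQL Pool.Agent.helper12.RP Pool.Agent.helper12.FF Pool.Agent.helper63.FF
open Pool.Agent.helper71.FF (B1 B2 Geo exB1 exB2 geo_of sa su)
open Pool.Agent.helper71.FG (PtE RE AQ)

variable {κ : ℝ} {τ : ℂ} {R w : ℝ} {v : B1}

theorem farPtQ' (D : PtE (7 * 10⁻¹) v.e κ τ R w) (G : Geo κ (shf κ τ) v) (hE : 100 ≤ v.e)
    {de : ℝ} (hde0 : 0 < de) (hee : v.e * (de * de) = 1)
    (hK : v.e * v.K ^ 2 ≤ 22716 / 16384 + 461 / 256 * de)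
    (hde1 : de ≤ 1 / 10) (ht1 : v.t ≤ 11 / 32) :
    FarPt v.e κ (1 - Real.sinh κ / 1024) w (2 * AQ v.e v.K * Real.sinh κ ^ 2) R
      (RE v.e κ (w * R)) τ := by
  obtain ⟨v2⟩ := exB2 v
  have he := G.e0
  have ht := G.t0
  have hu := G.u0
  have hu1 := G.u1
  have hn := G.n0
  have hn1 := n_le G
  refine chart_split G hde0 hee ?_ ?_ ?_ ?_ ?_
  · intro sg z hsg hz hz2 h1 h2 h3
    rcases le_total sg 2 with hs2 | hs2
    · rcases le_total sg 1 with hs | hs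
      · exact ptQHI D G (by linarith) hde0 h1 h2 hee hE hK h3
          (covQHI_0 hsg hs hz hz2 hde0.le (by linarith) hn.le hn1)
      · exact ptQHI D G (by linarith) hde0 h1 h2 hee hE hK h3
          (covQHI_1 hs hs2 hz hz2 hde0.le (by linarith) hn.le hn1)
    · have hcv : de = v.t * (de / v.t) := by field_simp
      have hal0 : 0 < v.e * v.tu := by rw [v.e_tu]; positivity
      have hzc : z = v.e * v.tu * (de / v.t) := by
        rw [v.e_tu, h2]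
        field_simp
        linear_combination (-z) * hee
      have hc1 : de / v.t ≤ 1 / 2 := by
        rw [div_le_iff₀ ht, h1]
        nlinarith
      exact ptQHII D G (by linarith) hde0 hcv hzc h2 hee hE hK hz2 h3
        (covQHII_0 hal0.le h3 ht.le ht1 (by positivity) hc1 hn.le hn1)
  · intro al g ha ha1 hae hg hg1 h1 h2
    exact ptQHIII D G (by linarith) hde0 h1 h2 hee hE hK (by rw [← hae]; exact ha1)
      (covQHIII_0 ha ha1 hu.le hu1 hg hg1 hn.le hn1)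
  · intro S z hS hS1 hz hz2 h1 h2
    rcases le_total S (105 / 512) with hS2 | hS2
    · exact ptQMa D G (by linarith) hde0 h1 h2 hz hee hE hK hz2
        (covQMa_0 hS hS2 ht.le ht1 hz.le hz2 hn.le hn1)
    · exact ptQMa D G (by linarith) hde0 h1 h2 hz hee hE hK hz2
        (covQMa_1 hS2 hS1 ht.le ht1 hz.le hz2 hn.le hn1)
  · intro S r g hS hS1 hr hr8 hg hg1 h1 h2 h3
    rcases le_total r 1 with hr1 | hr1
    · exact ptQMb D G (by linarith) hde0 h1 h2 h3 hr hee hE hK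
        (covQMb_0 hS hS1 hr.le hr1 hg hg1 hn.le hn1)
    · exact ptQMb D G (by linarith) hde0 h1 h2 h3 hr hee hE hK
        (covQMb_1 hS hS1 hr1 hr8 hg hg1 hn.le hn1)
  · intro ri tr hri hri1 htr h1 h2 h3 h4
    exact ptQMc D G (by linarith) hde0 hri h1 h2 hee hE hK
      (covQMc_0 hri.le hri1 hu.le hu1 htr
        (tr_le G v2 D (by linarith) h3 htr h4 (by linarith)) hn.le hn1)

/-- **The conditions per point**, `e ≥ 100`. -/
theorem farPtQ {e κ : ℝ} (h100 : 100 ≤ e) (hκ : 0 < κ)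
    (hk : Pool.Agent.helper12.RS.kfun e κ < 4 ^ (1 / e) - 1) {τ : ℂ} {R w : ℝ}
    (D : PtE (7 * 10⁻¹) e κ τ R w) :
    FarPt e κ (1 - Real.sinh κ / 1024) w (2 * (e / (4 + e * Real.sinh κ)) * Real.sinh κ ^ 2) R
      (RE e κ (w * R)) τ := by
  obtain ⟨hτ0, -⟩ := reg_s hκ D.R2.le D.τ0
  have hs0 := shf_re hκ hτ0.le
  obtain ⟨v, ve, vt, vu, vn⟩ := exB1 e (Real.sinh κ * sa (shf κ τ) / su (shf κ τ))
    (su (shf κ τ)) ((1 - Real.tanh (κ / 2) ^ 2) / sa (shf κ τ))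
  have G : Geo κ (shf κ τ) v := geo_of hκ hs0 v (by rw [ve]; linarith) vt vu vn
  obtain ⟨v2⟩ := exB2 v
  have hE : 100 ≤ v.e := by rw [ve]; exact h100
  have D' : PtE (7 * 10⁻¹) v.e κ τ R w := by rw [ve]; exact D
  obtain ⟨de, hde0, hee⟩ := de_ex G.e0
  have hde1 : de ≤ 1 / 10 := de_hi hee hE (by norm_num) hde0 (by norm_num)
  have hK : v.e * v.K ^ 2 ≤ 22716 / 16384 + 461 / 256 * de := by
    rw [G.K]
    exact dom_K kp100 (by linarith) hκ hde0 hee hde1 (by rw [ve]; exact hk)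
  have hh : v.h ≤ 63 / 1000 := by
    refine h_leK G (by norm_num) ?_
    have h1 : 100 * v.K ^ 2 ≤ v.e * v.K ^ 2 := mul_le_mul_of_nonneg_right hE (sq_nonneg _)
    norm_num
    linarith
  have ht1 := G.t_crude v2 D'.toD (by norm_num) hh
  norm_num at ht1
  have hA : e / (4 + e * Real.sinh κ) = AQ v.e v.K := by
    unfold AQ
    rw [ve, G.K]
  rw [hA, ← ve]
  exact farPtQ' D' G hE hde0 hee hK hde1 (by linarith)

theorem AQ_pos {e κ : ℝ} (he : 0 < e) (hκ : 0 < κ) : 0 < e / (4 + e * Real.sinh κ) := by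
  have hK : 0 < Real.sinh κ := Real.sinh_pos_iff.2 hκ
  positivity

/-- **Far field data**, `e ≥ 100`. -/
noncomputable def farQ {e κ : ℝ} (h100 : 100 ≤ e) (hκ : 0 < κ)
    (hk : Pool.Agent.helper12.RS.kfun e κ < 4 ^ (1 / e) - 1) :
    FarN e κ (1 - Real.sinh κ / 1024) :=
  farn (bw := 7 * 10⁻¹) hκ (by norm_num) (AQ_pos (by linarith) hκ) (Real.exp_pos _) le_rfl
    (fun _ _ _ D => farPtQ h100 hκ hk D)

theorem farQ_Ω {e κ : ℝ} (h100 : 100 ≤ e) (hκ : 0 < κ)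
    (hk : Pool.Agent.helper12.RS.kfun e κ < 4 ^ (1 / e) - 1) :
    (farQ h100 hκ hk).Ω 0 = OmR κ (Real.exp (-(2 * κ * (49 / 10))))
      (RE e κ (Real.exp (-(2 * κ * (49 / 10))))) := farn_Ω _ _ _ _ _ _

theorem farQ_X {e κ : ℝ} (h100 : 100 ≤ e) (hκ : 0 < κ)
    (hk : Pool.Agent.helper12.RS.kfun e κ < 4 ^ (1 / e) - 1) :
    (farQ h100 hκ hk).X 0 = Xr κ (2 * (e / (4 + e * Real.sinh κ)) * Real.sinh κ ^ 2)
      (Real.exp (-(2 * κ * (49 / 10)))) := farn_X _ _ _ _ _ _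

/-- **Far field data**, `e ≥ 100`, from the index `x0`. -/
noncomputable def farQx {e κ x0 : ℝ} (h100 : 100 ≤ e) (hκ : 0 < κ)
    (hk : Pool.Agent.helper12.RS.kfun e κ < 4 ^ (1 / e) - 1) (hx : 39 / 10 ≤ x0) :
    FarN e κ (1 - Real.sinh κ / 1024) :=
  farn (bw := 7 * 10⁻¹) (R0 := Real.exp (-(2 * κ * (x0 + 1)))) hκ (by norm_num)
    (AQ_pos (by linarith) hκ) (Real.exp_pos _)
    (by apply Real.exp_le_exp.2; nlinarith)
    (fun _ _ _ D => farPtQ h100 hκ hk D)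

theorem farQx_Ω {e κ x0 : ℝ} (h100 : 100 ≤ e) (hκ : 0 < κ)
    (hk : Pool.Agent.helper12.RS.kfun e κ < 4 ^ (1 / e) - 1) (hx : 39 / 10 ≤ x0) :
    (farQx h100 hκ hk hx).Ω 0 = OmR κ (Real.exp (-(2 * κ * (x0 + 1))))
      (RE e κ (Real.exp (-(2 * κ * (x0 + 1))))) := farn_Ω _ _ _ _ _ _

theorem farQx_X {e κ x0 : ℝ} (h100 : 100 ≤ e) (hκ : 0 < κ)
    (hk : Pool.Agent.helper12.RS.kfun e κ < 4 ^ (1 / e) - 1) (hx : 39 / 10 ≤ x0) :
    (farQx h100 hκ hk hx).X 0 = Xr κ (2 * (e / (4 + e * Real.sinh κ)) * Real.sinh κ ^ 2)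
      (Real.exp (-(2 * κ * (x0 + 1)))) := farn_X _ _ _ _ _ _

end Pool.Agent.helper71.FJ
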