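import Pool.Agent.helper71.FJ.Lv

/-!
# Far field programs in scaled variables: named values
-/

namespace Pool.Agent.helper71.FJ

open Pool.Agent.helper71.FF (B1 B2 B3)

/-- geometry of the next point -/
structure V5 (v : B1) where
  sn : ℝ
  R1 : ℝ
  Qr : ℝ
  Th : ℝ
  e_sn : sn = (1 - v.u2) * (1 - v.nj2)
  e_R1 : R1 = v.R * v.rhat * v.SQ⁻¹
  e_Qr : Qr = v.SQ * (v.c0 + R1)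
  e_Th : Th = sn * (Qr * Qr)⁻¹

/-- displacement of the next position, first part -/
structure Ka {v : B1} (v2 : B2 v) (eps al S G4 Qb Q1 ls lsx phux Ei Eh : ℝ) where
  iG4 : ℝ
  alG : ℝ
  AE : ℝ
  XeE : ℝ
  XM : ℝ
  iX : ℝ
  QX : ℝ
  iQX : ℝ
  N1 : ℝ
  s : ℝ
  k0 : ℝ
  a0 : ℝ
  l1 : ℝ
  Na : ℝ
  Nb : ℝ
  rn : ℝ
  ka : ℝ
  kb : ℝ
  lfk : ℝ
  kl : ℝ
  e_iG4 : iG4 = G4⁻¹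
  e_alG : alG = al * iG4
  e_AE : AE = S * iG4
  e_XeE : XeE = AE * v.op1 * v2.lm
  e_XM : XM = alG * v.op1 * v2.lm
  e_iX : iX = (1 - XM)⁻¹
  e_QX : QX = Qb * XM
  e_iQX : iQX = (1 - QX)⁻¹
  e_N1 : N1 = 1 - v.f2 - 2 * (v.h * v.om) + v.h * v.nj * (v.h * v.nj)
  e_s : s = (1 / 2) * (N1 + 1)
  e_k0 : k0 = s * (v.j - (1 / 2) * v.R + (1 / 8) * (v.tu2 * (1 - v.f2) * v.jm))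
  e_a0 : a0 = (ls + XM * (Q1 * iX + Qb * iQX)) * eps
  e_l1 : l1 = (ls + Q1 * XM * iX) * eps
  e_Na : Na = 1 + l1 * ((1 / 2) + (13 / 64) * l1)
  e_Nb : Nb = 1 + a0 * (1 + (13 / 16) * a0)
  e_rn : rn = v2.rh * v2.nih * Ei * Nb
  e_ka : ka = k0 * Na + rn * (v.aQ + (1 / 2))
  e_kb : kb = rn * (v.aQ + 1)
  e_lfk : lfk = Eh * (v.aQ + 1) * v2.nih * v2.hm
  e_kl : kl = ka * lsx + lfk * phux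

/-- displacement of the next position, second part -/
structure Kb (bw : ℝ) {v : B1} {v2 : B2 v} {eps al S G4 Qb Q1 ls lsx phux Ei Eh : ℝ}
    (x : Ka v2 eps al S G4 Qb Q1 ls lsx phux Ei Eh) (tr gap gu srcs : ℝ) where
  src : ℝ
  fxe : ℝ
  epd : ℝ
  NN : ℝ
  eN : ℝ
  d : ℝ
  eta : ℝ
  rl : ℝ
  irl : ℝ
  yy : ℝ
  q0 : ℝ
  zp : ℝ
  kzp : ℝ
  Cu : ℝ
  rr : ℝ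
  CuN : ℝ
  fbt : ℝ
  XLt : ℝ
  beta : ℝ
  b1 : ℝ
  m1 : ℝ
  V : ℝ
  C2 : ℝ
  gr : ℝ
  Gt : ℝ
  au : ℝ
  inner : ℝ
  ezs : ℝ
  Rg0 : ℝ
  Rh : ℝ
  Rg : ℝ
  e_src : src = S * srcs
  e_fxe : fxe = x.ka * Q1 * x.iX + x.kb * Qb * x.iQX
  e_epd : epd = v.om1 * src + x.XeE * fxe
  e_NN : NN = (1 - v.tu2 * epd * v.aQ⁻¹)⁻¹
  e_eN : eN = epd * NN
  e_d : d = v.t * eN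
  e_eta : eta = v.tu2 * eN
  e_rl : rl = v.rhat * (1 - eta * v.aQ⁻¹) - d
  e_irl : irl = rl⁻¹
  e_yy : yy = d * irl
  e_q0 : q0 = (v.aQ - eta)⁻¹
  e_zp : zp = yy * gap
  e_kzp : kzp = (1 - (1 / 2) * zp) * (1 - zp)⁻¹
  e_Cu : Cu = v.u * q0 + gu * irl * kzp
  e_rr : rr = q0 * (tr * eN) + gap * irl * kzp * d
  e_CuN : CuN = Cu * (1 + rr * ((1 / 2) + (13 / 64) * rr)) * NN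
  e_fbt : fbt = CuN * fxe
  e_XLt : XLt = x.alG * v.op1 * v.om1
  e_beta : beta = bw
  e_b1 : b1 = (v.h + 1) * v.op1 * beta
  e_m1 : m1 = v.m - 1
  e_V : V = (v.h + 1) * (m1 + 2 - 2 * beta) * (m1 * (2 * beta) + 1)⁻¹ - 2 * (src + 2 * (x.AE * fxe * (v.K + (1 / 2) * v2.lm))) * NN * (v.op1 - v.tu * eN)⁻¹
  e_C2 : C2 = al * v.nj * (al * v.nj) * (13 * 10⁻¹) + 25 * (S * S)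
  e_gr : gr = b1 * (1 + v.t * b1)⁻¹
  e_Gt : Gt = 2 * v.c0 - v.t - v.K * v.om
  e_au : au = al * v.u * S
  e_inner : inner = x.kl + v.op1 * fxe * x.iG4
  e_ezs : ezs = al * (v.tu * eN + 2)
  e_Rg0 : Rg0 = C2 * gr - NN * ezs * (au * inner)
  e_Rh : Rh = Gt - NN * (1 + (1 / 2) * (v.tu * eN)) * (v.t * v.om1 * v2.bsum * (v.op1 * v.aQ)⁻¹)
  e_Rg : Rg = v2.lm * Rg0 + C2 * ((1 - v2.lm) * (v.u2 * Rh))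

/-- Schwarz-Pick at the next point -/
structure Pk {v : B1} (v5 : V5 v) (rplo hp hgp gu yy : ℝ) where
  omr : ℝ
  omp : ℝ
  lspf : ℝ
  E0 : ℝ
  lspa : ℝ
  pe : ℝ
  ye : ℝ
  e_omr : omr = (v.c0 + v.t) * v.ioK
  e_omp : omp = v.om * omr
  e_lspf : lspf = (1 - (1 / 2) * hgp) * (1 - hgp)⁻¹ * hp
  e_E0 : E0 = v5.Th * (1 - (2731 / 4096) * (v.tu2 * v5.Th)) + v.u2 * (rplo * rplo)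
  e_lspa : lspa = lspf * gu
  e_pe : pe = omr * (E0 - lspa * (E0 + 1) + v.nj2 * (1 - (2731 / 8192) * (v.K * v.K))) * (1 + omp * omp)⁻¹
  e_ye : ye = (1 - yy) * pe

/-- closing in powers of `lam` -/
structure Cl {bw : ℝ} {v : B1} {v2 : B2 v} {eps al S G4 Qb Q1 ls lsx phux Ei Eh : ℝ}
    {x : Ka v2 eps al S G4 Qb Q1 ls lsx phux Ei Eh} {tr gap gu srcs : ℝ} (y : Kb bw x tr gap gu srcs)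
    (lam mu y1 srcx : ℝ) where
  FXt : ℝ
  S1 : ℝ
  a4 : ℝ
  S4 : ℝ
  Dh : ℝ
  a5 : ℝ
  S5 : ℝ
  a6 : ℝ
  S6 : ℝ
  a7 : ℝ
  S7 : ℝ
  a8 : ℝ
  S8 : ℝ
  c1 : ℝ
  rt : ℝ
  fm : ℝ
  Bm : ℝ
  e_FXt : FXt = y.CuN * G4 * srcx * v.op1⁻¹
  e_S1 : S1 = -(y1 * (1 - (1 / 2) * (lam * y1)))
  e_a4 : a4 = mu * (v.u * v.n * (v.h + 1) * v.j)
  e_S4 : S4 = S1 + a4 + lam * (S1 * a4)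
  e_Dh : Dh = v.u2 * v.Dt
  e_a5 : a5 = -(mu * (Dh * ((1 / 2) - (3 / 8) * v.D)))
  e_S5 : S5 = S4 + a5 + lam * (S4 * a5)
  e_a6 : a6 = mu * (v.u * y.eN * v.op1⁻¹)
  e_S6 : S6 = S5 + a6 + lam * (S5 * a6)
  e_a7 : a7 = mu * y.b1
  e_S7 : S7 = (S6 - a7) * (1 + v.t * y.b1)⁻¹
  e_a8 : a8 = mu * (v.u * v.tu * y.eN * y.q0)
  e_S8 : S8 = S7 + a8 + lam * (S7 * a8)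
  e_c1 : c1 = 1 + lam * S8
  e_rt : rt = mu * (y.fbt * x.XM + FXt * (v.t * y.XLt))
  e_fm : fm = mu * (y.fbt + FXt)
  e_Bm : Bm = -(S8 + rt * c1 + fm)

/-- direct closing -/
structure Cd {bw : ℝ} {v : B1} {v2 : B2 v} {eps al S G4 Qb Q1 ls lsx phux Ei Eh : ℝ}
    {x : Ka v2 eps al S G4 Qb Q1 ls lsx phux Ei Eh} {tr gap gu srcs : ℝ} (y : Kb bw x tr gap gu srcs)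
    (Ee : ℝ) where
  FX : ℝ
  Lam : ℝ
  c1 : ℝ
  fb : ℝ
  r2 : ℝ
  Bm : ℝ
  e_FX : FX = y.CuN * G4 * srcs * v.op1⁻¹
  e_Lam : Lam = (1 + v.t * y.b1)⁻¹
  e_c1 : c1 = Ee * Lam * v.m * (1 + v.tu * y.eN * v.op1⁻¹) * y.q0
  e_fb : fb = v.t * y.fbt
  e_r2 : r2 = fb * x.XM + FX * (v.t * y.XLt)
  e_Bm : Bm = 1 - (fb + FX + c1 * (1 + r2))

theorem exV5 (v : B1) :
    Nonempty (V5 v) := by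
  obtain ⟨sn, e_sn⟩ : ∃ zz : ℝ, zz = (1 - v.u2) * (1 - v.nj2) := ⟨_, rfl⟩
  obtain ⟨R1, e_R1⟩ : ∃ zz : ℝ, zz = v.R * v.rhat * v.SQ⁻¹ := ⟨_, rfl⟩
  obtain ⟨Qr, e_Qr⟩ : ∃ zz : ℝ, zz = v.SQ * (v.c0 + R1) := ⟨_, rfl⟩
  obtain ⟨Th, e_Th⟩ : ∃ zz : ℝ, zz = sn * (Qr * Qr)⁻¹ := ⟨_, rfl⟩
  exact ⟨⟨sn, R1, Qr, Th, e_sn, e_R1, e_Qr, e_Th⟩⟩

theorem exKa {v : B1} (v2 : B2 v) (eps al S G4 Qb Q1 ls lsx phux Ei Eh : ℝ) :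
    Nonempty (Ka v2 eps al S G4 Qb Q1 ls lsx phux Ei Eh) := by
  obtain ⟨iG4, e_iG4⟩ : ∃ zz : ℝ, zz = G4⁻¹ := ⟨_, rfl⟩
  obtain ⟨alG, e_alG⟩ : ∃ zz : ℝ, zz = al * iG4 := ⟨_, rfl⟩
  obtain ⟨AE, e_AE⟩ : ∃ zz : ℝ, zz = S * iG4 := ⟨_, rfl⟩
  obtain ⟨XeE, e_XeE⟩ : ∃ zz : ℝ, zz = AE * v.op1 * v2.lm := ⟨_, rfl⟩
  obtain ⟨XM, e_XM⟩ : ∃ zz : ℝ, zz = alG * v.op1 * v2.lm := ⟨_, rfl⟩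
  obtain ⟨iX, e_iX⟩ : ∃ zz : ℝ, zz = (1 - XM)⁻¹ := ⟨_, rfl⟩
  obtain ⟨QX, e_QX⟩ : ∃ zz : ℝ, zz = Qb * XM := ⟨_, rfl⟩
  obtain ⟨iQX, e_iQX⟩ : ∃ zz : ℝ, zz = (1 - QX)⁻¹ := ⟨_, rfl⟩
  obtain ⟨N1, e_N1⟩ : ∃ zz : ℝ, zz = 1 - v.f2 - 2 * (v.h * v.om) + v.h * v.nj * (v.h * v.nj) := ⟨_, rfl⟩
  obtain ⟨s, e_s⟩ : ∃ zz : ℝ, zz = (1 / 2) * (N1 + 1) := ⟨_, rfl⟩
  obtain ⟨k0, e_k0⟩ : ∃ zz : ℝ, zz = s * (v.j - (1 / 2) * v.R + (1 / 8) * (v.tu2 * (1 - v.f2) * v.jm)) := ⟨_, rfl⟩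
  obtain ⟨a0, e_a0⟩ : ∃ zz : ℝ, zz = (ls + XM * (Q1 * iX + Qb * iQX)) * eps := ⟨_, rfl⟩
  obtain ⟨l1, e_l1⟩ : ∃ zz : ℝ, zz = (ls + Q1 * XM * iX) * eps := ⟨_, rfl⟩
  obtain ⟨Na, e_Na⟩ : ∃ zz : ℝ, zz = 1 + l1 * ((1 / 2) + (13 / 64) * l1) := ⟨_, rfl⟩
  obtain ⟨Nb, e_Nb⟩ : ∃ zz : ℝ, zz = 1 + a0 * (1 + (13 / 16) * a0) := ⟨_, rfl⟩
  obtain ⟨rn, e_rn⟩ : ∃ zz : ℝ, zz = v2.rh * v2.nih * Ei * Nb := ⟨_, rfl⟩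
  obtain ⟨ka, e_ka⟩ : ∃ zz : ℝ, zz = k0 * Na + rn * (v.aQ + (1 / 2)) := ⟨_, rfl⟩
  obtain ⟨kb, e_kb⟩ : ∃ zz : ℝ, zz = rn * (v.aQ + 1) := ⟨_, rfl⟩
  obtain ⟨lfk, e_lfk⟩ : ∃ zz : ℝ, zz = Eh * (v.aQ + 1) * v2.nih * v2.hm := ⟨_, rfl⟩
  obtain ⟨kl, e_kl⟩ : ∃ zz : ℝ, zz = ka * lsx + lfk * phux := ⟨_, rfl⟩
  exact ⟨⟨iG4, alG, AE, XeE, XM, iX, QX, iQX, N1, s, k0, a0, l1, Na, Nb, rn, ka, kb, lfk, kl, e_iG4, e_alG, e_AE, e_XeE, e_XM, e_iX, e_QX, e_iQX, e_N1, e_s, e_k0, e_a0, e_l1, e_Na, e_Nb, e_rn, e_ka, e_kb, e_lfk, e_kl⟩⟩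

theorem exKb (bw : ℝ) {v : B1} {v2 : B2 v} {eps al S G4 Qb Q1 ls lsx phux Ei Eh : ℝ}
    (x : Ka v2 eps al S G4 Qb Q1 ls lsx phux Ei Eh) (tr gap gu srcs : ℝ) :
    Nonempty (Kb bw x tr gap gu srcs) := by
  obtain ⟨src, e_src⟩ : ∃ zz : ℝ, zz = S * srcs := ⟨_, rfl⟩
  obtain ⟨fxe, e_fxe⟩ : ∃ zz : ℝ, zz = x.ka * Q1 * x.iX + x.kb * Qb * x.iQX := ⟨_, rfl⟩
  obtain ⟨epd, e_epd⟩ : ∃ zz : ℝ, zz = v.om1 * src + x.XeE * fxe := ⟨_, rfl⟩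
  obtain ⟨NN, e_NN⟩ : ∃ zz : ℝ, zz = (1 - v.tu2 * epd * v.aQ⁻¹)⁻¹ := ⟨_, rfl⟩
  obtain ⟨eN, e_eN⟩ : ∃ zz : ℝ, zz = epd * NN := ⟨_, rfl⟩
  obtain ⟨d, e_d⟩ : ∃ zz : ℝ, zz = v.t * eN := ⟨_, rfl⟩
  obtain ⟨eta, e_eta⟩ : ∃ zz : ℝ, zz = v.tu2 * eN := ⟨_, rfl⟩
  obtain ⟨rl, e_rl⟩ : ∃ zz : ℝ, zz = v.rhat * (1 - eta * v.aQ⁻¹) - d := ⟨_, rfl⟩
  obtain ⟨irl, e_irl⟩ : ∃ zz : ℝ, zz = rl⁻¹ := ⟨_, rfl⟩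
  obtain ⟨yy, e_yy⟩ : ∃ zz : ℝ, zz = d * irl := ⟨_, rfl⟩
  obtain ⟨q0, e_q0⟩ : ∃ zz : ℝ, zz = (v.aQ - eta)⁻¹ := ⟨_, rfl⟩
  obtain ⟨zp, e_zp⟩ : ∃ zz : ℝ, zz = yy * gap := ⟨_, rfl⟩
  obtain ⟨kzp, e_kzp⟩ : ∃ zz : ℝ, zz = (1 - (1 / 2) * zp) * (1 - zp)⁻¹ := ⟨_, rfl⟩
  obtain ⟨Cu, e_Cu⟩ : ∃ zz : ℝ, zz = v.u * q0 + gu * irl * kzp := ⟨_, rfl⟩
  obtain ⟨rr, e_rr⟩ : ∃ zz : ℝ, zz = q0 * (tr * eN) + gap * irl * kzp * d := ⟨_, rfl⟩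
  obtain ⟨CuN, e_CuN⟩ : ∃ zz : ℝ, zz = Cu * (1 + rr * ((1 / 2) + (13 / 64) * rr)) * NN := ⟨_, rfl⟩
  obtain ⟨fbt, e_fbt⟩ : ∃ zz : ℝ, zz = CuN * fxe := ⟨_, rfl⟩
  obtain ⟨XLt, e_XLt⟩ : ∃ zz : ℝ, zz = x.alG * v.op1 * v.om1 := ⟨_, rfl⟩
  obtain ⟨beta, e_beta⟩ : ∃ zz : ℝ, zz = bw := ⟨_, rfl⟩
  obtain ⟨b1, e_b1⟩ : ∃ zz : ℝ, zz = (v.h + 1) * v.op1 * beta := ⟨_, rfl⟩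
  obtain ⟨m1, e_m1⟩ : ∃ zz : ℝ, zz = v.m - 1 := ⟨_, rfl⟩
  obtain ⟨V, e_V⟩ : ∃ zz : ℝ, zz = (v.h + 1) * (m1 + 2 - 2 * beta) * (m1 * (2 * beta) + 1)⁻¹ - 2 * (src + 2 * (x.AE * fxe * (v.K + (1 / 2) * v2.lm))) * NN * (v.op1 - v.tu * eN)⁻¹ := ⟨_, rfl⟩
  obtain ⟨C2, e_C2⟩ : ∃ zz : ℝ, zz = al * v.nj * (al * v.nj) * (13 * 10⁻¹) + 25 * (S * S) := ⟨_, rfl⟩
  obtain ⟨gr, e_gr⟩ : ∃ zz : ℝ, zz = b1 * (1 + v.t * b1)⁻¹ := ⟨_, rfl⟩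
  obtain ⟨Gt, e_Gt⟩ : ∃ zz : ℝ, zz = 2 * v.c0 - v.t - v.K * v.om := ⟨_, rfl⟩
  obtain ⟨au, e_au⟩ : ∃ zz : ℝ, zz = al * v.u * S := ⟨_, rfl⟩
  obtain ⟨inner, e_inner⟩ : ∃ zz : ℝ, zz = x.kl + v.op1 * fxe * x.iG4 := ⟨_, rfl⟩
  obtain ⟨ezs, e_ezs⟩ : ∃ zz : ℝ, zz = al * (v.tu * eN + 2) := ⟨_, rfl⟩
  obtain ⟨Rg0, e_Rg0⟩ : ∃ zz : ℝ, zz = C2 * gr - NN * ezs * (au * inner) := ⟨_, rfl⟩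
  obtain ⟨Rh, e_Rh⟩ : ∃ zz : ℝ, zz = Gt - NN * (1 + (1 / 2) * (v.tu * eN)) * (v.t * v.om1 * v2.bsum * (v.op1 * v.aQ)⁻¹) := ⟨_, rfl⟩
  obtain ⟨Rg, e_Rg⟩ : ∃ zz : ℝ, zz = v2.lm * Rg0 + C2 * ((1 - v2.lm) * (v.u2 * Rh)) := ⟨_, rfl⟩
  exact ⟨⟨src, fxe, epd, NN, eN, d, eta, rl, irl, yy, q0, zp, kzp, Cu, rr, CuN, fbt, XLt, beta, b1, m1, V, C2, gr, Gt, au, inner, ezs, Rg0, Rh, Rg, e_src, e_fxe, e_epd, e_NN, e_eN, e_d, e_eta, e_rl, e_irl, e_yy, e_q0, e_zp, e_kzp, e_Cu, e_rr, e_CuN, e_fbt, e_XLt, e_beta, e_b1, e_m1, e_V, e_C2, e_gr, e_Gt, e_au, e_inner, e_ezs, e_Rg0, e_Rh, e_Rg⟩⟩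

theorem exPk {v : B1} (v5 : V5 v) (rplo hp hgp gu yy : ℝ) :
    Nonempty (Pk v5 rplo hp hgp gu yy) := by
  obtain ⟨omr, e_omr⟩ : ∃ zz : ℝ, zz = (v.c0 + v.t) * v.ioK := ⟨_, rfl⟩
  obtain ⟨omp, e_omp⟩ : ∃ zz : ℝ, zz = v.om * omr := ⟨_, rfl⟩
  obtain ⟨lspf, e_lspf⟩ : ∃ zz : ℝ, zz = (1 - (1 / 2) * hgp) * (1 - hgp)⁻¹ * hp := ⟨_, rfl⟩
  obtain ⟨E0, e_E0⟩ : ∃ zz : ℝ, zz = v5.Th * (1 - (2731 / 4096) * (v.tu2 * v5.Th)) + v.u2 * (rplo * rplo) := ⟨_, rfl⟩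
  obtain ⟨lspa, e_lspa⟩ : ∃ zz : ℝ, zz = lspf * gu := ⟨_, rfl⟩
  obtain ⟨pe, e_pe⟩ : ∃ zz : ℝ, zz = omr * (E0 - lspa * (E0 + 1) + v.nj2 * (1 - (2731 / 8192) * (v.K * v.K))) * (1 + omp * omp)⁻¹ := ⟨_, rfl⟩
  obtain ⟨ye, e_ye⟩ : ∃ zz : ℝ, zz = (1 - yy) * pe := ⟨_, rfl⟩
  exact ⟨⟨omr, omp, lspf, E0, lspa, pe, ye, e_omr, e_omp, e_lspf, e_E0, e_lspa, e_pe, e_ye⟩⟩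

theorem exCl {bw : ℝ} {v : B1} {v2 : B2 v} {eps al S G4 Qb Q1 ls lsx phux Ei Eh : ℝ}
    {x : Ka v2 eps al S G4 Qb Q1 ls lsx phux Ei Eh} {tr gap gu srcs : ℝ} (y : Kb bw x tr gap gu srcs)
    (lam mu y1 srcx : ℝ) :
    Nonempty (Cl y lam mu y1 srcx) := by
  obtain ⟨FXt, e_FXt⟩ : ∃ zz : ℝ, zz = y.CuN * G4 * srcx * v.op1⁻¹ := ⟨_, rfl⟩
  obtain ⟨S1, e_S1⟩ : ∃ zz : ℝ, zz = -(y1 * (1 - (1 / 2) * (lam * y1))) := ⟨_, rfl⟩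
  obtain ⟨a4, e_a4⟩ : ∃ zz : ℝ, zz = mu * (v.u * v.n * (v.h + 1) * v.j) := ⟨_, rfl⟩
  obtain ⟨S4, e_S4⟩ : ∃ zz : ℝ, zz = S1 + a4 + lam * (S1 * a4) := ⟨_, rfl⟩
  obtain ⟨Dh, e_Dh⟩ : ∃ zz : ℝ, zz = v.u2 * v.Dt := ⟨_, rfl⟩
  obtain ⟨a5, e_a5⟩ : ∃ zz : ℝ, zz = -(mu * (Dh * ((1 / 2) - (3 / 8) * v.D))) := ⟨_, rfl⟩
  obtain ⟨S5, e_S5⟩ : ∃ zz : ℝ, zz = S4 + a5 + lam * (S4 * a5) := ⟨_, rfl⟩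
  obtain ⟨a6, e_a6⟩ : ∃ zz : ℝ, zz = mu * (v.u * y.eN * v.op1⁻¹) := ⟨_, rfl⟩
  obtain ⟨S6, e_S6⟩ : ∃ zz : ℝ, zz = S5 + a6 + lam * (S5 * a6) := ⟨_, rfl⟩
  obtain ⟨a7, e_a7⟩ : ∃ zz : ℝ, zz = mu * y.b1 := ⟨_, rfl⟩
  obtain ⟨S7, e_S7⟩ : ∃ zz : ℝ, zz = (S6 - a7) * (1 + v.t * y.b1)⁻¹ := ⟨_, rfl⟩
  obtain ⟨a8, e_a8⟩ : ∃ zz : ℝ, zz = mu * (v.u * v.tu * y.eN * y.q0) := ⟨_, rfl⟩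
  obtain ⟨S8, e_S8⟩ : ∃ zz : ℝ, zz = S7 + a8 + lam * (S7 * a8) := ⟨_, rfl⟩
  obtain ⟨c1, e_c1⟩ : ∃ zz : ℝ, zz = 1 + lam * S8 := ⟨_, rfl⟩
  obtain ⟨rt, e_rt⟩ : ∃ zz : ℝ, zz = mu * (y.fbt * x.XM + FXt * (v.t * y.XLt)) := ⟨_, rfl⟩
  obtain ⟨fm, e_fm⟩ : ∃ zz : ℝ, zz = mu * (y.fbt + FXt) := ⟨_, rfl⟩
  obtain ⟨Bm, e_Bm⟩ : ∃ zz : ℝ, zz = -(S8 + rt * c1 + fm) := ⟨_, rfl⟩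
  exact ⟨⟨FXt, S1, a4, S4, Dh, a5, S5, a6, S6, a7, S7, a8, S8, c1, rt, fm, Bm, e_FXt, e_S1, e_a4, e_S4, e_Dh, e_a5, e_S5, e_a6, e_S6, e_a7, e_S7, e_a8, e_S8, e_c1, e_rt, e_fm, e_Bm⟩⟩

theorem exCd {bw : ℝ} {v : B1} {v2 : B2 v} {eps al S G4 Qb Q1 ls lsx phux Ei Eh : ℝ}
    {x : Ka v2 eps al S G4 Qb Q1 ls lsx phux Ei Eh} {tr gap gu srcs : ℝ} (y : Kb bw x tr gap gu srcs)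
    (Ee : ℝ) :
    Nonempty (Cd y Ee) := by
  obtain ⟨FX, e_FX⟩ : ∃ zz : ℝ, zz = y.CuN * G4 * srcs * v.op1⁻¹ := ⟨_, rfl⟩
  obtain ⟨Lam, e_Lam⟩ : ∃ zz : ℝ, zz = (1 + v.t * y.b1)⁻¹ := ⟨_, rfl⟩
  obtain ⟨c1, e_c1⟩ : ∃ zz : ℝ, zz = Ee * Lam * v.m * (1 + v.tu * y.eN * v.op1⁻¹) * y.q0 := ⟨_, rfl⟩
  obtain ⟨fb, e_fb⟩ : ∃ zz : ℝ, zz = v.t * y.fbt := ⟨_, rfl⟩
  obtain ⟨r2, e_r2⟩ : ∃ zz : ℝ, zz = fb * x.XM + FX * (v.t * y.XLt) := ⟨_, rfl⟩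
  obtain ⟨Bm, e_Bm⟩ : ∃ zz : ℝ, zz = 1 - (fb + FX + c1 * (1 + r2)) := ⟨_, rfl⟩
  exact ⟨⟨FX, Lam, c1, fb, r2, Bm, e_FX, e_Lam, e_c1, e_fb, e_r2, e_Bm⟩⟩

end Pool.Agent.helper71.FJ
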