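import Pool.Agent.helper71.FJ.Glu

/-!
# Far field programs in scaled variables: charts and domain
-/

namespace Pool.Agent.helper71.FJ

open Complex ComplexConjugate Pool.Agent.helper31.EQ.Y Pool.Agent.helper31.EQ.R
open Pool.Agent.helper12.EQL Pool.Agent.helper12.RP Pool.Agent.helper12.FF Pool.Agent.helper63.FF
open Pool.Agent.helper71.FF (B1 B2 B3 Geo PhiB)
open Pool.Agent.helper71.FG (PtE RE)

variable {κ : ℝ} {v : B1} {eps al S r tr us sg z de z2 cv g mu tz ri : ℝ}

private theorem pos_r {a b : ℝ} (h : 0 < a * b) (ha : 0 ≤ a) : 0 < b := by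
  by_contra hb
  push Not at hb
  have := mul_nonpos_of_nonneg_of_nonpos ha hb
  linarith

theorem sc_HI (ht : v.t = sg * de) (hu : v.u = z * de) (hee : v.e * (de * de) = 1)
    (e_al : al = sg * z) (e_z2 : z2 = z * z) (e_r : r = v.t * z2) (e_tr : tr = v.t * r)
    (e_eps : eps = de * de) : Sc v eps al 1 r tr v.u := by
  refine ⟨by rw [e_eps]; exact hee, one_pos, ?_, ?_, e_tr, mul_one _⟩
  · rw [e_al, e_eps, v.e_tu, ht, hu]; ring
  · rw [e_r, e_z2, v.e_R, v.e_u2, hu]
    linear_combination (-(v.t * z * z)) * hee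

theorem sc_HII (hde : de = v.t * cv) (hz : z = al * cv) (hu : v.u = z * de)
    (hee : v.e * (de * de) = 1) (e_z2 : z2 = z * z) (e_r : r = v.t * z2) (e_tr : tr = v.t * r)
    (e_eps : eps = de * de) : Sc v eps al 1 r tr v.u := by
  refine ⟨by rw [e_eps]; exact hee, one_pos, ?_, ?_, e_tr, mul_one _⟩
  · rw [e_eps, v.e_tu, hu, hz]
    linear_combination (al * de) * hde
  · rw [e_r, e_z2, v.e_R, v.e_u2, hu]
    linear_combination (-(v.t * z * z)) * hee

theorem sc_HIII (hde : de = v.u * g) (ht : v.t = r * mu) (e_mu : mu = g * g)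
    (hee : v.e * (de * de) = 1) (e_r : r = al * v.u) (e_tr : tr = v.t * r)
    (e_eps : eps = de * de) : Sc v eps al 1 r tr v.u := by
  refine ⟨by rw [e_eps]; exact hee, one_pos, ?_, ?_, e_tr, mul_one _⟩
  · rw [e_eps, v.e_tu, ht, e_r, e_mu, hde]; ring
  · rw [v.e_R, v.e_u2, ht, e_mu]
    rw [hde] at hee
    linear_combination (-r) * hee

theorem sc_Ma (hde : de = tz * S) (e_tz : tz = v.t * z) (hu : v.u = z * de)
    (hee : v.e * (de * de) = 1) (hde0 : 0 < de) (ht0 : 0 < v.t) (hz0 : 0 ≤ z) (e_z2 : z2 = z * z)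
    (e_r : r = v.t * z2) (e_tr : tr = v.t * r) (e_eps : eps = de * de) : Sc v eps 1 S r tr r := by
  have hS : 0 < S := by
    have h1 : 0 < tz * S := by rw [← hde]; exact hde0
    have h2 : 0 ≤ tz := by rw [e_tz]; positivity
    exact pos_r h1 h2
  refine ⟨by rw [e_eps]; exact hee, hS, ?_, ?_, e_tr, ?_⟩
  · rw [e_eps, v.e_tu, hu]
    have h1 : de = v.t * z * S := by rw [hde, e_tz]
    linear_combination de * h1
  · rw [e_r, e_z2, v.e_R, v.e_u2, hu]
    linear_combination (-(v.t * z * z)) * hee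
  · rw [e_r, e_z2, hu, hde, e_tz]; ring

theorem sc_Mb (hu : v.u = r * S) (ht : v.t = r * mu) (e_mu : mu = g * g) (e_tz : tz = r * g)
    (hde : de = tz * S) (hee : v.e * (de * de) = 1) (hu0 : 0 < v.u) (hr0 : 0 ≤ r)
    (e_tr : tr = v.t * r) (e_eps : eps = de * de) : Sc v eps 1 S r tr r := by
  have hS : 0 < S := by
    have h1 : 0 < r * S := by rw [← hu]; exact hu0
    exact pos_r h1 hr0
  refine ⟨by rw [e_eps]; exact hee, hS, ?_, ?_, e_tr, hu.symm⟩
  · rw [e_eps, v.e_tu, hu, ht, hde, e_tz, e_mu]; ring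
  · rw [v.e_R, v.e_u2, ht, hu, e_mu]
    rw [hde, e_tz] at hee
    linear_combination (-r) * hee

theorem sc_Mc (e_S : S = v.u * ri) (ht : v.t = tr * ri) (e_eps : eps = v.t * v.u * S)
    (hri : r * ri = 1) (hri0 : 0 < ri) (hu0 : 0 < v.u) (hee : v.e * eps = 1) :
    Sc v eps 1 S r tr r := by
  refine ⟨hee, by rw [e_S]; positivity, by rw [e_eps, v.e_tu]; ring, ?_, ?_, ?_⟩
  · rw [v.e_R, v.e_u2]
    have h1 : v.u = S * r := by rw [e_S]; linear_combination (-v.u) * hri
    have h2 : v.e * (v.t * v.u * S) = 1 := by rw [← e_eps]; exact hee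
    linear_combination (-r) * h2 - (v.e * v.t * v.u) * h1
  · rw [ht]; linear_combination (-tr) * hri
  · rw [e_S]; linear_combination v.u * hri

/-! ### domain -/

variable {τ : ℂ} {R w bw : ℝ}

theorem dm_lo {e eps E c : ℝ} (ee : e * eps = 1) (hE : E ≤ e) (hc : 1 ≤ c * E) (hc0 : 0 < c)
    (h : 0 < eps - c) : False := by
  have h1 : 0 < eps := by linarith
  have h2 : E * eps ≤ e * eps := mul_le_mul_of_nonneg_right hE h1.le
  have hE0 : 0 < E := by
    by_contra hh
    push Not at hh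
    have := mul_nonpos_of_nonneg_of_nonpos hc0.le hh
    linarith
  have h3 : E * c < E * eps := mul_lt_mul_of_pos_left (by linarith) hE0
  linarith

theorem dm_hi {e eps E c : ℝ} (ee : e * eps = 1) (he0 : 0 < e) (hE : e ≤ E) (hc : c * E ≤ 1)
    (h : 0 < c - eps) : False := by
  have h1 : 0 < eps := by
    by_contra hh
    push Not at hh
    have := mul_nonpos_of_nonneg_of_nonpos he0.le hh
    linarith
  have h2 : e * eps ≤ E * eps := mul_le_mul_of_nonneg_right hE h1.le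
  have hE0 : 0 < E := by linarith
  have h3 : E * eps < E * c := mul_lt_mul_of_pos_left (by linarith) hE0
  linarith

theorem dm_tr {s : ℂ} (G : Geo κ s v) (c : Sc v eps al S r tr us) :
    tr * v.nj2 = v.e * v.K ^ 2 := by
  rw [c.htr, c.hr, G.Kom, v.e_om, v.e_R, v.e_u2, v.e_nj2]; ring

theorem dm_al {s : ℂ} (G : Geo κ s v) (c : Sc v eps al S r tr us) :
    al * v.nj = S * (v.e * v.K) := by
  rw [c.al', G.Kom, v.e_om, v.e_tu]; ring

theorem dm_b {s : ℂ} (G : Geo κ s v) (c : Sc v eps al S r tr us) (hb : 1 / 2 < v.e * v.K)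
    (h : 0 < (1 / 2) * S - al * v.nj) : False := by
  rw [dm_al G c] at h
  have := mul_lt_mul_of_pos_left hb c.S0
  linarith

theorem dm_bx {s : ℂ} (G : Geo κ s v) (c : Sc v eps al S r tr us) (hb : v.e * v.K ≤ 129 / 256)
    (h : 0 < al * v.nj - (129 / 256) * S) : False := by
  rw [dm_al G c] at h
  have := mul_le_mul_of_nonneg_left hb c.S0.le
  linarith

theorem dm_de (h : eps = de * de) : de ≤ 5 * eps + 13 / 256 ∧ de ≤ 16 * eps + 1 / 64 := by
  rw [h]
  constructor
  · nlinarith [sq_nonneg (10 * de - 1)]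
  · nlinarith [sq_nonneg (32 * de - 1)]

theorem dm_R (G : Geo κ (shf κ τ) v) (v2 : B2 v) (D : PtE bw v.e κ τ R w)
    (c : Sc v eps al S r tr us) {C2 Gt : ℝ}
    (e1 : C2 = al * v.nj * (al * v.nj) * (13 * 10⁻¹) + 25 * (S * S))
    (e2 : Gt = 2 * v.c0 - v.t - v.K * v.om)
    (h : 0 < al * al * (v.om1 * v.op1) - C2 * ((1 - v.t * v.om1) * (1 - v.R * Gt))) : False := by
  refine Pool.Agent.helper71.FG.dR_core G v2 D rfl e2 (et := v.e * v.tu) rfl ?_
  have hS := c.S0
  have hal := c.al'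
  have h1 := dm_al G c
  have e3 : al * al * (v.om1 * v.op1) - C2 * ((1 - v.t * v.om1) * (1 - v.R * Gt)) =
      S * S * (v.e * v.tu * (v.e * v.tu) * v.om1 * v.op1 -
        (v2.eK * v2.eK * (13 * 10⁻¹) + 25) * (1 - v.t * v.om1) * (1 - v.R * Gt)) := by
    rw [e1, h1, v2.e_eK, hal]; ring
  rw [e3] at h
  exact (mul_pos_iff_of_pos_left (mul_pos hS hS)).1 h

end Pool.Agent.helper71.FJ
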