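import Pool.Agent.helper71.FJ.Ph

/-!
# Far field programs in scaled variables: closing
-/

namespace Pool.Agent.helper71.FJ

open Complex ComplexConjugate Pool.Agent.helper31.EQ.Y Pool.Agent.helper31.EQ.R
open Pool.Agent.helper12.EQL Pool.Agent.helper12.RP Pool.Agent.helper12.FF Pool.Agent.helper63.FF
open Pool.Agent.helper71.FF (B1 B2 B3 Geo PhiB chain exp_neg_le inv_sqrt_le)
open Pool.Agent.helper71.FG (Mb CC Asr Nx Tb lt_aQ PtE RE far_fin rhoC Out mid_core)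

variable {κ : ℝ} {s : ℂ} {v : B1} {v2 : B2 v}

/-- the sign facts used for the closing -/
theorem tb_pos (G : Geo κ s v) {bw A Qb Q1 lsi phu Ei Eh : ℝ} {m : Mb bw v2 A Qb Q1 lsi phu Ei Eh}
    (hε : 0 ≤ m.eps) (hN : 0 ≤ m.NN) (ae2 : 0 < v.aQ - 2 * (v.tu2 * m.eps)) :
    0 ≤ m.eN ∧ 0 < v.aQ - m.eta ∧ 0 < v.m := by
  have htu := G.tu0
  refine ⟨by rw [m.e_eN]; positivity, ?_, by rw [G.m_eq]; exact Real.exp_pos _⟩
  have := lt_aQ G m hε ae2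
  linarith

/-- the product of the closing, powers of `lam` -/
theorem Tb_Cl (G : Geo κ s v) {bw A eps al S G4 Qb Q1 ls lsx phux Ei Eh tr gap gu srcs : ℝ}
    {x : Ka v2 eps al S G4 Qb Q1 ls lsx phux Ei Eh} {y : Kb bw x tr gap gu srcs}
    {m : Mb bw v2 A Qb Q1 (v.e * v.t * S * lsx) (v.e * v.t * S * phux) Ei Eh}
    (q : Eqs x y m) (hbw : 0 < bw) {nq rpv r ye lam mu y1 srcx : ℝ}
    (k : Cl y lam mu y1 srcx) (hlm : lam * mu = v.t) (hy : lam * y1 = r * ye)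
    (hye : 0 ≤ r * ye) (hnq : 0 ≤ nq) (hT0 : nq * Real.exp (m.yy * rpv) ≤ Real.exp (-(r * ye)))
    (hε : 0 ≤ m.eps) (hN : 0 ≤ m.NN) (ae2 : 0 < v.aQ - 2 * (v.tu2 * m.eps)) :
    Tb m nq rpv ≤ k.c1 := by
  obtain ⟨heN, hQe, hm0⟩ := tb_pos G hε hN ae2
  have haQ := G.aQ0
  have htu := G.tu0
  have ht := G.t0
  have hu := G.u0
  have hop := G.op0
  have hq0 : y.q0 = (v.aQ - m.eta)⁻¹ := by rw [y.e_q0, q.eta]
  have heN' : y.eN = m.eN := q.eN.symm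
  have hb1e : y.b1 = m.b1 := q.b1.symm
  -- the first factor
  have k1 : 0 ≤ nq * Real.exp (m.yy * rpv) ∧ nq * Real.exp (m.yy * rpv) ≤ 1 + lam * k.S1 := by
    refine ⟨by positivity, hT0.trans ?_⟩
    have h1 := exp_neg_le hye
    rw [k.e_S1]
    refine h1.trans (le_of_eq ?_)
    linear_combination (1 - (1 / 2) * (lam * y1) - (1 / 2) * (r * ye)) * hy
  -- exp κ
  have hm : v.m = 1 + lam * k.a4 := by
    have h1 := G.cKh
    have h2 : v.m = 1 + v.K * (v.h + 1) := by rw [v.e_m]; linarith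
    rw [h2, v.e_K, k.e_a4]
    have h3 : 2 * v.h = v.t * v.u * v.n := by rw [v.e_h, v.e_tu]; ring
    linear_combination (v.j * (v.h + 1)) * h3 - (v.u * v.n * (v.h + 1) * v.j) * hlm
  have k4 := chain k1.1 k1.2 (F := v.m) (a := k.a4) hm0.le hm.le
  rw [← k.e_S4] at k4
  -- 1/|Q|
  have hD0 : 0 ≤ v.D := by have := G.SQ1; rw [v.e_SQ] at this; linarith
  have hDh : v.D = v.t * k.Dh := by rw [v.e_D, v.e_R, k.e_Dh]; ring
  have haQi := inv_sqrt_le haQ hD0 (by rw [G.aQ_sq, v.e_SQ]; ring)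
  have k5 := chain k4.1 k4.2 (F := v.aQ⁻¹) (a := k.a5)
    (by positivity) (by
      refine haQi.trans (le_of_eq ?_)
      rw [k.e_a5]
      linear_combination (-((1 / 2) - (3 / 8) * v.D)) * hDh +
        (k.Dh * ((1 / 2) - (3 / 8) * v.D)) * hlm)
  rw [← k.e_S5] at k5
  have k6 := chain k5.1 k5.2 (F := 1 + v.tu * m.eN * v.op1⁻¹) (a := k.a6)
    (by positivity) (le_of_eq (by
      rw [k.e_a6, heN', v.e_tu]
      linear_combination (-(v.u * m.eN * v.op1⁻¹)) * hlm))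
  rw [← k.e_S6] at k6
  -- Lam
  have hb1 : (1 + (v.h + 1) * (v.K + v.t) * bw) = 1 + v.t * m.b1 := by
    rw [m.e_b1, m.e_beta, G.Kom, v.e_op1]; ring
  have hh := G.h0
  have hb10 : 0 ≤ m.b1 := by rw [m.e_b1, m.e_beta]; positivity
  have hb1' : 0 < 1 + v.t * m.b1 := by positivity
  obtain ⟨P6, hP6⟩ : ∃ P, P = nq * Real.exp (m.yy * rpv) * v.m * v.aQ⁻¹ *
    (1 + v.tu * m.eN * v.op1⁻¹) := ⟨_, rfl⟩
  rw [← hP6] at k6
  have k7 : 0 ≤ P6 * (1 + v.t * m.b1)⁻¹ ∧ P6 * (1 + v.t * m.b1)⁻¹ ≤ 1 + lam * k.S7 := by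
    refine ⟨by have := k6.1; positivity, ?_⟩
    have h1 := mul_le_mul_of_nonneg_right k6.2 (inv_pos.2 hb1').le
    refine h1.trans (le_of_eq ?_)
    rw [k.e_S7, k.e_a7, hb1e]
    have h2 : (1 + v.t * m.b1) * (1 + v.t * m.b1)⁻¹ = 1 := mul_inv_cancel₀ hb1'.ne'
    linear_combination h2 + ((1 + v.t * m.b1)⁻¹ * m.b1) * hlm
  -- 1/(|Q| - η)
  have k8 := chain k7.1 k7.2 (F := v.aQ * (v.aQ - m.eta)⁻¹)
    (a := k.a8) (by positivity) (le_of_eq (by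
      rw [k.e_a8, hq0, heN']
      have h1 : m.eta = v.t * (v.u * v.tu * m.eN) := by rw [m.e_eta, v.e_tu2, v.e_tu]; ring
      have h2 : (v.aQ - m.eta) * (v.aQ - m.eta)⁻¹ = 1 := mul_inv_cancel₀ hQe.ne'
      linear_combination h2 + (v.aQ - m.eta)⁻¹ * h1 -
        (v.u * v.tu * m.eN * (v.aQ - m.eta)⁻¹) * hlm))
  rw [← k.e_S8, ← k.e_c1] at k8
  refine le_trans (le_of_eq ?_) k8.2
  unfold Tb
  rw [hb1, hP6]
  have h2 : v.aQ⁻¹ * v.aQ = 1 := inv_mul_cancel₀ haQ.ne'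
  linear_combination (-(nq * Real.exp (m.yy * rpv) * v.m * (1 + v.t * m.b1)⁻¹ *
    (1 + v.tu * m.eN * v.op1⁻¹) * (v.aQ - m.eta)⁻¹)) * h2

/-- the product of the closing, direct -/
theorem Tb_Cd (G : Geo κ s v) {bw A eps al S G4 Qb Q1 ls lsx phux Ei Eh tr gap gu srcs : ℝ}
    {x : Ka v2 eps al S G4 Qb Q1 ls lsx phux Ei Eh} {y : Kb bw x tr gap gu srcs}
    {m : Mb bw v2 A Qb Q1 (v.e * v.t * S * lsx) (v.e * v.t * S * phux) Ei Eh}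
    (q : Eqs x y m) (hbw : 0 < bw) {nq rpv Ee : ℝ}
    (k : Cd y Ee) (hT0 : nq * Real.exp (m.yy * rpv) ≤ Ee)
    (hε : 0 ≤ m.eps) (hN : 0 ≤ m.NN) (ae2 : 0 < v.aQ - 2 * (v.tu2 * m.eps)) :
    Tb m nq rpv ≤ k.c1 := by
  obtain ⟨heN, hQe, hm0⟩ := tb_pos G hε hN ae2
  have htu := G.tu0
  have ht := G.t0
  have hop := G.op0
  have hq0 : y.q0 = (v.aQ - m.eta)⁻¹ := by rw [y.e_q0, q.eta]
  have hb1 : (1 + (v.h + 1) * (v.K + v.t) * bw) = 1 + v.t * m.b1 := by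
    rw [m.e_b1, m.e_beta, G.Kom, v.e_op1]; ring
  have hh := G.h0
  have hb10 : 0 ≤ m.b1 := by rw [m.e_b1, m.e_beta]; positivity
  have hLam : k.Lam = (1 + v.t * m.b1)⁻¹ := by rw [k.e_Lam, q.b1]
  unfold Tb
  rw [hb1, k.e_c1, hLam, hq0, ← q.eN]
  apply mul_le_mul_of_nonneg_right _ (by positivity)
  apply mul_le_mul_of_nonneg_right _ (by positivity)
  apply mul_le_mul_of_nonneg_right _ hm0.le
  exact mul_le_mul_of_nonneg_right hT0 (by positivity)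

/-- **The point theorem in scaled variables.** -/
theorem far8 {τ : ℂ} {v : B1} {v2 : B2 v} (G : Geo κ (shf κ τ) v)
    {bw A eps al S G4 r tr us Qb Q1 ls lsx phux Ei Eh gap gu srcs R w : ℝ}
    (c : Sc v eps al S r tr us) (hA0 : 0 < A) (hA : A * G4 = v.e * S)
    {x : Ka v2 eps al S G4 Qb Q1 ls lsx phux Ei Eh} {y : Kb bw x tr gap gu srcs}
    (a : As8 x y) (hls : ls = v.om1 * v.t * (al * lsx)) (hlsx : 0 ≤ lsx)
    (hsrc : srcs = v.t * (v.om1 * ((1 / 2) * (us * v2.bsum * v.aQ⁻¹)) + x.kl))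
    (hgu : al * gu = gap * S)
    (hl : ‖log (fT v.e κ (shf κ τ)) - log (fT v.e κ (shf κ (shf κ τ)))‖ ≤ ls)
    (hnq : ‖qq v.e κ (shf κ τ)‖ ≤ Qb) (hQb0 : 0 < Qb) (hn1Q : ‖1 + qq v.e κ (shf κ τ)‖ ≤ Q1)
    {lf Ex : ℝ} (hφ : PhiB κ (shf κ τ) v v2 (v.e * v.t * S * phux) Ei Eh lf Ex)
    {nq rpv : ℝ} (nx : Nx κ (shf κ τ) v gap nq rpv) (D : PtE bw v.e κ τ R w)
    {c1 rc Bm : ℝ}
    (hT : ∀ m : Mb bw v2 A Qb Q1 (v.e * v.t * S * lsx) (v.e * v.t * S * phux) Ei Eh,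
      Eqs x y m → 0 ≤ m.eps → 0 ≤ m.NN → 0 < v.aQ - 2 * (v.tu2 * m.eps) → Tb m nq rpv ≤ c1)
    (hrc : rc = v.t * y.fbt * x.XM + y.CuN * G4 * srcs * v.op1⁻¹ * (v.t * y.XLt))
    (hBm : v.t * y.fbt + y.CuN * G4 * srcs * v.op1⁻¹ + c1 * (1 + rc) = 1 - Bm)
    (aB : v.t * (1 / 1024) < Bm) :
    FarPt v.e κ (1 - Real.sinh κ / 1024) w (2 * A * Real.sinh κ ^ 2) R (RE v.e κ (w * R)) τ := by
  have he := G.e0
  have hκ := G.κ0
  have ht := G.t0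
  have hS := c.S0
  obtain ⟨hτ0, -⟩ := reg_s hκ D.R2.le D.τ0
  have hG4 : 0 < G4 := by
    have h1 : 0 < A * G4 := by rw [hA]; positivity
    exact (mul_pos_iff_of_pos_left hA0).1 h1
  obtain ⟨m⟩ := Pool.Agent.helper71.FG.exMb bw v2 A Qb Q1 (v.e * v.t * S * lsx)
    (v.e * v.t * S * phux) Ei Eh
  have q := eqs_of G c hA hG4 x y hls hsrc m
  have as := a.asr q hS
  obtain ⟨iA, hiA⟩ : ∃ iA, A * iA = 1 := ⟨A⁻¹, mul_inv_cancel₀ hA0.ne'⟩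
  obtain ⟨k⟩ := Pool.Agent.helper71.FG.exCC m gap iA
  have qc := eqc_of G c hA hiA hgu q k
  obtain ⟨hX0, hX1, -⟩ := G.X_le v2 hA0 D.R0 D.R1 rfl
  have hXM : 2 * A * Real.sinh κ ^ 2 * R / (1 - R) * ‖shf κ τ + 1‖ ≤ m.XM := by
    rw [m.e_XM, m.e_Xe]
    exact hX1
  have hlsi : 0 ≤ v.e * v.t * S * lsx := by positivity
  obtain ⟨n1, L1, M2, E0, η, o⟩ := mid_core G m hA0 hl (by rw [q.ls]) hlsi hnq hQb0 hn1Q as.XM as.QX
    as.e2 as.l1 as.a0 hφ.lf0 hφ.Ex0 hφ.Ei0 hφ.Eh0 hφ.phu0 hφ.lf1 hX0 hXM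
  refine far_fin G as nx D hA0 hlsi hφ o (fbt := k.fbt) (FX := k.FX) (c1 := c1)
    (fb := v.t * k.fbt) (r := rc) (Bm := Bm) ?_ ?_ rfl ?_ ?_ aB
  · exact rhoC G hτ0 nx k hiA o hlsi as.rl as.e2 (by rw [qc.zp]; exact a.zp)
      (by rw [qc.rr]; exact a.rr) hφ.phu0 hX0 hA0
  · exact hT m q o.o_eps0 (by linarith [o.o_NN1]) as.e2
  · rw [qc.fbt, qc.FX, q.XM, q.XLt]; exact hrc
  · rw [qc.fbt, qc.FX]; exact hBm

end Pool.Agent.helper71.FJ
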