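import Pool.Agent.helper71.FG.Fin2

/-!
# Far field programs in scaled variables: bounds of the cosine
-/

namespace Pool.Agent.helper71.FJ

open Pool.Agent.helper71.FF (cos_ge6)
open Pool.Agent.helper71.FG (sin_ge7 cos_le8)

private theorem mono_z {f f' : ℝ → ℝ} (hf : ∀ x, HasDerivAt f (f' x) x)
    (h0 : 0 ≤ f 0) (h : ∀ x, 0 ≤ x → 0 ≤ f' x) {x : ℝ} (hx : 0 ≤ x) : 0 ≤ f x := by
  have hm : MonotoneOn f (Set.Ici 0) := by
    apply monotoneOn_of_deriv_nonneg (convex_Ici 0)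
    · exact fun y _ => (hf y).continuousAt.continuousWithinAt
    · exact fun y _ => (hf y).differentiableAt.differentiableWithinAt
    · intro y hy
      rw [interior_Ici] at hy
      rw [(hf y).deriv]
      exact h y (le_of_lt hy)
  exact h0.trans (hm (Set.mem_Ici.2 le_rfl) (Set.mem_Ici.2 hx) hx)

theorem sin_le9 {x : ℝ} (hx : 0 ≤ x) :
    0 ≤ (x - x ^ 3 / 6 + x ^ 5 / 120 - x ^ 7 / 5040 + x ^ 9 / 362880) - Real.sin x :=
  mono_z (f := fun x => (x - x ^ 3 / 6 + x ^ 5 / 120 - x ^ 7 / 5040 + x ^ 9 / 362880) - Real.sin x)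
    (f' := fun x => (1 - x ^ 2 / 2 + x ^ 4 / 24 - x ^ 6 / 720 + x ^ 8 / 40320) - Real.cos x)
    (fun x => by
      have h := ((((((hasDerivAt_id x)).sub ((hasDerivAt_pow 3 x).div_const 6)).add ((hasDerivAt_pow 5 x).div_const 120)).sub ((hasDerivAt_pow 7 x).div_const 5040)).add ((hasDerivAt_pow 9 x).div_const 362880)).sub (Real.hasDerivAt_sin x)
      refine h.congr_deriv ?_
      push_cast
      ring) (by simp)
    (fun x hx => cos_le8 hx) hx

theorem cos_ge10 {x : ℝ} (hx : 0 ≤ x) :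
    0 ≤ Real.cos x - (1 - x ^ 2 / 2 + x ^ 4 / 24 - x ^ 6 / 720 + x ^ 8 / 40320 - x ^ 10 / 3628800) :=
  mono_z (f := fun x => Real.cos x - (1 - x ^ 2 / 2 + x ^ 4 / 24 - x ^ 6 / 720 + x ^ 8 / 40320 - x ^ 10 / 3628800))
    (f' := fun x => (x - x ^ 3 / 6 + x ^ 5 / 120 - x ^ 7 / 5040 + x ^ 9 / 362880) - Real.sin x)
    (fun x => by
      have h := (Real.hasDerivAt_cos x).sub (((((((hasDerivAt_pow 2 x).div_const 2).const_sub 1).add ((hasDerivAt_pow 4 x).div_const 24)).sub ((hasDerivAt_pow 6 x).div_const 720)).add ((hasDerivAt_pow 8 x).div_const 40320)).sub ((hasDerivAt_pow 10 x).div_const 3628800))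
      refine h.congr_deriv ?_
      push_cast
      ring) (by simp)
    (fun x hx => sin_le9 hx) hx

theorem sin_ge11 {x : ℝ} (hx : 0 ≤ x) :
    0 ≤ Real.sin x - (x - x ^ 3 / 6 + x ^ 5 / 120 - x ^ 7 / 5040 + x ^ 9 / 362880 - x ^ 11 / 39916800) :=
  mono_z (f := fun x => Real.sin x - (x - x ^ 3 / 6 + x ^ 5 / 120 - x ^ 7 / 5040 + x ^ 9 / 362880 - x ^ 11 / 39916800))
    (f' := fun x => Real.cos x - (1 - x ^ 2 / 2 + x ^ 4 / 24 - x ^ 6 / 720 + x ^ 8 / 40320 - x ^ 10 / 3628800))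
    (fun x => by
      have h := (Real.hasDerivAt_sin x).sub (((((((hasDerivAt_id x)).sub ((hasDerivAt_pow 3 x).div_const 6)).add ((hasDerivAt_pow 5 x).div_const 120)).sub ((hasDerivAt_pow 7 x).div_const 5040)).add ((hasDerivAt_pow 9 x).div_const 362880)).sub ((hasDerivAt_pow 11 x).div_const 39916800))
      refine h.congr_deriv ?_
      push_cast
      ring) (by simp)
    (fun x hx => cos_ge10 hx) hx

theorem cos_le12 {x : ℝ} (hx : 0 ≤ x) :
    0 ≤ (1 - x ^ 2 / 2 + x ^ 4 / 24 - x ^ 6 / 720 + x ^ 8 / 40320 - x ^ 10 / 3628800 + x ^ 12 / 479001600) - Real.cos x :=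
  mono_z (f := fun x => (1 - x ^ 2 / 2 + x ^ 4 / 24 - x ^ 6 / 720 + x ^ 8 / 40320 - x ^ 10 / 3628800 + x ^ 12 / 479001600) - Real.cos x)
    (f' := fun x => Real.sin x - (x - x ^ 3 / 6 + x ^ 5 / 120 - x ^ 7 / 5040 + x ^ 9 / 362880 - x ^ 11 / 39916800))
    (fun x => by
      have h := ((((((((hasDerivAt_pow 2 x).div_const 2).const_sub 1).add ((hasDerivAt_pow 4 x).div_const 24)).sub ((hasDerivAt_pow 6 x).div_const 720)).add ((hasDerivAt_pow 8 x).div_const 40320)).sub ((hasDerivAt_pow 10 x).div_const 3628800)).add ((hasDerivAt_pow 12 x).div_const 479001600)).sub (Real.hasDerivAt_cos x)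
      refine h.congr_deriv ?_
      push_cast
      ring) (by simp)
    (fun x hx => sin_ge11 hx) hx

theorem sin_le13 {x : ℝ} (hx : 0 ≤ x) :
    0 ≤ (x - x ^ 3 / 6 + x ^ 5 / 120 - x ^ 7 / 5040 + x ^ 9 / 362880 - x ^ 11 / 39916800 + x ^ 13 / 6227020800) - Real.sin x :=
  mono_z (f := fun x => (x - x ^ 3 / 6 + x ^ 5 / 120 - x ^ 7 / 5040 + x ^ 9 / 362880 - x ^ 11 / 39916800 + x ^ 13 / 6227020800) - Real.sin x)
    (f' := fun x => (1 - x ^ 2 / 2 + x ^ 4 / 24 - x ^ 6 / 720 + x ^ 8 / 40320 - x ^ 10 / 3628800 + x ^ 12 / 479001600) - Real.cos x)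
    (fun x => by
      have h := ((((((((hasDerivAt_id x)).sub ((hasDerivAt_pow 3 x).div_const 6)).add ((hasDerivAt_pow 5 x).div_const 120)).sub ((hasDerivAt_pow 7 x).div_const 5040)).add ((hasDerivAt_pow 9 x).div_const 362880)).sub ((hasDerivAt_pow 11 x).div_const 39916800)).add ((hasDerivAt_pow 13 x).div_const 6227020800)).sub (Real.hasDerivAt_sin x)
      refine h.congr_deriv ?_
      push_cast
      ring) (by simp)
    (fun x hx => cos_le12 hx) hx

theorem cos_ge14 {x : ℝ} (hx : 0 ≤ x) :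
    0 ≤ Real.cos x - (1 - x ^ 2 / 2 + x ^ 4 / 24 - x ^ 6 / 720 + x ^ 8 / 40320 - x ^ 10 / 3628800 + x ^ 12 / 479001600 - x ^ 14 / 87178291200) :=
  mono_z (f := fun x => Real.cos x - (1 - x ^ 2 / 2 + x ^ 4 / 24 - x ^ 6 / 720 + x ^ 8 / 40320 - x ^ 10 / 3628800 + x ^ 12 / 479001600 - x ^ 14 / 87178291200))
    (f' := fun x => (x - x ^ 3 / 6 + x ^ 5 / 120 - x ^ 7 / 5040 + x ^ 9 / 362880 - x ^ 11 / 39916800 + x ^ 13 / 6227020800) - Real.sin x)
    (fun x => by
      have h := (Real.hasDerivAt_cos x).sub (((((((((hasDerivAt_pow 2 x).div_const 2).const_sub 1).add ((hasDerivAt_pow 4 x).div_const 24)).sub ((hasDerivAt_pow 6 x).div_const 720)).add ((hasDerivAt_pow 8 x).div_const 40320)).sub ((hasDerivAt_pow 10 x).div_const 3628800)).add ((hasDerivAt_pow 12 x).div_const 479001600)).sub ((hasDerivAt_pow 14 x).div_const 87178291200))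
      refine h.congr_deriv ?_
      push_cast
      ring) (by simp)
    (fun x hx => sin_le13 hx) hx

theorem sin_ge15 {x : ℝ} (hx : 0 ≤ x) :
    0 ≤ Real.sin x - (x - x ^ 3 / 6 + x ^ 5 / 120 - x ^ 7 / 5040 + x ^ 9 / 362880 - x ^ 11 / 39916800 + x ^ 13 / 6227020800 - x ^ 15 / 1307674368000) :=
  mono_z (f := fun x => Real.sin x - (x - x ^ 3 / 6 + x ^ 5 / 120 - x ^ 7 / 5040 + x ^ 9 / 362880 - x ^ 11 / 39916800 + x ^ 13 / 6227020800 - x ^ 15 / 1307674368000))
    (f' := fun x => Real.cos x - (1 - x ^ 2 / 2 + x ^ 4 / 24 - x ^ 6 / 720 + x ^ 8 / 40320 - x ^ 10 / 3628800 + x ^ 12 / 479001600 - x ^ 14 / 87178291200))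
    (fun x => by
      have h := (Real.hasDerivAt_sin x).sub (((((((((hasDerivAt_id x)).sub ((hasDerivAt_pow 3 x).div_const 6)).add ((hasDerivAt_pow 5 x).div_const 120)).sub ((hasDerivAt_pow 7 x).div_const 5040)).add ((hasDerivAt_pow 9 x).div_const 362880)).sub ((hasDerivAt_pow 11 x).div_const 39916800)).add ((hasDerivAt_pow 13 x).div_const 6227020800)).sub ((hasDerivAt_pow 15 x).div_const 1307674368000))
      refine h.congr_deriv ?_
      push_cast
      ring) (by simp)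
    (fun x hx => cos_ge14 hx) hx

theorem cos_le16 {x : ℝ} (hx : 0 ≤ x) :
    0 ≤ (1 - x ^ 2 / 2 + x ^ 4 / 24 - x ^ 6 / 720 + x ^ 8 / 40320 - x ^ 10 / 3628800 + x ^ 12 / 479001600 - x ^ 14 / 87178291200 + x ^ 16 / 20922789888000) - Real.cos x :=
  mono_z (f := fun x => (1 - x ^ 2 / 2 + x ^ 4 / 24 - x ^ 6 / 720 + x ^ 8 / 40320 - x ^ 10 / 3628800 + x ^ 12 / 479001600 - x ^ 14 / 87178291200 + x ^ 16 / 20922789888000) - Real.cos x)
    (f' := fun x => Real.sin x - (x - x ^ 3 / 6 + x ^ 5 / 120 - x ^ 7 / 5040 + x ^ 9 / 362880 - x ^ 11 / 39916800 + x ^ 13 / 6227020800 - x ^ 15 / 1307674368000))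
    (fun x => by
      have h := ((((((((((hasDerivAt_pow 2 x).div_const 2).const_sub 1).add ((hasDerivAt_pow 4 x).div_const 24)).sub ((hasDerivAt_pow 6 x).div_const 720)).add ((hasDerivAt_pow 8 x).div_const 40320)).sub ((hasDerivAt_pow 10 x).div_const 3628800)).add ((hasDerivAt_pow 12 x).div_const 479001600)).sub ((hasDerivAt_pow 14 x).div_const 87178291200)).add ((hasDerivAt_pow 16 x).div_const 20922789888000)).sub (Real.hasDerivAt_cos x)
      refine h.congr_deriv ?_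
      push_cast
      ring) (by simp)
    (fun x hx => sin_ge15 hx) hx

/-- lower bound polynomial -/
noncomputable def Tlo (y : ℝ) : ℝ :=
  1 - y * ((1 / 2) - y * ((22906492245 / 549755813888) - y * ((381774871 / 274877906944) - y * ((27269633 / 1099511627776) - y * ((75749 / 274877906944) - y * ((2295 / 1099511627776) - y * (13 / 1099511627776)))))))

/-- upper bound polynomial -/
noncomputable def Tup (y : ℝ) : ℝ :=
  1 - y * ((1 / 2) - y * ((45812984491 / 1099511627776) - y * ((1527099483 / 1099511627776) - y * ((13634817 / 549755813888) - y * ((302995 / 1099511627776) - y * ((287 / 137438953472) - y * ((3 / 274877906944) - y * (1 / 1099511627776))))))))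

theorem Tlo_poly {y : ℝ} (hy : 0 ≤ y) : Tlo y ≤ 1 - y ^ 1 / 2 + y ^ 2 / 24 - y ^ 3 / 720 + y ^ 4 / 40320 - y ^ 5 / 3628800 + y ^ 6 / 479001600 - y ^ 7 / 87178291200 := by
  unfold Tlo
  have h2 := pow_nonneg hy 2
  have h3 := pow_nonneg hy 3
  have h4 := pow_nonneg hy 4
  have h5 := pow_nonneg hy 5
  have h6 := pow_nonneg hy 6
  have h7 := pow_nonneg hy 7
  ring_nf
  nlinarith [h2, h3, h4, h5, h6, h7]

theorem Tup_poly {y : ℝ} (hy : 0 ≤ y) : 1 - y ^ 1 / 2 + y ^ 2 / 24 - y ^ 3 / 720 + y ^ 4 / 40320 - y ^ 5 / 3628800 + y ^ 6 / 479001600 - y ^ 7 / 87178291200 + y ^ 8 / 20922789888000 ≤ Tup y := by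
  unfold Tup
  have h2 := pow_nonneg hy 2
  have h3 := pow_nonneg hy 3
  have h4 := pow_nonneg hy 4
  have h5 := pow_nonneg hy 5
  have h6 := pow_nonneg hy 6
  have h7 := pow_nonneg hy 7
  have h8 := pow_nonneg hy 8
  ring_nf
  nlinarith [h2, h3, h4, h5, h6, h7, h8]

/-- `cos √y ≥ Tlo y` -/
theorem Tlo_le {y : ℝ} (hy : 0 ≤ y) : Tlo y ≤ Real.cos (Real.sqrt y) := by
  have h1 := cos_ge14 (Real.sqrt_nonneg y)
  have e1 : Real.sqrt y ^ 2 = y := Real.sq_sqrt hy
  have e2 : ∀ k : ℕ, Real.sqrt y ^ (2 * k) = y ^ k := fun k => by rw [pow_mul, e1]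
  have h2 := Tlo_poly hy
  have a4 := e2 2
  have a6 := e2 3
  have a8 := e2 4
  have a10 := e2 5
  have a12 := e2 6
  have a14 := e2 7
  norm_num at a4 a6 a8 a10 a12 a14
  rw [e1, a4, a6, a8, a10, a12, a14] at h1
  linarith

/-- `cos √y ≤ Tup y` -/
theorem le_Tup {y : ℝ} (hy : 0 ≤ y) : Real.cos (Real.sqrt y) ≤ Tup y := by
  have h1 := cos_le16 (Real.sqrt_nonneg y)
  have e1 : Real.sqrt y ^ 2 = y := Real.sq_sqrt hy
  have e2 : ∀ k : ℕ, Real.sqrt y ^ (2 * k) = y ^ k := fun k => by rw [pow_mul, e1]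
  have h2 := Tup_poly hy
  have a4 := e2 2
  have a6 := e2 3
  have a8 := e2 4
  have a10 := e2 5
  have a12 := e2 6
  have a14 := e2 7
  have a16 := e2 8
  norm_num at a4 a6 a8 a10 a12 a14 a16
  rw [e1, a4, a6, a8, a10, a12, a14, a16] at h1
  linarith

/-- `cos α + α²/2` is increasing -/
theorem cos_add_sq {a b : ℝ} (ha : 0 ≤ a) (hab : a ≤ b) :
    Real.cos a + a ^ 2 / 2 ≤ Real.cos b + b ^ 2 / 2 := by
  have hm : MonotoneOn (fun x : ℝ => Real.cos x + x ^ 2 / 2) (Set.Ici 0) := by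
    have hd : ∀ x : ℝ, HasDerivAt (fun x : ℝ => Real.cos x + x ^ 2 / 2) (-Real.sin x + x) x := by
      intro x
      have h := (Real.hasDerivAt_cos x).add ((hasDerivAt_pow 2 x).div_const 2)
      refine h.congr_deriv ?_
      push_cast
      ring
    apply monotoneOn_of_deriv_nonneg (convex_Ici 0)
    · exact fun y _ => (hd y).continuousAt.continuousWithinAt
    · exact fun y _ => (hd y).differentiableAt.differentiableWithinAt
    · intro y hy
      rw [interior_Ici] at hy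
      rw [(hd y).deriv]
      have := Real.sin_le (le_of_lt hy)
      linarith
  exact hm (Set.mem_Ici.2 ha) (Set.mem_Ici.2 (ha.trans hab)) hab

/-- upper bound of the cosine, `α² ≤ x` -/
theorem cos_le_up {α x : ℝ} (h : α ^ 2 ≤ x) : Real.cos α ≤ Tup x + (x - α ^ 2) / 2 := by
  have hx : 0 ≤ x := (sq_nonneg α).trans h
  have h1 : |α| ≤ Real.sqrt x := Real.abs_le_sqrt h
  have h2 := cos_add_sq (abs_nonneg α) h1
  rw [Real.cos_abs, sq_abs, Real.sq_sqrt hx] at h2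
  have h3 := le_Tup hx
  linarith

/-- lower bound of the cosine, `α² ≤ x < π²` -/
theorem cosB_q {α x : ℝ} (h : α ^ 2 ≤ x) (hx : x < 1263 / 128) : Tlo x ≤ Real.cos α := by
  have hx0 : 0 ≤ x := (sq_nonneg α).trans h
  have h1 : |α| ≤ Real.sqrt x := Real.abs_le_sqrt h
  have hpi : (3.1415 : ℝ) < Real.pi := Real.pi_gt_d4
  have h2 : Real.sqrt x ≤ Real.pi := by
    apply Real.sqrt_le_iff.2
    constructor
    · exact Real.pi_pos.le
    · nlinarith
  have h3 : Real.cos (Real.sqrt x) ≤ Real.cos |α| :=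
    Real.cos_le_cos_of_nonneg_of_le_pi (abs_nonneg α) h2 h1
  rw [Real.cos_abs] at h3
  exact (Tlo_le hx0).trans h3

/-- lower bound of the cosine, `π² < y ≤ α² ≤ 39` -/
theorem cosB_t {α y : ℝ} (h : y ≤ α ^ 2) (hy : 2527 / 256 < y) (ha : α ^ 2 ≤ 39) :
    Tlo y ≤ Real.cos α := by
  have hy0 : 0 ≤ y := by linarith
  have hpi : Real.pi < (3.1416 : ℝ) := Real.pi_lt_d4
  have hpi2 : (3.1415 : ℝ) < Real.pi := Real.pi_gt_d4
  have h1 : Real.sqrt y ≤ |α| := Real.sqrt_le_iff.2 ⟨abs_nonneg α, by rw [sq_abs]; exact h⟩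
  have h2 : Real.pi ≤ Real.sqrt y := by
    apply Real.le_sqrt_of_sq_le
    nlinarith
  have h3 : |α| ≤ 2 * Real.pi := by
    have h4 : |α| ^ 2 ≤ (2 * Real.pi) ^ 2 := by rw [sq_abs]; nlinarith
    exact abs_le_of_sq_le_sq' h4 (by linarith) |>.2 |> fun h => h
  have h5 : Real.cos (Real.sqrt y) ≤ Real.cos |α| := by
    have e1 : Real.cos (Real.sqrt y) = Real.cos (2 * Real.pi - Real.sqrt y) := by
      rw [Real.cos_two_pi_sub]
    have e2 : Real.cos |α| = Real.cos (2 * Real.pi - |α|) := by rw [Real.cos_two_pi_sub]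
    rw [e1, e2]
    exact Real.cos_le_cos_of_nonneg_of_le_pi (by linarith) (by linarith) (by linarith)
  rw [Real.cos_abs] at h5
  exact (Tlo_le hy0).trans h5

end Pool.Agent.helper71.FJ
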