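import Pool.Agent.helper71.FJ.Cos

/-!
# Far field programs in scaled variables: the block of `γ` with an upper bound of `qa`
-/

namespace Pool.Agent.helper71.FJ

open Complex ComplexConjugate Pool.Agent.helper31.EQ.Y Pool.Agent.helper31.EQ.R
open Pool.Agent.helper12.EQL Pool.Agent.helper12.RP Pool.Agent.helper12.FF Pool.Agent.helper63.FF
open Pool.Agent.helper71.FF (B1 B2 B3 Geo one_sub_exp_le shf_re')
open Pool.Agent.helper71.FG (arg_sq_ge gam_le_one)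

variable {κ : ℝ}

/-- the block of `γ`; `q` is an upper bound of `qa`, `th` the error, `cc` a lower bound of the cosine -/
structure GE (q th cc hh : ℝ) where
  q1 : ℝ
  o2 : ℝ
  P1 : ℝ
  qh : ℝ
  W : ℝ
  e_q1 : q1 = q + 1
  e_o2 : o2 = q * q + 1 + 2 * (q * cc) - 4 * th
  e_P1 : P1 = o2 * q1⁻¹ + q1
  e_qh : qh = (1 / 2) * (q * hh)
  e_W : W = o2 - qh * P1

theorem exGE (q th cc hh : ℝ) : Nonempty (GE q th cc hh) := by
  obtain ⟨q1, e_q1⟩ : ∃ zz : ℝ, zz = q + 1 := ⟨_, rfl⟩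
  obtain ⟨o2, e_o2⟩ : ∃ zz : ℝ, zz = q * q + 1 + 2 * (q * cc) - 4 * th := ⟨_, rfl⟩
  obtain ⟨P1, e_P1⟩ : ∃ zz : ℝ, zz = o2 * q1⁻¹ + q1 := ⟨_, rfl⟩
  obtain ⟨qh, e_qh⟩ : ∃ zz : ℝ, zz = (1 / 2) * (q * hh) := ⟨_, rfl⟩
  obtain ⟨W, e_W⟩ : ∃ zz : ℝ, zz = o2 - qh * P1 := ⟨_, rfl⟩
  exact ⟨⟨q1, o2, P1, qh, W, e_q1, e_o2, e_P1, e_qh, e_W⟩⟩

/-- `q` is an upper bound of `qa` with the error `th` -/
structure QB (e κ : ℝ) (z : ℂ) (q th : ℝ) : Prop where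
  le : qa e κ z ≤ q
  er : q ≤ qa e κ z + th
  one : q ≤ 1

/-- **The block of `γ`** -/
theorem ge_le {e κ : ℝ} (he : 0 < e) (hκ : 0 < κ) {z : ℂ} (hz : 0 < z.re) {q th cc hh : ℝ}
    (b : GE q th cc hh) (Q : QB e κ z q th) (hcc : cc ≤ Real.cos (e * (Qk κ z).arg))
    (hh1 : h1 κ z = hh) (ho2 : 0 < b.o2) (hW : 0 < b.W) :
    gR e κ z ≤ (1 / 2) * ((1 - qa e κ z ^ 2) * b.W⁻¹) := by
  have hqa0 : 0 ≤ qa e κ z := qa_nonneg z
  have hq0 : 0 ≤ q := hqa0.trans Q.le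
  have hh0 : 0 ≤ hh := by rw [← hh1]; exact h1_nonneg hκ hz
  have hO := Pool.Agent.helper71.FF.oo_sq (e := e) hκ hz
  obtain ⟨p, hp⟩ : ∃ p, p = qa e κ z := ⟨_, rfl⟩
  have h1' := Q.le
  have h2' := Q.er
  have h3' := Q.one
  rw [← hp] at hO hqa0 h1' h2' ⊢
  have hq1' : 0 < b.q1 := by rw [b.e_q1]; linarith
  have hc1 := Real.cos_le_one (e * (Qk κ z).arg)
  obtain ⟨C, hC⟩ : ∃ C, C = Real.cos (e * (Qk κ z).arg) := ⟨_, rfl⟩
  rw [← hC] at hO hcc hc1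
  have hth : 0 ≤ th := by linarith
  have h1 : b.o2 ≤ oo e κ z ^ 2 := by
    rw [hO, b.e_o2]
    -- q² + 1 + 2 q cc - 4 th ≤ p² + 1 + 2 p C
    have k1 : q * q - p * p ≤ 2 * th := by
      have : (q - p) * (q + p) ≤ th * 2 := by
        apply mul_le_mul (by linarith) (by linarith) (by linarith) hth
      linarith
    have k2 : q * cc ≤ p * C + th := by
      have h4 : p * cc ≤ p * C := mul_le_mul_of_nonneg_left hcc hqa0
      have h5 : (q - p) * cc ≤ th := by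
        rcases le_total cc 0 with h | h
        · have := mul_nonpos_of_nonneg_of_nonpos (by linarith : 0 ≤ q - p) h
          linarith
        · have := mul_le_mul (by linarith : q - p ≤ th) (by linarith : cc ≤ 1) h hth
          linarith
      linarith
    nlinarith
  obtain ⟨o, ho⟩ : ∃ o, o = oo e κ z := ⟨_, rfl⟩
  have ho0 : 0 ≤ o := by rw [ho]; exact norm_nonneg _
  rw [← ho] at h1
  have hop : 0 < o := by
    rcases ho0.lt_or_eq with h | h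
    · exact h
    · rw [← h] at h1; nlinarith
  have hAM : 2 * o * b.q1 ≤ o ^ 2 + b.q1 ^ 2 := by nlinarith [sq_nonneg (o - b.q1)]
  have hqh : 0 ≤ b.qh := by rw [b.e_qh]; positivity
  have hP1 : b.P1 * b.q1 = b.o2 + b.q1 ^ 2 := by
    rw [b.e_P1, add_mul, mul_assoc, inv_mul_cancel₀ hq1'.ne']; ring
  have hP1' : 0 < b.P1 := by
    by_contra h
    push Not at h
    nlinarith [mul_nonpos_of_nonpos_of_nonneg h hq1'.le, sq_nonneg b.q1]
  have hW' := b.e_W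
  have hk : b.qh < b.q1 := by
    by_contra h
    push Not at h
    have h2 : b.q1 * b.P1 ≤ b.qh * b.P1 := mul_le_mul_of_nonneg_right h hP1'.le
    have h3 : b.q1 * b.P1 = b.o2 + b.q1 ^ 2 := by rw [mul_comm]; exact hP1
    nlinarith [sq_nonneg b.q1]
  have key : b.W ≤ o * (o - q * hh) := by
    have e1 : q * hh = 2 * b.qh := by rw [b.e_qh]; ring
    rw [e1, hW']
    have h5 : b.q1 * (b.o2 - b.qh * b.P1) ≤ b.q1 * (o * (o - 2 * b.qh)) := by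
      have e2 : b.q1 * (b.o2 - b.qh * b.P1) = b.q1 * b.o2 - b.qh * (b.P1 * b.q1) := by ring
      rw [e2, hP1]
      nlinarith [mul_le_mul_of_nonneg_left hAM hqh, mul_nonneg (sub_nonneg.2 hk.le) (sub_nonneg.2 h1)]
    exact le_of_mul_le_mul_left h5 hq1'
  have key2 : b.W ≤ o * (o - p * hh) := by
    refine key.trans (mul_le_mul_of_nonneg_left ?_ ho0)
    have := mul_le_mul_of_nonneg_right h1' hh0
    linarith
  have hlt : p * hh < o := by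
    have h6 : 0 < o * (o - p * hh) := lt_of_lt_of_le hW key2
    have := (mul_pos_iff_of_pos_left hop).1 h6
    linarith
  have hH := H2 he hκ hz (by rw [← hp, hh1, ← ho]; exact hlt)
  rw [← hp, hh1, ← ho] at hH
  obtain ⟨hg1, -⟩ := hH
  refine hg1.trans ?_
  have e3 : (1 - p ^ 2) / (2 * o * (o - p * hh)) = (1 / 2) * ((1 - p ^ 2) * (o * (o - p * hh))⁻¹) := by
    rw [div_eq_mul_inv, mul_assoc 2 o, mul_inv]
    ring
  rw [e3]
  have h7 : (o * (o - p * hh))⁻¹ ≤ b.W⁻¹ := inv_anti₀ hW key2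
  have h8 : 0 ≤ 1 - p ^ 2 := by nlinarith
  have := mul_le_mul_of_nonneg_left h7 h8
  linarith

/-- mode GD -/
theorem gR_GD {e κ : ℝ} (he : 0 < e) (hκ : 0 < κ) {z : ℂ} (hz : 0 < z.re) {q th cc hh : ℝ}
    (b : GE q th cc hh) (Q : QB e κ z q th) (hcc : cc ≤ Real.cos (e * (Qk κ z).arg))
    (hh1 : h1 κ z = hh) (ho2 : 0 < b.o2) (hW : 0 < b.W) {g : ℝ}
    (hg : g = (1 / 2) * (((1 - q) * b.q1 + 2 * th) * b.W⁻¹)) : gR e κ z ≤ g := by
  refine (ge_le he hκ hz b Q hcc hh1 ho2 hW).trans ?_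
  rw [hg]
  have hqa0 : 0 ≤ qa e κ z := qa_nonneg z
  have h1 := Q.le
  have h2 := Q.er
  have h3 := Q.one
  have h4 : 1 - qa e κ z ^ 2 ≤ (1 - q) * b.q1 + 2 * th := by
    rw [b.e_q1]
    have : (q - qa e κ z) * (q + qa e κ z) ≤ th * 2 := by
      apply mul_le_mul (by linarith) (by linarith) (by linarith) (by linarith)
    nlinarith
  have := mul_le_mul_of_nonneg_right h4 (inv_pos.2 hW).le
  linarith

/-- mode GS: `-log qa ≤ r * rhi` -/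
theorem gR_GS {e κ : ℝ} (he : 0 < e) (hκ : 0 < κ) {z : ℂ} (hz : 0 < z.re) {q th cc hh : ℝ}
    (b : GE q th cc hh) (Q : QB e κ z q th) (hcc : cc ≤ Real.cos (e * (Qk κ z).arg))
    (hh1 : h1 κ z = hh) (ho2 : 0 < b.o2) (hW : 0 < b.W) {r rhi x2 G g : ℝ}
    (hr0 : 0 ≤ r * rhi) (hr : Real.exp (-(r * rhi)) ≤ qa e κ z)
    (e_x2 : x2 = 2 * (r * rhi)) (e_G : G = rhi * (1 - x2 * ((1 / 2) - (2731 / 16384) * x2)) * b.W⁻¹)
    (e_g : g = r * G) : gR e κ z ≤ g := by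
  refine (ge_le he hκ hz b Q hcc hh1 ho2 hW).trans ?_
  have h1 : 1 - qa e κ z ^ 2 ≤ 1 - Real.exp (-x2) := by
    have e1 : Real.exp (-x2) = Real.exp (-(r * rhi)) ^ 2 := by
      rw [← Real.exp_nat_mul, e_x2]; congr 1; push_cast; ring
    rw [e1]
    have := pow_le_pow_left₀ (Real.exp_pos _).le hr 2
    linarith
  have hx0 : 0 ≤ x2 := by rw [e_x2]; linarith
  have h3 := one_sub_exp_le hx0
  have h4 := mul_le_mul_of_nonneg_right (h1.trans h3) (inv_pos.2 hW).le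
  have e2 : g = (1 / 2) * (x2 * (1 - x2 * ((1 / 2) - (2731 / 16384) * x2)) * b.W⁻¹) := by
    rw [e_g, e_G]
    linear_combination (-(1 / 2) * (1 - x2 * ((1 / 2) - (2731 / 16384) * x2)) * b.W⁻¹) * e_x2
  rw [e2]
  linarith

/-- mode GC, without the cosine -/
theorem gR_GC {e κ : ℝ} (he : 0 < e) (hκ : 0 < κ) {z : ℂ} (hz : 0 < z.re) {q hh : ℝ}
    (hq : qa e κ z ≤ q) (hh1 : h1 κ z = hh) (hlt : 0 < 1 - q * (hh + 1)) {g : ℝ}
    (hg : g = (1 / 2) * ((q + 1) * (1 - q * (hh + 1))⁻¹)) : gR e κ z ≤ g := by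
  have hqa0 : 0 ≤ qa e κ z := qa_nonneg z
  have hh0 : 0 ≤ hh := by rw [← hh1]; exact h1_nonneg hκ hz
  obtain ⟨p, hp⟩ : ∃ p, p = qa e κ z := ⟨_, rfl⟩
  rw [← hp] at hq hqa0
  have ho : 1 - p ≤ oo e κ z := by
    have h1 := norm_sub_norm_le (1 : ℂ) (-(Qk κ z ^ (-(e : ℂ))))
    rw [norm_one, norm_neg, sub_neg_eq_add] at h1
    rw [hp]
    exact h1
  obtain ⟨o, ho'⟩ : ∃ o, o = oo e κ z := ⟨_, rfl⟩
  rw [← ho'] at ho
  have hq0 : 0 ≤ q := hqa0.trans hq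
  have h2 : 0 < 1 - p * (hh + 1) := by
    have := mul_le_mul_of_nonneg_right hq (by linarith : 0 ≤ hh + 1)
    linarith
  have hp1 : 0 < 1 - p := by nlinarith
  have ho0 : 0 < o := by linarith
  have h3 : p * hh < o := by linarith
  have hH := (H2 he hκ hz (by rw [← hp, hh1, ← ho']; exact h3)).1
  rw [← hp, hh1, ← ho'] at hH
  refine hH.trans ?_
  have h4 : 0 < o - p * hh := by linarith
  rw [div_le_iff₀ (by positivity), hg]
  -- (1-p²) ≤ (1/2)(q+1)/(1-q(hh+1)) * 2 o (o - p hh)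
  have h5 : (1 - p) * (1 - p * (hh + 1)) ≤ o * (o - p * hh) := by
    apply mul_le_mul ho (by linarith) h2.le ho0.le
  have h6 : (1 + p) * (1 - q * (hh + 1)) ≤ (q + 1) * (1 - p * (hh + 1)) := by
    nlinarith [mul_le_mul_of_nonneg_right hq (by linarith : 0 ≤ hh + 1)]
  have h7 : (1 + p) ≤ (q + 1) * (1 - q * (hh + 1))⁻¹ * (1 - p * (hh + 1)) := by
    have h8 := mul_le_mul_of_nonneg_right h6 (inv_pos.2 hlt).le
    have h9 : (1 - q * (hh + 1)) * (1 - q * (hh + 1))⁻¹ = 1 := mul_inv_cancel₀ hlt.ne'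
    have e1 : (1 + p) * (1 - q * (hh + 1)) * (1 - q * (hh + 1))⁻¹ = 1 + p := by
      rw [mul_assoc, h9, mul_one]
    rw [e1] at h8
    linarith
  have h10 : 0 ≤ (q + 1) * (1 - q * (hh + 1))⁻¹ := by positivity
  calc 1 - p ^ 2 = (1 + p) * (1 - p) := by ring
    _ ≤ (q + 1) * (1 - q * (hh + 1))⁻¹ * (1 - p * (hh + 1)) * (1 - p) :=
        mul_le_mul_of_nonneg_right h7 hp1.le
    _ = (q + 1) * (1 - q * (hh + 1))⁻¹ * ((1 - p) * (1 - p * (hh + 1))) := by ring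
    _ ≤ (q + 1) * (1 - q * (hh + 1))⁻¹ * (o * (o - p * hh)) := mul_le_mul_of_nonneg_left h5 h10
    _ = _ := by ring

/-- `γ` from `g` -/
theorem gam_g {e κ : ℝ} (he : 0 < e) (hκ : 0 < κ) {z : ℂ} (hz : 0 < z.re) {g ga : ℝ}
    (hg : gR e κ z ≤ g) (e_ga : ga = g * (g + (1 / 2))⁻¹) : gam e κ z ≤ ga := by
  have := gam_of he hκ hz hg
  rw [e_ga, ← div_eq_mul_inv, add_comm g]
  exact this

/-- `γ` from `G`, mode GS -/
theorem gam_GS {e κ : ℝ} (he : 0 < e) (hκ : 0 < κ) {z : ℂ} (hz : 0 < z.re) {r G g gar ga : ℝ}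
    (hg : gR e κ z ≤ g) (e_g : g = r * G) (e_gar : gar = G * (g + (1 / 2))⁻¹) (e_ga : ga = r * gar) :
    gam e κ z ≤ ga := by
  refine gam_g he hκ hz hg ?_
  rw [e_ga, e_gar]
  nth_rewrite 2 [e_g]
  ring

/-- lower bound of the cosine, mode p -/
theorem cc_p {α x cc : ℝ} (hx : α ^ 2 ≤ x)
    (h : cc = 1 - x * ((1 / 2) - x * ((21845 / 524288) - (11651 / 8388608) * x))) :
    cc ≤ Real.cos α := by rw [h]; exact Pool.Agent.helper71.FF.cos_ge_cc hx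

/-- mode m -/
theorem cc_m {α cc : ℝ} (h : cc = -1) : cc ≤ Real.cos α := by rw [h]; exact Real.neg_one_le_cos α

/-- mode q -/
theorem cc_q {α x cc : ℝ} (hx : α ^ 2 ≤ x) (h : cc = Tlo x) (hxq : 0 < (1263 / 128) - x) :
    cc ≤ Real.cos α := by rw [h]; exact cosB_q hx (by linarith)

/-- the square of the argument: lower bound -/
theorem arg_lo {e : ℝ} {z : ℂ} (hz : 0 < z.re) {x eps xe xl : ℝ} (he : e * eps = 1)
    (hx : e ^ 2 * (z.im / z.re) ^ 2 = x) (e_xe : xe = x * eps * eps)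
    (e_xl : xl = x * (1 - (2731 / 4096) * xe)) : xl ≤ (e * z.arg) ^ 2 := by
  have h1 := arg_sq_ge hz
  obtain ⟨a, ha⟩ : ∃ a : ℝ, a = (z.im / z.re) ^ 2 := ⟨_, rfl⟩
  rw [← ha] at h1 hx
  have ha0 : 0 ≤ a := by rw [ha]; positivity
  have h2 : xe = a := by
    rw [e_xe, ← hx]
    linear_combination (a * (e * eps + 1)) * he
  rw [e_xl, h2, ← hx, mul_pow]
  have h3 := mul_le_mul_of_nonneg_left h1 (sq_nonneg e)
  have h4 : 0 ≤ e ^ 2 * a ^ 2 := by positivity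
  nlinarith

/-- mode t -/
theorem cc_t {e : ℝ} {z : ℂ} (hz : 0 < z.re) {x eps xe xl cc : ℝ} (he : e * eps = 1)
    (hx : e ^ 2 * (z.im / z.re) ^ 2 = x) (e_xe : xe = x * eps * eps)
    (e_xl : xl = x * (1 - (2731 / 4096) * xe)) (hxl : 0 < xl - (2527 / 256)) (hx39 : 0 < 39 - x)
    (h : cc = Tlo xl) : cc ≤ Real.cos (e * z.arg) := by
  have h1 := arg_lo hz he hx e_xe e_xl
  have h2 : (e * z.arg) ^ 2 ≤ x := by
    have := mul_le_mul_of_nonneg_left (Pool.Agent.helper71.FF.arg_sq_le hz) (sq_nonneg e)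
    rw [← hx, mul_pow]
    exact this
  rw [h]
  exact cosB_t h1 (by linarith) (by linarith)

/-- the sharp bound of `|1 + Q^(-e)|` -/
theorem oo_sharp8 {e κ : ℝ} (hκ : 0 < κ) {z : ℂ} (hz : 0 < z.re) {q th : ℝ}
    (Q : QB e κ z q th) (hre : 0 < (Qk κ z).re) {x eps cu xe o2u ooo : ℝ} (he : e * eps = 1)
    (hx : e ^ 2 * ((Qk κ z).im / (Qk κ z).re) ^ 2 = x) (e_cu : cu = Tup x) (e_xe : xe = x * eps)
    (e_o2u : o2u = q * q + 1 + 2 * (q * (cu + (43 / 128) * (xe * xe))) + 2 * th)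
    (e_oo : ooo = Real.exp ((1 / 2) * Real.log (o2u + (1 / 128)))) : oo e κ z ≤ ooo := by
  have hO := Pool.Agent.helper71.FF.oo_sq (e := e) hκ hz
  obtain ⟨φ, hφ⟩ : ∃ φ, φ = e * (Qk κ z).arg := ⟨_, rfl⟩
  rw [← hφ] at hO
  have h1 := arg_sq_ge hre
  have h1' := Pool.Agent.helper71.FF.arg_sq_le hre
  obtain ⟨a, ha⟩ : ∃ a, a = ((Qk κ z).im / (Qk κ z).re) ^ 2 := ⟨_, rfl⟩
  rw [← ha] at h1 h1' hx
  have e2 : φ ^ 2 = e ^ 2 * (Qk κ z).arg ^ 2 := by rw [hφ]; ring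
  have hxφ : φ ^ 2 ≤ x := by
    rw [e2, ← hx]; exact mul_le_mul_of_nonneg_left h1' (sq_nonneg e)
  have h3 : x - φ ^ 2 ≤ 2 / 3 * (xe * xe) := by
    have e1 : xe = a * e := by rw [e_xe, ← hx]; linear_combination (a * e) * he
    have h4 := mul_le_mul_of_nonneg_left h1 (sq_nonneg e)
    rw [e1, e2, ← hx]
    nlinarith
  have h4 : Real.cos φ ≤ cu + (43 / 128) * (xe * xe) := by
    have h5 := cos_le_up hxφ
    have h8 : 0 ≤ xe * xe := mul_self_nonneg xe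
    rw [e_cu]
    linarith
  have hqa0 : 0 ≤ qa e κ z := qa_nonneg z
  have hq0 : 0 ≤ q := hqa0.trans Q.le
  have h5 : oo e κ z ^ 2 ≤ o2u := by
    rw [hO, e_o2u]
    have k1 : qa e κ z ^ 2 ≤ q * q := by
      have := pow_le_pow_left₀ hqa0 Q.le 2
      nlinarith
    have k2 : qa e κ z * Real.cos φ ≤ q * Real.cos φ + th := by
      have hc := Real.neg_one_le_cos φ
      have h6 := Q.le
      have h7 := Q.er
      nlinarith [mul_nonneg (by linarith : 0 ≤ q - qa e κ z) (by linarith : 0 ≤ Real.cos φ + 1)]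
    have := mul_le_mul_of_nonneg_left h4 hq0
    linarith
  have hoo : 0 ≤ oo e κ z := norm_nonneg _
  have h6 : 0 < o2u + (1 / 128) := by nlinarith [sq_nonneg (oo e κ z)]
  rw [e_oo]
  have h7 : Real.exp ((1 / 2) * Real.log (o2u + (1 / 128))) ^ 2 = o2u + (1 / 128) := by
    rw [← Real.exp_nat_mul]
    have : ((2 : ℕ) : ℝ) * ((1 / 2) * Real.log (o2u + (1 / 128))) =
        Real.log (o2u + (1 / 128)) := by push_cast; ring
    rw [this, Real.exp_log h6]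
  have h8 := Real.exp_pos ((1 / 2) * Real.log (o2u + (1 / 128)))
  by_contra hc
  push Not at hc
  have h9 : Real.exp ((1 / 2) * Real.log (o2u + (1 / 128))) ^ 2 < oo e κ z ^ 2 :=
    pow_lt_pow_left₀ hc h8.le (by norm_num)
  rw [h7] at h9
  linarith

/-- the sharp bound of `|1 + qq|`, `eqx` bounds `|f'/f - 1|` -/
theorem n1_sharp8 {e κ : ℝ} (he : 0 < e) (hκ : 0 < κ) {z : ℂ} (hz : 0 < z.re) {q ooo eqx : ℝ}
    (hq : qa e κ z ≤ q) (h : oo e κ z ≤ ooo)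
    (hh : ‖fT e κ (shf κ z) / fT e κ z - 1‖ ≤ eqx) : ‖1 + qq e κ z‖ ≤ ooo + q * eqx := by
  have h2 : 1 + qq e κ z = (1 + Qk κ z ^ (-(e : ℂ))) +
      Qk κ z ^ (-(e : ℂ)) * (fT e κ (shf κ z) / fT e κ z - 1) := by
    rw [qq_eq he hκ hz]; ring
  rw [h2]
  refine (norm_add_le _ _).trans ?_
  rw [norm_mul]
  have h4 : qa e κ z * ‖fT e κ (shf κ z) / fT e κ z - 1‖ ≤ q * eqx :=
    mul_le_mul hq hh (norm_nonneg _) ((qa_nonneg z).trans hq)
  have h5 : ‖1 + Qk κ z ^ (-(e : ℂ))‖ ≤ ooo := h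
  have h6 : ‖Qk κ z ^ (-(e : ℂ))‖ = qa e κ z := rfl
  rw [h6]
  linarith

/-- the bound of `qq`, `eqx` bounds `|f'/f - 1|` -/
theorem qq_le8 {e κ : ℝ} (he : 0 < e) (hκ : 0 < κ) {z : ℂ} (hz : 0 < z.re) {q eqx : ℝ}
    (hq : qa e κ z ≤ q) (hh : ‖fT e κ (shf κ z) / fT e κ z - 1‖ ≤ eqx) :
    ‖qq e κ z‖ ≤ q * (eqx + 1) := by
  rw [qq_eq he hκ hz, norm_mul]
  have h6 : ‖Qk κ z ^ (-(e : ℂ))‖ = qa e κ z := rfl
  rw [h6]
  have h1 : ‖fT e κ (shf κ z) / fT e κ z‖ ≤ eqx + 1 := by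
    have h2 := norm_add_le (fT e κ (shf κ z) / fT e κ z - 1) 1
    rw [sub_add_cancel, norm_one] at h2
    linarith
  exact mul_le_mul hq h1 (norm_nonneg _) ((qa_nonneg z).trans hq)

end Pool.Agent.helper71.FJ
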