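import Pool.Agent.helper71.FJ.Spl
import Pool.Agent.helper71.FG.Dm

/-!
# Far field data from the conditions per point
-/

namespace Pool.Agent.helper71.FJ

open Complex ComplexConjugate Pool.Agent.helper31.EQ.Y Pool.Agent.helper31.EQ.R
open Pool.Agent.helper12.EQL Pool.Agent.helper12.RP Pool.Agent.helper12.FF Pool.Agent.helper63.FF
open Pool.Agent.helper71.FG (PtE RE RE_open RE_conj)

/-- Far field data from the conditions per point. -/
noncomputable def farn {e κ bw A R0 : ℝ} (hκ : 0 < κ) (hbw : 0 < bw) (hA : 0 < A)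
    (hR0 : 0 < R0) (hR1 : R0 ≤ Real.exp (-(2 * κ * (49 / 10))))
    (hpt : ∀ (τ : ℂ) (R w : ℝ), PtE bw e κ τ R w → FarPt e κ (1 - Real.sinh κ / 1024) w
      (2 * A * Real.sinh κ ^ 2) R (RE e κ (w * R)) τ) : FarN e κ (1 - Real.sinh κ / 1024) :=
  have hm : 1 < Real.exp κ := Real.one_lt_exp_iff.2 hκ
  have hK : 0 < Real.sinh κ := Real.sinh_pos_iff.2 hκ
  have hR2 : Real.exp (2 * κ) * Real.exp (-(2 * κ * (49 / 10))) < 1 := by
    rw [← Real.exp_add, Real.exp_lt_one_iff]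
    linarith
  have hR3 : Real.exp (2 * κ) * R0 < 1 :=
    (mul_le_mul_of_nonneg_left hR1 (Real.exp_pos _).le).trans_lt hR2
  have hw : 1 < 1 + (2 * bw) * (Real.exp κ - 1) := by
    have : 0 < (2 * bw) * (Real.exp κ - 1) := mul_pos (by linarith) (by linarith)
    linarith
  farN_ofR (w := (1 + (2 * bw) * (Real.exp κ - 1))⁻¹) (B := 2 * A * Real.sinh κ ^ 2)
    (R0 := R0) (E := RE e κ) hκ
    (inv_pos.2 (by linarith)) (inv_lt_one_of_one_lt₀ hw) (by positivity)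
    hR0 hR3 (RE_open e κ _) (RE_conj e κ _)
    (fun R hR hR0' τ hτ => hpt τ R _
      ⟨hbw, hR, hR0'.trans hR1, (mul_le_mul_of_nonneg_left hR0' (Real.exp_pos _).le).trans_lt hR3,
        hτ.1, rfl, hτ.2⟩)

theorem farn_Ω {e κ bw A R0 : ℝ} (hκ : 0 < κ) (hbw : 0 < bw) (hA : 0 < A)
    (hR0 : 0 < R0) (hR1 : R0 ≤ Real.exp (-(2 * κ * (49 / 10))))
    (hpt : ∀ (τ : ℂ) (R w : ℝ), PtE bw e κ τ R w → FarPt e κ (1 - Real.sinh κ / 1024) w
      (2 * A * Real.sinh κ ^ 2) R (RE e κ (w * R)) τ) :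
    (farn hκ hbw hA hR0 hR1 hpt).Ω 0 = OmR κ R0 (RE e κ R0) := by
  change OmR κ (_ ^ 0 * _) (RE e κ (_ ^ 0 * _)) = _
  rw [pow_zero, one_mul]

theorem farn_X {e κ bw A R0 : ℝ} (hκ : 0 < κ) (hbw : 0 < bw) (hA : 0 < A)
    (hR0 : 0 < R0) (hR1 : R0 ≤ Real.exp (-(2 * κ * (49 / 10))))
    (hpt : ∀ (τ : ℂ) (R w : ℝ), PtE bw e κ τ R w → FarPt e κ (1 - Real.sinh κ / 1024) w
      (2 * A * Real.sinh κ ^ 2) R (RE e κ (w * R)) τ) :
    (farn hκ hbw hA hR0 hR1 hpt).X 0 = Xr κ (2 * A * Real.sinh κ ^ 2) R0 := by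
  change Xr κ _ (_ ^ 0 * _) = _
  rw [pow_zero, one_mul]

/-- the size of `1/√e` -/
theorem de_ex {e : ℝ} (he : 0 < e) : ∃ de : ℝ, 0 < de ∧ e * (de * de) = 1 := by
  refine ⟨(√e)⁻¹, inv_pos.2 (Real.sqrt_pos.2 he), ?_⟩
  rw [← mul_inv, Real.mul_self_sqrt he.le, mul_inv_cancel₀ he.ne']

theorem de_hi {e de E c : ℝ} (hee : e * (de * de) = 1) (hE : E ≤ e) (hc0 : 0 < c) (hde0 : 0 < de)
    (hc : 1 ≤ E * (c * c)) : de ≤ c := by
  by_contra h
  push Not at h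
  have h1 : c * c < de * de := mul_self_lt_mul_self hc0.le h
  have hE0 : 0 < E := by
    by_contra hh
    push Not at hh
    have := mul_nonpos_of_nonpos_of_nonneg hh (by positivity : 0 ≤ c * c)
    linarith
  have h2 : E * (de * de) ≤ e * (de * de) := mul_le_mul_of_nonneg_right hE (by positivity)
  have h3 : E * (c * c) < E * (de * de) := mul_lt_mul_of_pos_left h1 hE0
  linarith

theorem de_lo {e de E c : ℝ} (hee : e * (de * de) = 1) (hE : e ≤ E) (hde0 : 0 < de)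
    (hc : E * (c * c) ≤ 1) (he : 0 < e) : c ≤ de := by
  by_contra h
  push Not at h
  have h1 : de * de < c * c := mul_self_lt_mul_self hde0.le h
  have h2 : e * (c * c) ≤ E * (c * c) := mul_le_mul_of_nonneg_right hE (mul_self_nonneg c)
  have h3 : e * (de * de) < e * (c * c) := mul_lt_mul_of_pos_left h1 he
  linarith

end Pool.Agent.helper71.FJ
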