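import Pool.Agent.helper71.FJ.DomK

/-!
# Far field programs in scaled variables: glue for the application theorems
-/

namespace Pool.Agent.helper71.FJ

open Complex ComplexConjugate Pool.Agent.helper31.EQ.Y Pool.Agent.helper31.EQ.R
open Pool.Agent.helper12.EQL Pool.Agent.helper12.RP Pool.Agent.helper12.FF Pool.Agent.helper63.FF
open Pool.Agent.helper71.FF (B1 B2 B3 Geo PhiB shf_re' log_kz' exB1 exB2 AL A5)
open Pool.Agent.helper71.FG (Nx PtE RE AQ gam_le_one)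

variable {κ : ℝ} {s : ℂ} {v : B1} {eps al S r tr us : ℝ}

/-! ### the argument -/

theorem Qre0 (G : Geo κ s v) : 0 < (Qk κ s).re := by
  rw [G.Qre]
  have := G.cgt
  have := G.R0
  linarith

theorem Qre0' (G : Geo κ s v) : 0 < (Qk κ (shf κ s)).re := by
  have h1 : (Qk κ (shf κ s)).re = Real.cosh κ + Real.sinh κ * (shf κ s).re := by
    unfold Qk
    rw [add_re, ofReal_re, re_ofReal_mul]
  rw [h1]
  have h2 := shf_re' G.κ0 G.s0
  have h3 := Real.cosh_pos κ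
  have h4 := Real.sinh_pos_iff.2 G.κ0
  positivity

theorem x_v (G : Geo κ s v) (v5 : V5 v) (c : Sc v eps al S r tr us) {w x : ℝ}
    (e_w : w = al * (S * (v.c0 + v.R))⁻¹) (e_x : x = w * w * v5.sn) : x = v.x := by
  have hS := c.S0
  have hc := G.cgt
  have hR := G.R0
  rw [e_x, e_w, v5.e_sn, v.e_x, v.e_w, c.al', v.e_tu2]
  field_simp

theorem x_eq (G : Geo κ s v) (v5 : V5 v) (c : Sc v eps al S r tr us) {w x : ℝ}
    (e_w : w = al * (S * (v.c0 + v.R))⁻¹) (e_x : x = w * w * v5.sn) :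
    v.e ^ 2 * ((Qk κ s).im / (Qk κ s).re) ^ 2 = x := by
  rw [x_v G v5 c e_w e_x, G.Qre, G.Qim, div_pow, G.im, v.e_x, v.e_w]
  have h3 : v.c0 + v.R ≠ 0 := by rw [← G.Qre]; exact (Qre0 G).ne'
  field_simp

theorem arg_x (G : Geo κ s v) (v5 : V5 v) (c : Sc v eps al S r tr us) {w x : ℝ}
    (e_w : w = al * (S * (v.c0 + v.R))⁻¹) (e_x : x = w * w * v5.sn) :
    (v.e * (Qk κ s).arg) ^ 2 ≤ x := by
  rw [x_v G v5 c e_w e_x]; exact G.argx

theorem arg_xp (G : Geo κ s v) (v3 : B3 v) (v5 : V5 v) (c : Sc v eps al S r tr us) {w x xp : ℝ}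
    (e_w : w = al * (S * (v.c0 + v.R))⁻¹) (e_x : x = w * w * v5.sn) (e_xp : xp = x * v.SQ⁻¹) :
    (v.e * (Qk κ (shf κ s)).arg) ^ 2 ≤ xp := by
  rw [e_xp, x_v G v5 c e_w e_x, ← v3.e_xp]
  exact G.argx' v3

theorem xp_eq (G : Geo κ s v) (v5 : V5 v) (c : Sc v eps al S r tr us) {wp xp : ℝ}
    (e_wp : wp = al * (S * v5.Qr)⁻¹) (e_xp : xp = wp * wp * v5.sn) :
    v.e ^ 2 * ((Qk κ (shf κ s)).im / (Qk κ (shf κ s)).re) ^ 2 = xp := by
  have hS := c.S0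
  have hSQ := G.SQ1
  have hc := G.cgt
  have hR := G.R0
  have hrh := G.rhat1
  have hQi := G.Qim'
  have hR1 : (Qk κ (shf κ s)).re = v.c0 + v5.R1 := by
    have h1 : (Qk κ (shf κ s)).re = Real.cosh κ + Real.sinh κ * (shf κ s).re := by
      unfold Qk
      rw [add_re, ofReal_re, re_ofReal_mul]
    rw [h1, G.c0, v5.e_R1]
    have h2 := G.re'
    have h3 : v.SQ * v.SQ⁻¹ = 1 := mul_inv_cancel₀ (by linarith)
    linear_combination v.SQ⁻¹ * h2 - (Real.sinh κ * (shf κ s).re) * h3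
  have e1 : (Qk κ (shf κ s)).im / (Qk κ (shf κ s)).re = Real.sinh κ * s.im / v5.Qr := by
    rw [v5.e_Qr, ← hR1, ← hQi, mul_comm v.SQ, mul_div_mul_right _ _ (by linarith)]
  have hQpos : 0 < v5.Qr := by
    rw [v5.e_Qr, ← hR1]
    have h1 : 0 < v.SQ := by linarith
    have h2 := Qre0' G
    positivity
  rw [e1, div_pow, G.im, e_xp, e_wp, c.al', v5.e_sn, v.e_tu2]
  field_simp

theorem arg_xt (G : Geo κ s v) (v5 : V5 v) (c : Sc v eps al S r tr us) {wp xp : ℝ}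
    (e_wp : wp = al * (S * v5.Qr)⁻¹) (e_xp : xp = wp * wp * v5.sn) :
    (v.e * (Qk κ (shf κ s)).arg) ^ 2 ≤ xp := by
  rw [← xp_eq G v5 c e_wp e_xp, mul_pow]
  exact mul_le_mul_of_nonneg_left (Pool.Agent.helper71.FF.arg_sq_le (Qre0' G)) (sq_nonneg _)

/-! ### `γ`, at the point and at the next point -/

theorem qa_rhi (G : Geo κ s v) {rlo rhi rplo rphi : ℝ} (f : RtF v r rlo rhi rplo rphi) :
    0 ≤ r * rhi ∧ Real.exp (-(r * rhi)) ≤ qa v.e κ s := by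
  refine ⟨?_, ?_⟩
  · have h1 := f.hi
    have h2 := G.rho0
    linarith
  · rw [G.q_eq, v.e_q]
    apply Real.exp_le_exp.2
    have := f.hi
    linarith

theorem qa_rphi (G : Geo κ s v) {rlo rhi rplo rphi : ℝ} (f : RtF v r rlo rhi rplo rphi) :
    0 ≤ r * rphi ∧ Real.exp (-(r * rphi)) ≤ qa v.e κ (shf κ s) := by
  refine ⟨?_, ?_⟩
  · have h1 := f.phi
    have h2 := (Pool.Agent.helper71.FF.Geo.qp_lt G).2
    linarith
  · rw [G.q_eq', v.e_qp]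
    apply Real.exp_le_exp.2
    have := f.phi
    linarith

/-- the upper bound of `qa` in the chart `Mc` -/
theorem qb_c (G : Geo κ s v) {ri q rlo rhi rplo rphi : ℝ} (f : RtF v r rlo rhi rplo rphi)
    (hri : r * ri = 1) (e_q : q = ri * ri * (ri * ri + ri * rlo + (1 / 2) * (rlo * rlo))⁻¹) :
    qa v.e κ s ≤ q := by
  refine le_trans ?_ (exp_quad hri f.r0 f.rlo0.le e_q)
  rw [G.q_eq, v.e_q]
  apply Real.exp_le_exp.2
  have := f.lo
  linarith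

theorem qb_cp (G : Geo κ s v) {ri q rlo rhi rplo rphi : ℝ} (f : RtF v r rlo rhi rplo rphi)
    (hri : r * ri = 1) (hp : 0 < rplo)
    (e_q : q = ri * ri * (ri * ri + ri * rplo + (1 / 2) * (rplo * rplo))⁻¹) :
    qa v.e κ (shf κ s) ≤ q := by
  refine le_trans ?_ (exp_quad hri f.r0 hp.le e_q)
  rw [G.q_eq', v.e_qp]
  apply Real.exp_le_exp.2
  have := f.plo
  linarith

/-! ### the front part -/

/-- what is known of `f` at the point -/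
structure Fr (κ : ℝ) (s : ℂ) (v : B1) (al Qb Q1 ls lsx : ℝ) : Prop where
  e_ls : ls = v.om1 * v.t * (al * lsx)
  lsx0 : 0 ≤ lsx
  l : ‖log (fT v.e κ s) - log (fT v.e κ (shf κ s))‖ ≤ ls
  nq : ‖qq v.e κ s‖ ≤ Qb
  Qb0 : 0 < Qb
  n1 : ‖1 + qq v.e κ s‖ ≤ Q1

/-- the ratio `f'/f` -/
theorem hg_le (G : Geo κ s v) {ga hg : ℝ} (hγ : gam v.e κ s ≤ ga) (e_hg : hg = v.h1 * ga) :
    ‖fT v.e κ (shf κ s) / fT v.e κ s - 1‖ ≤ hg := by
  have h1 := H3 G.e0 G.κ0 G.s0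
  rw [G.h1_eq] at h1
  rw [e_hg]
  exact h1.trans (mul_le_mul_of_nonneg_left hγ G.h1_0)

theorem fr_g (G : Geo κ s v) {ga hg lsf q Qb Q1 ls lsx : ℝ} (hγ : gam v.e κ s ≤ ga)
    (hq : qa v.e κ s ≤ q) (hq0 : 0 < q) (e_hg : hg = v.h1 * ga)
    (e_lsf : lsf = (1 - (1 / 2) * hg) * (1 - hg)⁻¹)
    (a_hg : 0 < 1 - hg) (e_Qb : Qb = q * (hg + 1)) (e_ls : ls = hg * lsf) (hal : 0 < al)
    (hlsx : al * lsx = v.h1t * lsf * ga) (hn1 : ‖1 + qq v.e κ s‖ ≤ Q1) :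
    Fr κ s v al Qb Q1 ls lsx := by
  have he := G.e0
  have hκ := G.κ0
  have hs := G.s0
  have hγ0 := gam_nonneg he hκ hs
  have hga0 : 0 ≤ ga := hγ0.trans hγ
  have hh1 := G.h1_0
  have hhg0 : 0 ≤ hg := by rw [e_hg]; positivity
  have hlsf0 : 0 < lsf := by
    rw [e_lsf]
    have h1 : 0 < 1 - (1 / 2) * hg := by linarith
    positivity
  have hhγ0 : 0 ≤ v.h1 * gam v.e κ s := by positivity
  have hhγ : v.h1 * gam v.e κ s ≤ hg := by rw [e_hg]; exact mul_le_mul_of_nonneg_left hγ hh1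
  have hh1t : 0 ≤ v.h1t := by
    rw [v.e_h1t, v.e_ioK]
    have := G.cgt
    have := G.K0
    have := G.om0
    have := G.op0
    positivity
  refine ⟨?_, ?_, ?_, ?_, ?_, hn1⟩
  · rw [e_ls, hlsx, e_hg, v.e_h1]; ring
  · have h1 : 0 ≤ al * lsx := by rw [hlsx]; positivity
    exact nonneg_of_mul_nonneg_right h1 hal
  · have h1 := ls_le he hκ hs (c := v.h1 * gam v.e κ s) (by rw [G.h1_eq]) (by linarith)
    have h2 := log_kz' hhγ0 hhγ (by linarith)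
    rw [← e_lsf] at h2
    rw [e_ls]
    exact h1.trans (h2.trans (mul_le_mul_of_nonneg_right hhγ hlsf0.le))
  · rw [e_Qb]
    exact qq_le8 he hκ hs hq (hg_le G hγ e_hg)
  · rw [e_Qb]; positivity

/-- the front part with the closed bound -/
theorem fr_K (G : Geo κ s v) {q Qb Q1 ls lsx eqx : ℝ}
    (hl : ‖log (fT v.e κ s) - log (fT v.e κ (shf κ s))‖ ≤ ls) (hlsx0 : 0 ≤ lsx)
    (hq : qa v.e κ s ≤ q) (hq0 : 0 < q) (e_ls : ls = v.om1 * (v.t * lsx))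
    (a_ls : 0 < (5 / 8) * 1 - ls)
    (e_eqx : eqx = ls * (1 + ls * ((1 / 2) + (13 / 64) * ls))) (e_Qb : Qb = q * (eqx + 1))
    (hn1 : ‖1 + qq v.e κ s‖ ≤ Q1) : Fr κ s v 1 Qb Q1 ls lsx := by
  have he := G.e0
  have hκ := G.κ0
  have hs := G.s0
  have hls0 : 0 ≤ ls := (norm_nonneg _).trans hl
  have heq0 : 0 ≤ eqx := by rw [e_eqx]; positivity
  refine ⟨by rw [e_ls]; ring, hlsx0, hl, ?_, by rw [e_Qb]; positivity, hn1⟩
  rw [e_Qb]
  exact qq_le8 he hκ hs hq (ratio_le he hκ hs hl a_ls e_eqx)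

/-- the crude bound of `1 + qq` -/
theorem n1_one (G : Geo κ s v) {q hg ga Qb Q1 : ℝ} (hγ : gam v.e κ s ≤ ga) (hq : qa v.e κ s ≤ q)
    (e_hg : hg = v.h1 * ga) (e_Qb : Qb = q * (hg + 1)) (e_Q1 : Q1 = Qb + 1) :
    ‖1 + qq v.e κ s‖ ≤ Q1 := by
  rw [e_Q1, add_comm Qb, e_Qb]
  exact n1_le (qq_le8 G.e0 G.κ0 G.s0 hq (hg_le G hγ e_hg))

/-! ### closing -/

/-- closing in powers of `lam` -/
theorem far_Cl {τ : ℂ} {v : B1} {v2 : B2 v} (G : Geo κ (shf κ τ) v)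
    {bw A eps al S G4 r tr us Qb Q1 ls lsx phux Ei Eh gap gu srcs R w : ℝ}
    (D : PtE bw v.e κ τ R w)
    (c : Sc v eps al S r tr us) (hA0 : 0 < A) (hA : A * G4 = v.e * S)
    {x : Ka v2 eps al S G4 Qb Q1 ls lsx phux Ei Eh} {y : Kb bw x tr gap gu srcs}
    (a : As8 x y) (fr : Fr κ (shf κ τ) v al Qb Q1 ls lsx) (hgu : al * gu = gap * S)
    (hγ : gam v.e κ (shf κ (shf κ τ)) ≤ gap)
    {lf Ex : ℝ} (hφ : PhiB κ (shf κ τ) v v2 (v.e * v.t * S * phux) Ei Eh lf Ex)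
    {v5 : V5 v} {v3 : B3 v} {rlo rhi rplo rphi hgp : ℝ} (k : Pk v5 rplo v3.hp hgp gu y.yy)
    (f : RtF v r rlo rhi rplo rphi) (a_rp : 0 < rplo) (e_hgp : hgp = v3.hp * gap)
    (a_hgp : 0 < (1 / 2) - hgp) (a_l : 0 < 1 - k.lspa) (a_pe : 0 < k.pe) (a_yy : 0 < 1 - y.yy)
    {lam mu y1 srcx : ℝ} (cl : Cl y lam mu y1 srcx)
    (e_sx : srcx = v.om1 * ((1 / 2) * (us * v2.bsum * v.aQ⁻¹)) + x.kl) (e_ss : srcs = v.t * srcx)
    (hlm : lam * mu = v.t) (hlam : 0 < lam) (hy : lam * y1 = r * k.ye)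
    (aB : 0 < cl.Bm - (1 / 1024) * mu) :
    FarPt v.e κ (1 - Real.sinh κ / 1024) w (2 * A * Real.sinh κ ^ 2) R (RE v.e κ (w * R)) τ := by
  have hS := c.S0
  have hgu' : gap = v.e * v.tu * gu := by
    have h1 := c.al'
    have h2 : gap * S = v.e * v.tu * gu * S := by rw [← hgu, h1]; ring
    exact mul_right_cancel₀ hS.ne' h2
  have hpe := sp_pe G k f a_rp.le rfl c.hr hgu' hγ e_hgp a_hgp a_l a_pe
  have hT0 := sp_T G k hpe a_yy
  have hr0 := f.r0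
  have hye : 0 ≤ r * k.ye := by rw [k.e_ye]; positivity
  refine far8 G c hA0 hA a fr.e_ls fr.lsx0 (by rw [e_ss, e_sx]) hgu fr.l fr.nq fr.Qb0 fr.n1 hφ
    (nx_sp G hγ) D (c1 := cl.c1) (rc := lam * cl.rt) (Bm := lam * cl.Bm) ?_ ?_ ?_ ?_
  · intro m q hε hN ae2
    exact Tb_Cl G q D.bw0 cl hlm hy hye (norm_nonneg _) (by rw [q.yy]; exact hT0) hε hN ae2
  · rw [cl.e_rt, cl.e_FXt]
    linear_combination (y.fbt * x.XM + y.CuN * G4 * srcx * v.op1⁻¹ * (v.t * y.XLt)) * hlm -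
      (y.CuN * G4 * v.op1⁻¹ * (v.t * y.XLt)) * e_ss
  · have h1 := cl.e_c1
    rw [cl.e_Bm, cl.e_fm, cl.e_FXt]
    linear_combination h1 - (y.fbt + y.CuN * G4 * srcx * v.op1⁻¹) * hlm +
      (y.CuN * G4 * v.op1⁻¹) * e_ss
  · have h1 : lam * ((1 / 1024) * mu) < lam * cl.Bm :=
      mul_lt_mul_of_pos_left (by linarith) hlam
    have h2 : lam * ((1 / 1024) * mu) = v.t * (1 / 1024) := by rw [← hlm]; ring
    linarith

/-- direct closing -/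
theorem far_Cd {τ : ℂ} {v : B1} {v2 : B2 v} (G : Geo κ (shf κ τ) v)
    {bw A eps al S G4 r tr us tus Qb Q1 ls lsx phux Ei Eh gap gu srcs R w : ℝ}
    (D : PtE bw v.e κ τ R w)
    (c : Sc v eps al S r tr us) (hA0 : 0 < A) (hA : A * G4 = v.e * S)
    {x : Ka v2 eps al S G4 Qb Q1 ls lsx phux Ei Eh} {y : Kb bw x tr gap gu srcs}
    (a : As8 x y) (fr : Fr κ (shf κ τ) v al Qb Q1 ls lsx) (hgu : al * gu = gap * S)
    (hγ : gam v.e κ (shf κ (shf κ τ)) ≤ gap)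
    {lf Ex : ℝ} (hφ : PhiB κ (shf κ τ) v v2 (v.e * v.t * S * phux) Ei Eh lf Ex)
    {v5 : V5 v} {v3 : B3 v} {rlo rhi rplo rphi hgp : ℝ} (k : Pk v5 rplo v3.hp hgp gu y.yy)
    (f : RtF v r rlo rhi rplo rphi) (a_rp : 0 < rplo) (e_hgp : hgp = v3.hp * gap)
    (a_hgp : 0 < (1 / 2) - hgp) (a_l : 0 < 1 - k.lspa) (a_pe : 0 < k.pe) (a_yy : 0 < 1 - y.yy)
    {Ee : ℝ} (cd : Cd y Ee)
    (e_ss : srcs = v.om1 * ((1 / 2) * (tus * v2.bsum * v.aQ⁻¹)) + v.t * x.kl) (htus : tus = v.t * us)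
    (hEe : Real.exp (-(r * k.ye)) ≤ Ee)
    (aB : 0 < cd.Bm - (1 / 1024) * v.t) :
    FarPt v.e κ (1 - Real.sinh κ / 1024) w (2 * A * Real.sinh κ ^ 2) R (RE v.e κ (w * R)) τ := by
  have hS := c.S0
  have hgu' : gap = v.e * v.tu * gu := by
    have h1 := c.al'
    have h2 : gap * S = v.e * v.tu * gu * S := by rw [← hgu, h1]; ring
    exact mul_right_cancel₀ hS.ne' h2
  have hpe := sp_pe G k f a_rp.le rfl c.hr hgu' hγ e_hgp a_hgp a_l a_pe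
  have hT0 := sp_T G k hpe a_yy
  refine far8 G c hA0 hA a fr.e_ls fr.lsx0 (by rw [e_ss, htus]; ring) hgu fr.l fr.nq fr.Qb0 fr.n1 hφ
    (nx_sp G hγ) D (c1 := cd.c1) (rc := cd.r2) (Bm := cd.Bm) ?_ ?_ ?_ ?_
  · intro m q hε hN ae2
    exact Tb_Cd G q D.bw0 cd (by rw [q.yy]; exact hT0.trans hEe) hε hN ae2
  · rw [cd.e_r2, cd.e_fb, cd.e_FX]
  · rw [cd.e_Bm, cd.e_fb, cd.e_FX]; ring
  · linarith

/-! ### the constants -/

theorem hA_Q (G : Geo κ s v) (c : Sc v eps al S r tr us) {G4 : ℝ} (e_G4 : G4 = 4 * S + al * v.nj) :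
    0 < AQ v.e v.K ∧ AQ v.e v.K * G4 = v.e * S := by
  have he := G.e0
  have hK := G.K0
  unfold AQ
  refine ⟨by positivity, ?_⟩
  have h1 : al * v.nj = S * (v.e * v.K) := by rw [c.al', G.Kom, v.e_om, v.e_tu]; ring
  rw [e_G4, h1]
  have : 4 + v.e * v.K ≠ 0 := by positivity
  field_simp

theorem hA_L (G : Geo κ s v) (c : Sc v eps al S r tr us) {G4 : ℝ}
    (e_G4 : G4 = (1 / 2) * (4 * S + al * v.nj)) :
    0 < AL v.e v.K ∧ AL v.e v.K * G4 = v.e * S := by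
  have he := G.e0
  have hK := G.K0
  unfold AL
  refine ⟨by positivity, ?_⟩
  have h1 : al * v.nj = S * (v.e * v.K) := by rw [c.al', G.Kom, v.e_om, v.e_tu]; ring
  rw [e_G4, h1]
  have : 4 + v.e * v.K ≠ 0 := by positivity
  field_simp

theorem hA_X (G : Geo κ s v) (c : Sc v eps al S r tr us) {G4 : ℝ} (e_G4 : G4 = 5 * S) :
    0 < A5 v.e v.K ∧ A5 v.e v.K * G4 = v.e * S := by
  have he := G.e0
  have _ := c
  unfold A5
  refine ⟨by positivity, ?_⟩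
  rw [e_G4]
  field_simp

end Pool.Agent.helper71.FJ
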