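import Pool.Agent.helper71.FJ.Base

/-!
# Far field programs in scaled variables: the meaning of the scaled values
-/

namespace Pool.Agent.helper71.FJ

open Complex ComplexConjugate Pool.Agent.helper31.EQ.Y Pool.Agent.helper31.EQ.R
open Pool.Agent.helper12.EQL Pool.Agent.helper12.RP Pool.Agent.helper12.FF Pool.Agent.helper63.FF
open Pool.Agent.helper71.FF (B1 B2 B3 Geo)
open Pool.Agent.helper71.FG (Mb CC Asr)

variable {κ : ℝ}

/-- the scaling: `al/S = e t u`, `r = e R`, `tr = t r`, `us = u/S` -/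
structure Sc (v : B1) (eps al S r tr us : ℝ) : Prop where
  ee : v.e * eps = 1
  S0 : 0 < S
  hal : al * eps = v.tu * S
  hr : r = v.e * v.R
  htr : tr = v.t * r
  hus : us * S = v.u

theorem Sc.al' {v : B1} {eps al S r tr us : ℝ} (c : Sc v eps al S r tr us) : al = v.e * v.tu * S := by
  have h1 := c.ee
  have h2 := c.hal
  linear_combination (-al) * h1 + v.e * h2

theorem Sc.eps' {v : B1} {eps al S r tr us : ℝ} (c : Sc v eps al S r tr us) (he : 0 < v.e) :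
    v.ei = eps := by
  rw [v.e_ei]
  have h1 := c.ee
  field_simp
  linarith

section

variable {s : ℂ} {v : B1} {v2 : B2 v} {bw A eps al S G4 r tr us Qb Q1 ls lsx phux Ei Eh gap gu srcs : ℝ}

/-- the scaled values and the values of the middle part -/
structure Eqs (x : Ka v2 eps al S G4 Qb Q1 ls lsx phux Ei Eh) (y : Kb bw x tr gap gu srcs)
    (m : Mb bw v2 A Qb Q1 (v.e * v.t * S * lsx) (v.e * v.t * S * phux) Ei Eh) : Prop where
  XM : m.XM = x.XM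
  iX : m.iX = x.iX
  QX : m.QX = x.QX
  iQX : m.iQX = x.iQX
  ls : m.ls = ls
  a0 : m.a0 = x.a0
  l1 : m.l1 = x.l1
  ka : m.ka = x.ka
  kb : m.kb = x.kb
  lfk : m.lfk = x.lfk
  src : m.src = y.src
  fx : m.fx = y.fxe * eps
  eps : m.eps = y.epd
  NN : m.NN = y.NN
  eN : m.eN = y.eN
  d : m.d = y.d
  eta : m.eta = y.eta
  rl : m.rl = y.rl
  irl : m.irl = y.irl
  yy : m.yy = y.yy
  XLt : m.XLt = y.XLt
  b1 : m.b1 = y.b1
  V : m.V = y.V
  Rh : m.Rh = y.Rh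
  Rg : S * S * m.Rg = y.Rg

theorem eqs_of (G : Geo κ s v) (c : Sc v eps al S r tr us) (hA : A * G4 = v.e * S) (hG : 0 < G4)
    (x : Ka v2 eps al S G4 Qb Q1 ls lsx phux Ei Eh) (y : Kb bw x tr gap gu srcs)
    (hls : ls = v.om1 * v.t * (al * lsx))
    (hsrc : srcs = v.t * (v.om1 * ((1 / 2) * (us * v2.bsum * v.aQ⁻¹)) + x.kl))
    (m : Mb bw v2 A Qb Q1 (v.e * v.t * S * lsx) (v.e * v.t * S * phux) Ei Eh) : Eqs x y m := by
  have he := G.e0
  have hal := c.al'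
  have hei := c.eps' he
  have hee := c.ee
  have hS := c.S0
  have hGi : G4 * G4⁻¹ = 1 := mul_inv_cancel₀ hG.ne'
  have hAE : A = v.e * x.AE := by
    rw [x.e_AE, x.e_iG4]
    linear_combination (-A) * hGi + G4⁻¹ * hA
  have e_Xe : m.Xe = v.e * x.XeE := by rw [m.e_Xe, x.e_XeE, hAE]; ring
  have e_XM : m.XM = x.XM := by
    rw [m.e_XM, e_Xe, x.e_XM, x.e_XeE, x.e_alG, x.e_AE]
    linear_combination (-(x.iG4 * v.op1 * v2.lm)) * hal
  have e_iX : m.iX = x.iX := by rw [m.e_iX, x.e_iX, e_XM]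
  have e_QX : m.QX = x.QX := by rw [m.e_QX, x.e_QX, e_XM]
  have e_iQX : m.iQX = x.iQX := by rw [m.e_iQX, x.e_iQX, e_QX]
  have e_N1 : m.N1 = x.N1 := by rw [m.e_N1, x.e_N1]
  have e_s : m.s = x.s := by rw [m.e_s, x.e_s, e_N1]
  have e_k0 : m.k0 = x.k0 := by rw [m.e_k0, x.e_k0, e_s]
  have e_ls : m.ls = ls := by rw [m.e_ls, hls, hal]; ring
  have e_a0 : m.a0 = x.a0 := by rw [m.e_a0, x.e_a0, e_ls, e_XM, e_iX, e_iQX, hei]
  have e_l1 : m.l1 = x.l1 := by rw [m.e_l1, x.e_l1, e_ls, e_XM, e_iX, hei]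
  have e_Na : m.Na = x.Na := by rw [m.e_Na, x.e_Na, e_l1]
  have e_Nb : m.Nb = x.Nb := by rw [m.e_Nb, x.e_Nb, e_a0]
  have e_rn : m.rn = x.rn := by rw [m.e_rn, x.e_rn, e_Nb]
  have e_ka : m.ka = x.ka := by rw [m.e_ka, x.e_ka, e_k0, e_Na, e_rn]
  have e_kb : m.kb = x.kb := by rw [m.e_kb, x.e_kb, e_rn]
  have e_lfk : m.lfk = x.lfk := by rw [m.e_lfk, x.e_lfk]
  have e_kl : v.ei * (m.ka * (v.e * v.t * S * lsx) + m.lfk * (v.e * v.t * S * phux)) =
      v.t * S * x.kl := by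
    rw [x.e_kl, e_ka, e_lfk, hei]
    linear_combination (v.t * S * (x.ka * lsx + x.lfk * phux)) * hee
  have e_src : m.src = y.src := by
    rw [m.e_src, y.e_src, hsrc, m.e_bte, v.e_tu]
    have h1 := c.hus
    linear_combination e_kl - (v.t * v.om1 * (1 / 2) * v2.bsum * v.aQ⁻¹) * h1
  have e_fx : m.fx = y.fxe * eps := by
    rw [m.e_fx, y.e_fxe, e_ka, e_kb, e_iX, e_iQX, hei]
  have e_eps : m.eps = y.epd := by
    rw [m.e_eps, y.e_epd, e_src, e_Xe, e_fx]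
    linear_combination (x.XeE * y.fxe) * hee
  have e_NN : m.NN = y.NN := by rw [m.e_NN, y.e_NN, e_eps]
  have e_eN : m.eN = y.eN := by rw [m.e_eN, y.e_eN, e_eps, e_NN]
  have e_d : m.d = y.d := by rw [m.e_d, y.e_d, e_eN]
  have e_eta : m.eta = y.eta := by rw [m.e_eta, y.e_eta, e_eN]
  have e_rl : m.rl = y.rl := by rw [m.e_rl, y.e_rl, e_eta, e_d]
  have e_irl : m.irl = y.irl := by rw [m.e_irl, y.e_irl, e_rl]
  have e_yy : m.yy = y.yy := by rw [m.e_yy, y.e_yy, e_d, e_irl]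
  have e_XLt : m.XLt = y.XLt := by
    rw [m.e_XLt, y.e_XLt, x.e_alG, hAE, x.e_AE]
    linear_combination (-(x.iG4 * v.op1 * v.om1)) * hal
  have e_beta : m.beta = y.beta := by rw [m.e_beta, y.e_beta]
  have e_m1 : m.m1 = y.m1 := by rw [m.e_m1, y.e_m1]
  have e_b1 : m.b1 = y.b1 := by rw [m.e_b1, y.e_b1, e_beta]
  have e_Afx : A * m.fx = x.AE * y.fxe := by
    rw [e_fx, hAE]
    linear_combination (x.AE * y.fxe) * hee
  have e_V : m.V = y.V := by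
    rw [m.e_V, y.e_V, e_m1, e_beta, e_src, e_NN, e_eN]
    rw [show A * m.fx * (v.K + (1 / 2) * v2.lm) = x.AE * y.fxe * (v.K + (1 / 2) * v2.lm) by
      rw [e_Afx]]
  have e_C2 : S * S * m.C2 = y.C2 := by
    have h1 : al * v.nj = S * v2.eK := by
      rw [hal, v2.e_eK, G.Kom, v.e_om, v.e_tu]; ring
    rw [m.e_C2, y.e_C2, h1]; ring
  have e_gr : m.gr = y.gr := by rw [m.e_gr, y.e_gr, e_b1]
  have e_Gt : m.Gt = y.Gt := by rw [m.e_Gt, y.e_Gt]
  have e_Rh : m.Rh = y.Rh := by rw [m.e_Rh, y.e_Rh, e_Gt, e_NN, e_eN]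
  have e_Rg0 : S * S * m.Rg0 = y.Rg0 := by
    rw [m.e_Rg0, y.e_Rg0, ← e_C2, e_gr, e_NN, e_kl, m.e_ez, e_eta, y.e_eta, y.e_ezs, y.e_au,
      y.e_inner]
    have h2 : v.R * (v.op1 * A * m.fx) = v.R * v.op1 * (x.AE * y.fxe) := by
      linear_combination (v.R * v.op1) * e_Afx
    have hal' : al = v.e * (v.t * v.u) * S := by rw [← v.e_tu]; exact hal
    rw [h2, x.e_AE, v.e_tu2, v.e_R, v.e_u2, v.e_tu]
    linear_combination (y.NN * (v.t * v.u * y.eN + 2) * v.u * S * (x.kl + v.op1 * y.fxe * x.iG4) *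
      (al + v.e * (v.t * v.u) * S)) * hal'
  refine ⟨e_XM, e_iX, e_QX, e_iQX, e_ls, e_a0, e_l1, e_ka, e_kb, e_lfk, e_src, e_fx, e_eps, e_NN,
    e_eN, e_d, e_eta, e_rl, e_irl, e_yy, e_XLt, e_b1, e_V, e_Rh, ?_⟩
  rw [m.e_Rg, y.e_Rg, e_Rh, ← e_Rg0, ← e_C2]
  ring

/-- the common assertions of a scaled program -/
structure As8 (x : Ka v2 eps al S G4 Qb Q1 ls lsx phux Ei Eh) (y : Kb bw x tr gap gu srcs) : Prop where
  XM : 0 < 1 - x.XM
  QX : 0 < 1 - x.QX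
  e2 : 0 < v.aQ - 2 * (v.tu2 * y.epd)
  rl : 0 < y.rl
  l1 : 0 < (5 / 8) * 1 - x.l1
  a0 : 0 < (11 / 32) * 1 - x.a0
  S : 0 < v.op1 - v.tu * y.eN
  zp : 0 < 1 - y.zp
  rr : 0 < (5 / 8) * 1 - y.rr
  V : 0 < y.V
  Rg : 0 < y.Rg
  Rh : 0 < y.Rh

theorem As8.asr {x : Ka v2 eps al S G4 Qb Q1 ls lsx phux Ei Eh} {y : Kb bw x tr gap gu srcs}
    (a : As8 x y) {m : Mb bw v2 A Qb Q1 (v.e * v.t * S * lsx) (v.e * v.t * S * phux) Ei Eh}
    (q : Eqs x y m) (hS : 0 < S) : Asr m := by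
  refine ⟨?_, ?_, ?_, ?_, ?_, ?_, ?_, ?_, ?_, ?_⟩
  · rw [q.XM]; exact a.XM
  · rw [q.QX]; exact a.QX
  · rw [q.eps]; exact a.e2
  · rw [q.rl]; exact a.rl
  · rw [q.l1]; exact a.l1
  · rw [q.a0]; exact a.a0
  · rw [q.eN]; exact a.S
  · rw [q.V]; exact a.V
  · have h1 := a.Rg
    rw [← q.Rg] at h1
    exact (mul_pos_iff_of_pos_left (mul_pos hS hS)).1 h1
  · rw [q.Rh]; exact a.Rh

/-- the values of the closing -/
structure EqC (x : Ka v2 eps al S G4 Qb Q1 ls lsx phux Ei Eh) (y : Kb bw x tr gap gu srcs)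
    {m : Mb bw v2 A Qb Q1 (v.e * v.t * S * lsx) (v.e * v.t * S * phux) Ei Eh} {iA : ℝ}
    (k : CC m gap iA) : Prop where
  zp : k.zp = y.zp
  rr : k.rr = y.rr
  q0 : k.q0 = y.q0
  fbt : k.fbt = y.fbt
  FX : k.FX = y.CuN * G4 * srcs * v.op1⁻¹

theorem eqc_of (G : Geo κ s v) (c : Sc v eps al S r tr us) (hA : A * G4 = v.e * S) {iA : ℝ}
    (hiA : A * iA = 1) (hgu : al * gu = gap * S)
    {x : Ka v2 eps al S G4 Qb Q1 ls lsx phux Ei Eh} {y : Kb bw x tr gap gu srcs}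
    {m : Mb bw v2 A Qb Q1 (v.e * v.t * S * lsx) (v.e * v.t * S * phux) Ei Eh} (q : Eqs x y m)
    (k : CC m gap iA) : EqC x y k := by
  have he := G.e0
  have ht := G.t0
  have hu := G.u0
  have hal := c.al'
  have hei := c.eps' he
  have hee := c.ee
  have hS := c.S0
  have hR : v.R = v.t * (v.u * v.u) := by rw [v.e_R, v.e_u2]
  have hR0 := G.R0
  have e_q0 : k.q0 = y.q0 := by rw [k.e_q0, y.e_q0, q.eta]
  have e_zp : k.zp = y.zp := by rw [k.e_zp, y.e_zp, q.yy]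
  have e_kzp : (1 - (1 / 2) * k.zp) * (1 - k.zp)⁻¹ = y.kzp := by rw [y.e_kzp, e_zp]
  -- gap/R = e gu / u
  have hgR : gap * v.R⁻¹ * v.u = v.e * gu := by
    have h1 : gap * S = v.e * (v.t * v.u) * S * gu := by rw [← hgu, hal, v.e_tu]
    have h2 : gap = v.e * (v.t * v.u) * gu := mul_right_cancel₀ hS.ne' (by linear_combination h1)
    rw [h2, hR]
    field_simp
  have e_C1 : k.C1 * v.u = v.e * y.Cu := by
    rw [k.e_C1, y.e_Cu, e_kzp, e_q0, q.irl]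
    linear_combination (y.irl * y.kzp) * hgR
  have e_rr : k.rr = y.rr := by
    have htr : tr = v.t * (v.e * v.R) := by rw [c.htr, c.hr]
    have h4 : gap = v.e * (v.t * v.u) * gu := by
      have h1 : gap * S = v.e * (v.t * v.u) * S * gu := by rw [← hgu, hal, v.e_tu]
      exact mul_right_cancel₀ hS.ne' (by linear_combination h1)
    have h3 : k.C1 * (v.tu2 * y.eN) = (k.C1 * v.u) * (v.t * v.t * v.u * y.eN) := by
      rw [v.e_tu2, v.e_tu]; ring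
    rw [k.e_rr, y.e_rr, q.eta, y.e_eta, y.e_d, h3, e_C1, y.e_Cu]
    linear_combination (-(y.q0 * y.eN)) * htr - (y.q0 * y.eN * v.e * v.t) * hR -
      (y.irl * y.kzp * y.eN * v.t) * h4
  have e_Cu : k.C * v.u = y.CuN := by
    rw [k.e_C, y.e_CuN, e_rr, q.NN, hei]
    linear_combination ((1 + y.rr * ((1 / 2) + (13 / 64) * y.rr)) * y.NN * eps) * e_C1 +
      (y.Cu * (1 + y.rr * ((1 / 2) + (13 / 64) * y.rr)) * y.NN) * hee
  have e_fbt : k.fbt = y.fbt := by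
    rw [k.e_fbt, y.e_fbt, e_Cu, y.e_fxe, q.ka, q.kb, q.iX, q.iQX]
  refine ⟨e_zp, e_rr, e_q0, e_fbt, ?_⟩
  rw [k.e_FX]
  -- e src = e om1 bte + ka lsi + lfk phu
  have h5 : v.e * v.om1 * m.bte + m.ka * (v.e * v.t * S * lsx) + m.lfk * (v.e * v.t * S * phux) =
      v.e * y.src := by
    rw [← q.src, m.e_src, hei]
    linear_combination (-(m.ka * (v.e * v.t * S * lsx) + m.lfk * (v.e * v.t * S * phux))) * hee
  rw [h5, y.e_src]
  have h6 : iA * v.e * S = G4 := by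
    linear_combination (-iA) * hA + G4 * hiA
  rw [← e_Cu]
  linear_combination (k.C * v.u * v.op1⁻¹ * srcs) * h6

end

end Pool.Agent.helper71.FJ
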