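import Pool.Agent.helper71.FJ.Clo
import Pool.Agent.helper31.EQB.Msup

/-!
# Far field programs in scaled variables: the closed bound of helper31 for `log f` near the real axis
-/

namespace Pool.Agent.helper71.FJ

open Complex ComplexConjugate Pool.Agent.helper31.EQ.Y Pool.Agent.helper31.EQ.R
open Pool.Agent.helper12.EQL Pool.Agent.helper12.RP Pool.Agent.helper12.FF Pool.Agent.helper63.FF
open Pool.Agent.helper71.FF (B1 B2 B3 Geo)
open Pool.Agent.helper31.EQB (bet rz yz Sz Vz Ps Bs MC ls_sup Bs_inv_le Bs_pos)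

variable {κ : ℝ} {s : ℂ} {v : B1} {eps S r tr us : ℝ}

/-- `|e^w - 1| ≤ ls (1 + ls (1/2 + 13/64 ls))` -/
theorem ratio_le {e κ : ℝ} (he : 0 < e) (hκ : 0 < κ) {z : ℂ} (hz : 0 < z.re) {ls eqx : ℝ}
    (h : ‖log (fT e κ z) - log (fT e κ (shf κ z))‖ ≤ ls) (h1 : 0 < (5 / 8) * 1 - ls)
    (e_eqx : eqx = ls * (1 + ls * ((1 / 2) + (13 / 64) * ls))) :
    ‖fT e κ (shf κ z) / fT e κ z - 1‖ ≤ eqx := by
  have hz' := shf_re hκ hz.le
  have hf := fT_ne he hκ hz
  have hf' := fT_ne he hκ hz'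
  obtain ⟨w, hw⟩ : ∃ w, w = log (fT e κ (shf κ z)) - log (fT e κ z) := ⟨_, rfl⟩
  have e1 : fT e κ (shf κ z) / fT e κ z = exp w := by
    rw [hw, exp_sub, exp_log hf', exp_log hf]
  have hwn : ‖w‖ ≤ ls := by rw [hw, norm_sub_rev]; exact h
  have h2 : ‖exp w - 1‖ ≤ Real.exp ‖w‖ - 1 := by
    have := Complex.norm_exp_sub_sum_le_exp_norm_sub_sum w 1
    simpa using this
  have hls0 : 0 ≤ ls := (norm_nonneg _).trans hwn
  have h3 : Real.exp ‖w‖ ≤ Real.exp ls := Real.exp_le_exp.2 hwn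
  have h4 := Pool.Agent.helper71.FF.exp_Na hls0 (by linarith : ls ≤ 5 / 8)
  rw [e1, e_eqx]
  linarith

/-- **The closed bound** in scaled variables, `al = 1`. -/
theorem ls_K (G : Geo κ s v) (c : Sc v eps 1 S r tr us) {z tz de sg1 epK Bk lsk lsx ls cp p q : ℝ}
    (C : MC v.e κ (21 / 5) 1 p q) (hcp0 : 0 < cp) (hcp : 2 ≤ p * (98 * 100⁻¹) * (cp * cp))
    (htz : tz = v.t * z) (hde : de = tz * S) (heps : eps = de * de) (hr : r = v.t * (z * z))
    (hz : 0 < z) (e_sg1 : sg1 = 1 - v.u2 * (1 - v.nj2))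
    (e_epK : epK = (tz * tz * sg1 + r * (21 * 10⁻¹)) * eps)
    (e_Bk : Bk = ((5 / 8) * tz + cp)⁻¹ + z * ((1 / 2) * q))
    (e_lsk : lsk = (Bk * (1 - epK))⁻¹) (e_lsx : lsx = z * v.op1 * lsk)
    (e_ls : ls = v.om1 * (v.t * lsx))
    (a_sg1 : 0 < sg1 - 98 * 100⁻¹) (a_epK : 0 < 1 - epK)
    (a_Y : 0 < S * S * (1764 * 100⁻¹) - (1 - v.u2) * (1 - v.nj2)) (a_u : 0 < (1 / 4) - v.u2) :
    ‖log (fT v.e κ s) - log (fT v.e κ (shf κ s))‖ ≤ ls ∧ 0 ≤ lsx := by
  have he := G.e0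
  have hκ := G.κ0
  have hs := G.s0
  have ht := G.t0
  have hu := G.u0
  have hS := c.S0
  have htu := G.tu0
  have hop := G.op0
  have hom1 := G.om1_0
  have htz0 : 0 < tz := by rw [htz]; positivity
  -- a S = 1
  have haS : v.e * v.tu * S = 1 := c.al'.symm
  have hee := c.ee
  -- e tu² = tz²
  have hetz : v.e * v.tu2 = tz * tz := by
    -- e eps = 1, eps = tz² S², (e tu S)² = 1
    have h1 : v.e * (tz * tz * (S * S)) = 1 := by
      rw [← hee, heps, hde]; ring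
    have h2 : (v.e * v.tu * S) * (v.e * v.tu * S) = 1 := by rw [haS, one_mul]
    have h3 : v.e * v.e * v.tu2 * (S * S) = 1 := by rw [v.e_tu2, ← h2]; ring
    have h4 : v.e * (S * S) * (v.e * v.tu2 - tz * tz) = 0 := by linear_combination h3 - h1
    have h5 : v.e * (S * S) ≠ 0 := by positivity
    have h6 := (mul_eq_zero.1 h4).resolve_left h5
    linarith
  have hrz : rz v.e κ s = r := by
    unfold rz bet
    rw [c.hr, mul_assoc, G.re]
  have hyz : yz v.e κ s ^ 2 = v.e ^ 2 * (v.tu2 * (1 - v.u2) * (1 - v.nj2)) := by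
    unfold yz bet
    rw [← G.im]; ring
  have hbet : bet v.e κ ^ 2 = v.e ^ 2 * (v.tu2 * v.nj2) := by
    unfold bet
    have h1 : v.K = v.tu * v.nj := by rw [G.Kom, v.e_tu, v.e_om]; ring
    rw [← G.K, h1, v.e_tu2, v.e_nj2]; ring
  have hSz : Sz v.e κ s = v.e * (tz * tz * sg1) := by
    unfold Sz
    rw [hyz, hbet, ← hetz, e_sg1]; ring
  have hSze : Sz v.e κ s / v.e = tz * tz * sg1 := by rw [hSz]; field_simp
  have hVz : Vz v.e κ s = tz * tz * (v.om1 * v.op1) := by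
    unfold Vz
    have h1 := Pool.Agent.helper71.FG.Ns_eq G
    rw [← hetz]
    linear_combination v.e * h1
  have hY : |yz v.e κ s| ≤ 21 / 5 := by
    apply abs_le_of_sq_le_sq _ (by norm_num)
    rw [hyz]
    have h1 : v.e ^ 2 * v.tu2 * (S * S) = 1 := by
      have h2 : (v.e * v.tu * S) * (v.e * v.tu * S) = 1 := by rw [haS, one_mul]
      rw [v.e_tu2, ← h2]; ring
    have h3 : 0 < v.e ^ 2 * v.tu2 := by rw [v.e_tu2]; positivity
    have h4 := mul_le_mul_of_nonneg_left a_Y.le h3.le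
    nlinarith
  have hsg0 : 0 < sg1 := by
    have : (0 : ℝ) < 98 * 100⁻¹ := by norm_num
    linarith
  have hrr : rz v.e κ s ^ 2 ≤ 9 / 10 * Sz v.e κ s := by
    rw [hrz, hSz, c.hr, v.e_R]
    -- (e t u2)² ≤ .9 e tz² sg1,  e tu² = tz²
    have h1 : v.t * v.u2 * (v.t * v.u2) = v.tu2 * v.u2 := by rw [v.e_tu2, v.e_tu, v.e_u2]; ring
    have h2 : (v.e * (v.t * v.u2)) ^ 2 = v.e ^ 2 * (v.tu2 * v.u2) := by rw [← h1]; ring
    have h3 : 9 / 10 * (v.e * (tz * tz * sg1)) = v.e ^ 2 * v.tu2 * (9 / 10 * sg1) := by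
      rw [← hetz]; ring
    rw [h2, h3, ← mul_assoc]
    apply mul_le_mul_of_nonneg_left _ (by rw [v.e_tu2]; positivity)
    have : (98 * 100⁻¹ : ℝ) = 49 / 50 := by norm_num
    rw [this] at a_sg1
    linarith
  have hb := ls_sup C hs hY hrr
  have heK : (Sz v.e κ s / v.e + 21 / 10 * rz v.e κ s) / v.e = epK := by
    rw [hSze, hrz, e_epK, ← c.eps' he, v.e_ei]
    field_simp
  rw [heK, hVz] at hb
  -- Ps
  have hs2 : p * (tz * tz * sg1) ≤ 2 := by
    have := C.s2 hY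
    rwa [hSze] at this
  have hp0 := C.p0
  have hq0 := C.q0
  have hs0 : 0 < p * (tz * tz * sg1) := by positivity
  have hB := Bs_inv_le hs0 hs2
  have hsq : Real.sqrt (2 / (p * (tz * tz * sg1))) ≤ cp / tz := by
    apply Real.sqrt_le_iff.2
    refine ⟨by positivity, ?_⟩
    rw [div_pow, div_le_div_iff₀ hs0 (by positivity)]
    have h1 : p * (98 * 100⁻¹) * (cp * cp) ≤ p * sg1 * (cp * cp) := by
      have : 98 * 100⁻¹ ≤ sg1 := by linarith
      gcongr
    have h2 : 2 * (tz * tz) ≤ p * sg1 * (cp * cp) * (tz * tz) :=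
      mul_le_mul_of_nonneg_right (hcp.trans h1) (by positivity)
    nlinarith
  have hD0 : 0 < (5 / 8) * tz + cp := by positivity
  have hBs : tz * ((5 / 8) * tz + cp)⁻¹ ≤ Bs (p * (tz * tz * sg1)) := by
    have hBp := Bs_pos hs0
    have h1 : (Bs (p * (tz * tz * sg1)))⁻¹ ≤ ((5 / 8) * tz + cp) / tz := by
      refine hB.trans ?_
      rw [add_div, mul_div_assoc, div_self htz0.ne', mul_one]
      linarith
    have h2 : (((5 / 8) * tz + cp) / tz)⁻¹ ≤ Bs (p * (tz * tz * sg1)) :=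
      (inv_le_comm₀ (by positivity) hBp).2 h1
    rw [inv_div, div_eq_mul_inv] at h2
    exact h2
  have hPs : tz * Bk ≤ Ps v.e κ p q s := by
    unfold Ps
    rw [hSze, hrz, e_Bk, hr, mul_add]
    have h1 : tz * (z * ((1 / 2) * q)) = q * (v.t * (z * z)) / 2 := by rw [htz]; ring
    linarith
  have hBk0 : 0 < Bk := by rw [e_Bk]; positivity
  have hlsk : 0 < lsk := by rw [e_lsk]; positivity
  refine ⟨hb.trans ?_, by rw [e_lsx]; positivity⟩
  have h1 : tz * tz * (v.om1 * v.op1) / ((1 - epK) * Ps v.e κ p q s) ≤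
      tz * tz * (v.om1 * v.op1) / ((1 - epK) * (tz * Bk)) := by
    apply div_le_div_of_nonneg_left (by positivity) (by positivity)
    exact mul_le_mul_of_nonneg_left hPs a_epK.le
  refine h1.trans (le_of_eq ?_)
  rw [e_ls, e_lsx, e_lsk, htz]
  field_simp

/-- the conditions of the closed bound -/
theorem mc_of (G : Geo κ s v) (c : Sc v eps 1 S r tr us) {p q : ℝ} (hq7 : 7 / 10 ≤ q) (hq1 : q ≤ 1)
    (hp6 : 3 / 5 ≤ p) {E sq : ℝ} (hE : 200 ≤ E) (a_e : E * eps ≤ 1) (a_K : 0 < (1 / 32) - v.K)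
    (a_b : 0 < 4 * S - v.nj) (hp : p ≤ q * (1 - 1 / 2048 - 12 / E)) (hsq0 : 0 ≤ sq)
    (hsq : 2 / (p * E) ≤ sq ^ 2)
    (hq : 2 / E + (16 / E ^ 2 + 21 / (5 * E)) + 16 / E ^ 2 / 6 + 2 * sq * (1 + 16 / E) +
      357 / (25 * E) ≤ 1 - q) : MC v.e κ (21 / 5) 1 p q := by
  have he := G.e0
  have hκ := G.κ0
  have hS := c.S0
  have hee := c.ee
  have hK0 := G.K0
  have hE0 : 0 < E := by linarith
  have hEe : E ≤ v.e := by
    have h1 : E * (v.e * eps) ≤ v.e := by
      have := mul_le_mul_of_nonneg_left a_e he.le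
      linarith
    rw [hee, mul_one] at h1
    exact h1
  have heKs : v.e * v.K < 4 := by
    -- e K = e tu nj, e tu S = 1
    have haS : v.e * v.tu * S = 1 := c.al'.symm
    have h1 : v.K = v.tu * v.nj := by rw [G.Kom, v.e_tu, v.e_om]; ring
    have h2 : v.e * v.tu * v.nj < v.e * v.tu * (4 * S) := by
      have htu := G.tu0
      apply mul_lt_mul_of_pos_left (by linarith) (by positivity)
    have h3 : v.e * v.tu * (4 * S) = 4 := by linear_combination 4 * haS
    rw [h1, ← mul_assoc]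
    linarith
  have hK2 : v.K ^ 2 ≤ 16 / E ^ 2 := by
    have h1 : v.K * E ≤ 4 := by
      have := mul_le_mul_of_nonneg_left hEe hK0.le
      linarith
    have h2 : v.K ≤ 4 / E := by rw [le_div_iff₀ hE0]; exact h1
    have h3 := pow_le_pow_left₀ hK0.le h2 2
    have h4 : (4 / E) ^ 2 = 16 / E ^ 2 := by rw [div_pow]; norm_num
    linarith
  have hi : 1 / v.e ≤ 1 / E := one_div_le_one_div_of_le hE0 hEe
  have hi0 : 0 < 1 / v.e := by positivity
  have i2 : 2 / v.e ≤ 2 / E := by rw [← mul_one_div 2 v.e, ← mul_one_div 2 E]; linarith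
  have i12 : 12 / v.e ≤ 12 / E := by rw [← mul_one_div 12 v.e, ← mul_one_div 12 E]; linarith
  have i16 : 16 / v.e ≤ 16 / E := by rw [← mul_one_div 16 v.e, ← mul_one_div 16 E]; linarith
  have i21 : 21 / (5 * v.e) ≤ 21 / (5 * E) := by
    have e1 : 21 / (5 * v.e) = 21 / 5 * (1 / v.e) := by field_simp
    have e2 : 21 / (5 * E) = 21 / 5 * (1 / E) := by field_simp
    rw [e1, e2]; linarith
  have i17 : 17 * (21 / 5) / (5 * v.e) ≤ 357 / (25 * E) := by
    have e1 : 17 * (21 / 5) / (5 * v.e) = 357 / 25 * (1 / v.e) := by field_simp; norm_num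
    have e2 : 357 / (25 * E) = 357 / 25 * (1 / E) := by field_simp
    rw [e1, e2]; linarith
  have hp0 : 0 < p := by linarith
  refine ⟨hE.trans hEe, hκ, ?_, by norm_num, by norm_num, ?_, by norm_num, ?_, hq7, hq1, hp6, ?_, ?_⟩
  · rw [← G.K]; linarith
  · unfold bet
    rw [← G.K]
    have h1 : (v.e * v.K) ^ 2 ≤ 4 ^ 2 := pow_le_pow_left₀ (by positivity) heKs.le 2
    linarith
  · rw [one_mul]
    apply Real.le_sqrt_of_sq_le
    have := sq_nonneg (bet v.e κ)
    linarith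
  · rw [← G.K]
    refine hp.trans ?_
    apply mul_le_mul_of_nonneg_left _ (by linarith)
    have h1 : v.K ^ 2 ≤ (1 / 32) ^ 2 := pow_le_pow_left₀ hK0.le (by linarith) 2
    linarith
  · rw [← G.K]
    refine le_trans ?_ hq
    have hs : Real.sqrt (2 / (p * v.e)) ≤ sq := by
      apply Real.sqrt_le_iff.2
      refine ⟨hsq0, le_trans ?_ hsq⟩
      apply div_le_div_of_nonneg_left (by norm_num) (by positivity)
      exact mul_le_mul_of_nonneg_left hEe hp0.le
    have h5 : 2 * 1 * Real.sqrt (2 / (p * v.e)) * (1 + 16 / v.e) ≤ 2 * sq * (1 + 16 / E) := by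
      have h6 : 0 ≤ 16 / v.e := by positivity
      apply mul_le_mul (by linarith) (by linarith) (by linarith) (by linarith)
    have h7 : (v.K ^ 2 + 21 / (5 * v.e)) * 1 ^ 2 = v.K ^ 2 + 21 / (5 * v.e) := by ring
    rw [h7]
    linarith

/-- `p = 69/100, q = 72/100, e > 303` -/
theorem mc_K (G : Geo κ s v) (c : Sc v eps 1 S r tr us) (a_e : 0 < (27 / 8192) - eps)
    (a_K : 0 < (1 / 32) - v.K) (a_b : 0 < 4 * S - v.nj) : MC v.e κ (21 / 5) 1 (69 / 100) (72 / 100) := by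
  refine mc_of G c (by norm_num) (by norm_num) (by norm_num) (E := 8192 / 27) (sq := 978 / 10000)
    (by norm_num) (by linarith) a_K a_b (by norm_num) (by norm_num) (by norm_num) (by norm_num)

/-- `p = 81/100, q = 83/100, e > 630` -/
theorem mc_K2 (G : Geo κ s v) (c : Sc v eps 1 S r tr us) (a_e : 0 < (13 / 8192) - eps)
    (a_K : 0 < (1 / 32) - v.K) (a_b : 0 < 4 * S - v.nj) : MC v.e κ (21 / 5) 1 (81 / 100) (83 / 100) := by
  refine mc_of G c (by norm_num) (by norm_num) (by norm_num) (E := 8192 / 13) (sq := 627 / 10000)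
    (by norm_num) (by linarith) a_K a_b (by norm_num) (by norm_num) (by norm_num) (by norm_num)

end Pool.Agent.helper71.FJ
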