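import Pool.Agent.helper71.FJ.Gd

/-!
# Far field programs in scaled variables: logarithms
-/

namespace Pool.Agent.helper71.FJ

open Complex ComplexConjugate Pool.Agent.helper31.EQ.Y Pool.Agent.helper31.EQ.R
open Pool.Agent.helper12.EQL Pool.Agent.helper12.RP Pool.Agent.helper12.FF Pool.Agent.helper63.FF
open Pool.Agent.helper71.FF (B1 B2 B3 Geo one_sub_exp_le shf_re')

variable {κ : ℝ}

private theorem mono_ge {f f' : ℝ → ℝ} (hf : ∀ x, 0 ≤ x → HasDerivAt f (f' x) x)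
    (h0 : 0 ≤ f 0) (h : ∀ x, 0 ≤ x → 0 ≤ f' x) {x : ℝ} (hx : 0 ≤ x) : 0 ≤ f x := by
  have hm : MonotoneOn f (Set.Ici 0) := by
    apply monotoneOn_of_deriv_nonneg (convex_Ici 0)
    · exact fun y hy => (hf y hy).continuousAt.continuousWithinAt
    · intro y hy
      rw [interior_Ici] at hy
      exact (hf y (le_of_lt hy)).differentiableAt.differentiableWithinAt
    · intro y hy
      rw [interior_Ici] at hy
      rw [(hf y (le_of_lt hy)).deriv]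
      exact h y (le_of_lt hy)
  exact h0.trans (hm (Set.mem_Ici.2 le_rfl) (Set.mem_Ici.2 hx) hx)

private theorem dz {x : ℝ} (hx : 0 ≤ x) :
    HasDerivAt (fun x : ℝ => x / (x + 2)) (2 / (x + 2) ^ 2) x := by
  have h := (hasDerivAt_id x).div ((hasDerivAt_id x).add_const 2) (by simp; linarith : (id x : ℝ) + 2 ≠ 0)
  refine h.congr_deriv ?_
  simp only [id]
  ring

private theorem dlog {x : ℝ} (hx : 0 ≤ x) :
    HasDerivAt (fun x : ℝ => Real.log (1 + x)) (1 / (1 + x)) x := by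
  have h := ((hasDerivAt_id x).const_add 1).log (by simp; linarith : (1 : ℝ) + id x ≠ 0)
  refine h.congr_deriv ?_
  simp

theorem log_lo {x : ℝ} (hx : 0 ≤ x) :
    2 * (x / (x + 2)) + 2 / 3 * (x / (x + 2)) ^ 3 ≤ Real.log (1 + x) := by
  have h := mono_ge (f := fun x => Real.log (1 + x) - (2 * (x / (x + 2)) + 2 / 3 * (x / (x + 2)) ^ 3))
    (f' := fun x => 1 / (1 + x) - (2 * (2 / (x + 2) ^ 2) +
      2 / 3 * (3 * (x / (x + 2)) ^ 2 * (2 / (x + 2) ^ 2))))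
    (fun x hx => by
      have h := (dlog hx).sub (((dz hx).const_mul 2).add (((dz hx).pow 3).const_mul (2 / 3)))
      refine h.congr_deriv ?_
      push_cast
      ring) (by simp)
    (fun x hx => by
      have h1 : 0 < 1 + x := by linarith
      have h2 : 0 < x + 2 := by linarith
      have e1 : 1 / (1 + x) - (2 * (2 / (x + 2) ^ 2) +
          2 / 3 * (3 * (x / (x + 2)) ^ 2 * (2 / (x + 2) ^ 2))) = x ^ 4 / ((1 + x) * (x + 2) ^ 4) := by
        field_simp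
        ring
      rw [e1]
      positivity) hx
  linarith

theorem log_up {x : ℝ} (hx : 0 ≤ x) :
    Real.log (1 + x) ≤ 2 * (x / (x + 2)) + 2 / 3 * (x / (x + 2)) ^ 3 + x * (x / (x + 2)) ^ 4 / 5 := by
  have h := mono_ge (f := fun x => (2 * (x / (x + 2)) + 2 / 3 * (x / (x + 2)) ^ 3 +
      x * (x / (x + 2)) ^ 4 / 5) - Real.log (1 + x))
    (f' := fun x => (2 * (2 / (x + 2) ^ 2) + 2 / 3 * (3 * (x / (x + 2)) ^ 2 * (2 / (x + 2) ^ 2)) +
      ((x / (x + 2)) ^ 4 + x * (4 * (x / (x + 2)) ^ 3 * (2 / (x + 2) ^ 2))) / 5) - 1 / (1 + x))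
    (fun x hx => by
      have h := ((((dz hx).const_mul 2).add (((dz hx).pow 3).const_mul (2 / 3))).add
        (((hasDerivAt_id x).mul ((dz hx).pow 4)).div_const 5)).sub (dlog hx)
      refine h.congr_deriv ?_
      simp only [id, Pi.pow_apply]
      push_cast
      ring) (by simp)
    (fun x hx => by
      have h1 : 0 < 1 + x := by linarith
      have h2 : 0 < x + 2 := by linarith
      have e1 : (2 * (2 / (x + 2) ^ 2) + 2 / 3 * (3 * (x / (x + 2)) ^ 2 * (2 / (x + 2) ^ 2)) +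
          ((x / (x + 2)) ^ 4 + x * (4 * (x / (x + 2)) ^ 3 * (2 / (x + 2) ^ 2))) / 5) - 1 / (1 + x) =
          x ^ 5 * (x + 6) / (5 * (1 + x) * (x + 2) ^ 5) := by
        field_simp
        ring
      rw [e1]
      positivity) hx
  linarith

/-- bounds of `log (1 + x) / x` -/
structure Lg (x : ℝ) where
  zL : ℝ
  zz : ℝ
  Lv : ℝ
  eL : ℝ
  e_zL : zL = x * (x + 2)⁻¹
  e_zz : zz = zL * zL
  e_Lv : Lv = (1 - zL) * (1 + zz * (1 * 3⁻¹))
  e_eL : eL = (3277 / 16384) * (zz * zz)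

theorem exLg (x : ℝ) : Nonempty (Lg x) := by
  obtain ⟨zL, e_zL⟩ : ∃ zz : ℝ, zz = x * (x + 2)⁻¹ := ⟨_, rfl⟩
  obtain ⟨zz, e_zz⟩ : ∃ zz : ℝ, zz = zL * zL := ⟨_, rfl⟩
  obtain ⟨Lv, e_Lv⟩ : ∃ y : ℝ, y = (1 - zL) * (1 + zz * (1 * 3⁻¹)) := ⟨_, rfl⟩
  obtain ⟨eL, e_eL⟩ : ∃ y : ℝ, y = (3277 / 16384) * (zz * zz) := ⟨_, rfl⟩
  exact ⟨⟨zL, zz, Lv, eL, e_zL, e_zz, e_Lv, e_eL⟩⟩

theorem Lg.b {x : ℝ} (l : Lg x) (hx : 0 ≤ x) :
    x * l.Lv ≤ Real.log (1 + x) ∧ Real.log (1 + x) ≤ x * (l.Lv + l.eL) ∧ 0 < l.Lv ∧ 0 ≤ l.eL := by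
  have h2 : 0 < x + 2 := by linarith
  have hz : l.zL = x / (x + 2) := by rw [l.e_zL, div_eq_mul_inv]
  have hz0 : 0 ≤ l.zL := by rw [hz]; positivity
  have hz1 : 0 < 1 - l.zL := by
    rw [hz, sub_pos, div_lt_one h2]; linarith
  have hx1 : x * (1 - l.zL) = 2 * l.zL := by
    rw [hz]; field_simp; ring
  have e1 : x * l.Lv = 2 * l.zL + 2 / 3 * l.zL ^ 3 := by
    rw [l.e_Lv, l.e_zz]
    linear_combination (1 + l.zL * l.zL * (1 / 3)) * hx1
  have e2 : l.zz * l.zz = l.zL ^ 4 := by rw [l.e_zz]; ring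
  have hL0 : 0 < l.Lv := by
    rw [l.e_Lv, l.e_zz]
    positivity
  have he0 : 0 ≤ l.eL := by rw [l.e_eL, e2]; positivity
  refine ⟨?_, ?_, hL0, he0⟩
  · rw [e1, hz]; exact log_lo hx
  · have h3 := log_up hx
    rw [← hz] at h3
    rw [mul_add, e1, l.e_eL, e2]
    have : 0 ≤ x * l.zL ^ 4 := by positivity
    linarith

/-- the rates -/
structure LV (v : B1) (l1 : Lg v.D) (l2 : Lg v.D2) where
  rlo : ℝ
  er : ℝ
  rhi : ℝ
  D2R : ℝ
  rplo : ℝ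
  erp : ℝ
  rphi : ℝ
  e_rlo : rlo = (1 / 2) * (v.Dt * l1.Lv)
  e_er : er = (1 / 2) * (v.Dt * l1.eL)
  e_rhi : rhi = rlo + er
  e_D2R : D2R = 4 * (v.c0 * v.rhat)
  e_rplo : rplo = (1 / 2) * (D2R * l2.Lv) - rhi
  e_erp : erp = (1 / 2) * (D2R * l2.eL) + er
  e_rphi : rphi = rplo + erp

theorem exLV (v : B1) (l1 : Lg v.D) (l2 : Lg v.D2) : Nonempty (LV v l1 l2) := by
  obtain ⟨rlo, e_rlo⟩ : ∃ zz : ℝ, zz = (1 / 2) * (v.Dt * l1.Lv) := ⟨_, rfl⟩
  obtain ⟨er, e_er⟩ : ∃ zz : ℝ, zz = (1 / 2) * (v.Dt * l1.eL) := ⟨_, rfl⟩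
  obtain ⟨rhi, e_rhi⟩ : ∃ zz : ℝ, zz = rlo + er := ⟨_, rfl⟩
  obtain ⟨D2R, e_D2R⟩ : ∃ zz : ℝ, zz = 4 * (v.c0 * v.rhat) := ⟨_, rfl⟩
  obtain ⟨rplo, e_rplo⟩ : ∃ zz : ℝ, zz = (1 / 2) * (D2R * l2.Lv) - rhi := ⟨_, rfl⟩
  obtain ⟨erp, e_erp⟩ : ∃ zz : ℝ, zz = (1 / 2) * (D2R * l2.eL) + er := ⟨_, rfl⟩
  obtain ⟨rphi, e_rphi⟩ : ∃ zz : ℝ, zz = rplo + erp := ⟨_, rfl⟩
  exact ⟨⟨rlo, er, rhi, D2R, rplo, erp, rphi, e_rlo, e_er, e_rhi, e_D2R, e_rplo, e_erp, e_rphi⟩⟩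

variable {s : ℂ} {v : B1}

/-- what the rates mean; `r = e R` -/
structure RtF (v : B1) (r rlo rhi rplo rphi : ℝ) : Prop where
  lo : r * rlo ≤ v.rho
  hi : v.rho ≤ r * rhi
  plo : r * rplo ≤ v.rp
  phi : v.rp ≤ r * rphi
  rlo0 : 0 < rlo
  r0 : 0 < r

theorem LV.f (G : Geo κ s v) {l1 : Lg v.D} {l2 : Lg v.D2} (l : LV v l1 l2) {r : ℝ}
    (hr : r = v.e * v.R) : RtF v r l.rlo l.rhi l.rplo l.rphi := by
  have he := G.e0
  have hR := G.R0
  have hDt := G.Dt2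
  have hD0 : 0 ≤ v.D := by rw [v.e_D]; positivity
  have hD20 := G.D2_0
  obtain ⟨a1, a2, a3, a4⟩ := l1.b hD0
  obtain ⟨b1, b2, b3, b4⟩ := l2.b hD20.le
  have hLQ : v.LQ = Real.log (1 + v.D) := by rw [v.e_LQ, v.e_SQ, add_comm]
  have hL2 : v.L2 = Real.log (1 + v.D2) - Real.log (1 + v.D) := by
    rw [v.e_L2, hLQ, add_comm v.D2]
  have hrho : v.rho = (1 / 2) * v.e * Real.log (1 + v.D) := by rw [v.e_rho, v.e_ee, hLQ]
  have hrp : v.rp = (1 / 2) * v.e * (Real.log (1 + v.D2) - Real.log (1 + v.D)) := by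
    rw [v.e_rp, v.e_ee, hL2]
  have hDe : v.D = v.R * v.Dt := v.e_D
  have hD2e : v.D2 = v.R * l.D2R := by rw [v.e_D2, l.e_D2R]; ring
  have he2 : 0 ≤ (1 / 2) * v.e := by linarith
  have hr0 : 0 < r := by rw [hr]; positivity
  have c1 : r * l.rlo ≤ v.rho := by
    have h1 := mul_le_mul_of_nonneg_left a1 he2
    rw [hrho]
    refine le_trans (le_of_eq ?_) h1
    rw [hr, l.e_rlo]
    linear_combination (-(1 / 2) * v.e * l1.Lv) * hDe
  have c2 : v.rho ≤ r * l.rhi := by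
    have h1 := mul_le_mul_of_nonneg_left a2 he2
    rw [hrho]
    refine h1.trans (le_of_eq ?_)
    rw [hr, l.e_rhi, l.e_rlo, l.e_er]
    linear_combination ((1 / 2) * v.e * (l1.Lv + l1.eL)) * hDe
  have d1 : r * ((1 / 2) * (l.D2R * l2.Lv)) ≤ (1 / 2) * v.e * Real.log (1 + v.D2) := by
    have h1 := mul_le_mul_of_nonneg_left b1 he2
    refine le_trans (le_of_eq ?_) h1
    rw [hr]
    linear_combination (-(1 / 2) * v.e * l2.Lv) * hD2e
  have d2 : (1 / 2) * v.e * Real.log (1 + v.D2) ≤ r * ((1 / 2) * (l.D2R * (l2.Lv + l2.eL))) := by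
    have h1 := mul_le_mul_of_nonneg_left b2 he2
    refine h1.trans (le_of_eq ?_)
    rw [hr]
    linear_combination ((1 / 2) * v.e * (l2.Lv + l2.eL)) * hD2e
  refine ⟨c1, c2, ?_, ?_, ?_, hr0⟩
  · rw [l.e_rplo, hrp, mul_sub, mul_sub, ← hrho]
    linarith
  · rw [l.e_rphi, l.e_rplo, l.e_erp, hrp, mul_sub, ← hrho]
    have e1 : r * ((1 / 2) * (l.D2R * l2.Lv) - l.rhi + ((1 / 2) * (l.D2R * l2.eL) + l.er)) =
        r * ((1 / 2) * (l.D2R * (l2.Lv + l2.eL))) - r * l.rlo := by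
      rw [l.e_rhi]; ring
    rw [e1]
    linarith
  · rw [l.e_rlo]
    have : 0 < v.Dt := by linarith
    positivity

theorem qb_core {e : ℝ} {z : ℂ} {ρ r lo er q th : ℝ} (hq : qa e κ z = Real.exp (-ρ))
    (h1 : r * lo ≤ ρ) (h2 : ρ ≤ r * (lo + er)) (hlo : 0 ≤ r * lo) (e_q : q = Real.exp (-(r * lo)))
    (e_th : th = q * (r * er)) : QB e κ z q th := by
  refine ⟨?_, ?_, ?_⟩
  · rw [hq, e_q]; apply Real.exp_le_exp.2; linarith
  · rw [hq, e_th]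
    have hq0 : 0 < q := by rw [e_q]; exact Real.exp_pos _
    have h3 : Real.exp (-(r * (lo + er))) ≤ Real.exp (-ρ) := by apply Real.exp_le_exp.2; linarith
    have h4 : Real.exp (-(r * (lo + er))) = q * Real.exp (-(r * er)) := by
      rw [e_q, ← Real.exp_add]; congr 1; ring
    have h5 := Real.add_one_le_exp (-(r * er))
    have h6 := mul_le_mul_of_nonneg_left h5 hq0.le
    rw [h4] at h3
    linarith
  · rw [e_q]; apply Real.exp_le_one_iff.2; linarith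

/-- the bound of `qa` at `s` -/
theorem qb_s (G : Geo κ s v) {r rlo rhi rplo rphi er q th : ℝ} (f : RtF v r rlo rhi rplo rphi)
    (e_rhi : rhi = rlo + er) (e_q : q = Real.exp (-(r * rlo))) (e_th : th = q * (r * er)) :
    QB v.e κ s q th :=
  qb_core (by rw [G.q_eq, v.e_q]) f.lo (by rw [← e_rhi]; exact f.hi)
    (mul_nonneg f.r0.le f.rlo0.le) e_q e_th

/-- the bound of `qa` at the next point -/
theorem qb_p (G : Geo κ s v) {r rlo rhi rplo rphi erp q th : ℝ} (f : RtF v r rlo rhi rplo rphi)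
    (hp : 0 ≤ rplo) (e_rphi : rphi = rplo + erp) (e_q : q = Real.exp (-(r * rplo)))
    (e_th : th = q * (r * erp)) : QB v.e κ (shf κ s) q th :=
  qb_core (by rw [G.q_eq', v.e_qp]) f.plo (by rw [← e_rphi]; exact f.phi)
    (mul_nonneg f.r0.le hp) e_q e_th

/-- `exp (-y) ≤ x² / (x² + x b + b²/2)`, `y = b / x` -/
theorem exp_quad {ri r b E : ℝ} (hri : r * ri = 1) (hr : 0 < r) (hb : 0 ≤ b)
    (e_E : E = ri * ri * (ri * ri + ri * b + (1 / 2) * (b * b))⁻¹) : Real.exp (-(r * b)) ≤ E := by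
  have hri0 : 0 < ri := by
    by_contra h
    push Not at h
    nlinarith
  have h1 : 1 + r * b + (r * b) ^ 2 / 2 ≤ Real.exp (r * b) :=
    Real.quadratic_le_exp_of_nonneg (by positivity)
  have h2 : 0 < 1 + r * b + (r * b) ^ 2 / 2 := by positivity
  rw [Real.exp_neg]
  refine (inv_anti₀ h2 h1).trans (le_of_eq ?_)
  have h3 : ri * ri + ri * b + (1 / 2) * (b * b) = ri * ri * (1 + r * b + (r * b) ^ 2 / 2) := by
    linear_combination (-(ri * b) - (1 / 2) * (b * b) * (r * ri + 1)) * hri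
  rw [e_E, h3, mul_inv]
  field_simp

end Pool.Agent.helper71.FJ
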