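import Pool.Agent.helper71.FJ.Sp

/-!
# Far field programs in scaled variables: bounds of `log f`
-/

namespace Pool.Agent.helper71.FJ

open Complex ComplexConjugate Pool.Agent.helper31.EQ.Y Pool.Agent.helper31.EQ.R
open Pool.Agent.helper12.EQL Pool.Agent.helper12.RP Pool.Agent.helper12.FF Pool.Agent.helper63.FF
open Pool.Agent.helper71.FF (B1 B2 B3 Geo PhiB phi_near phi_slog phi_sq log_sqrt log_kz)

variable {κ : ℝ} {s : ℂ} {v : B1} {v2 : B2 v} {eps al S r tr us : ℝ}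

/-- the bound by `√γ` -/
theorem lf_sqrt (G : Geo κ s v) : ‖log (fT v.e κ s) - log (fT v.e κ 1)‖ ≤
    v.om1 * v.om⁻¹ * Real.sqrt (gam v.e κ s) := by
  have he := G.e0
  have hκ := G.κ0
  have hom := G.om0
  have hom1 := G.om1_0
  have hγ0 := gam_nonneg he hκ G.s0
  obtain ⟨z0, hz0⟩ : ∃ z, z = v.om1 * v.om⁻¹ := ⟨_, rfl⟩
  have hz00 : 0 ≤ z0 := by rw [hz0]; positivity
  obtain ⟨γ, hγ⟩ : ∃ γ, γ = gam v.e κ s := ⟨_, rfl⟩
  rw [← hγ] at hγ0
  rw [← hz0, ← hγ]
  by_cases h : γ * (1 + z0) < 1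
  · have h1 : z0 * γ < 1 := by linarith
    have h2 := lf_le2 he hκ G.s0 (c := z0 * γ) (by rw [G.rt2, hz0, hγ]) h1
    refine h2.trans ?_
    have h3 : 0 < 1 - z0 * γ := by linarith
    have h4 : -Real.log (1 - z0 * γ) = Real.log (1 + z0 * γ / (1 - z0 * γ)) := by
      rw [← Real.log_inv]
      congr 1
      field_simp
      ring
    rw [h4]
    have hw : 0 < Real.sqrt (1 - z0 * γ) := Real.sqrt_pos.2 h3
    have hsq : Real.sqrt (1 - z0 * γ) ^ 2 = 1 - z0 * γ := Real.sq_sqrt h3.le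
    have h5 := log_sqrt (z := z0 * γ / (1 - z0 * γ)) (by positivity) hw (by
      rw [hsq]
      have : (1 - z0 * γ) * (1 + z0 * γ / (1 - z0 * γ)) = 1 := by field_simp; ring
      linarith)
    refine h5.trans ?_
    have hsγ : Real.sqrt γ ^ 2 = γ := Real.sq_sqrt hγ0
    have h6 : Real.sqrt γ ≤ Real.sqrt (1 - z0 * γ) := Real.sqrt_le_sqrt (by linarith)
    have hs0 := Real.sqrt_nonneg γ
    have e1 : z0 * γ / (1 - z0 * γ) * Real.sqrt (1 - z0 * γ) =
        z0 * γ / Real.sqrt (1 - z0 * γ) := by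
      rw [div_mul_eq_mul_div, div_eq_div_iff h3.ne' hw.ne']
      have : Real.sqrt (1 - z0 * γ) * Real.sqrt (1 - z0 * γ) = 1 - z0 * γ :=
        Real.mul_self_sqrt h3.le
      linear_combination (z0 * γ) * this
    rw [e1, div_le_iff₀ hw]
    have h7 : Real.sqrt γ * Real.sqrt γ ≤ Real.sqrt γ * Real.sqrt (1 - z0 * γ) :=
      mul_le_mul_of_nonneg_left h6 hs0
    have h8 : Real.sqrt γ * Real.sqrt γ = γ := by rw [← sq, hsγ]
    rw [h8] at h7
    have := mul_le_mul_of_nonneg_left h7 hz00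
    linarith
  · push Not at h
    refine (lf_le3 he hκ G.s0).trans ?_
    rw [G.rt3, ← hz0]
    rcases hγ0.eq_or_lt with h0 | h0
    · rw [← h0] at h; linarith
    · have hw : 0 < Real.sqrt γ := Real.sqrt_pos.2 h0
      have hsq : Real.sqrt γ ^ 2 = γ := Real.sq_sqrt h0.le
      exact log_sqrt hz00 hw (by rw [hsq]; exact h)

/-- the bound by `γ` -/
theorem ph_near (G : Geo κ s v) (v2 : B2 v) (c : Sc v eps al S r tr us)
    {ga z kz lf L phux Ei Eh : ℝ}
    (hga : gam v.e κ s ≤ ga) (hz : z * v.om = v.om1 * ga)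
    (hz1 : 0 < 1 - z) (hkz : kz = (1 - (1 / 2) * z) * (1 - z)⁻¹)
    (hphu : al * phux = ga * kz)
    (hlf : lf = z * kz) (hL : L = lf * eps) (hL1 : 0 < (1 / 2) - (5 / 4) * L)
    (hEi : Ei = 1 + L * ((45 / 16) * L + 2)) (hEh : Eh = 1 + L * ((45 / 32) * L + 1)) :
    ∃ lf Ex, PhiB κ s v v2 (v.e * v.t * S * phux) Ei Eh lf Ex := by
  refine phi_near G v2 hga hz hz1 hkz ?_ hlf (by rw [c.eps' G.e0]; exact hL) hL1 hEi hEh
  have h1 := c.al'
  rw [← hphu]
  have h2 := v.e_tu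
  linear_combination (-phux) * h1 - (v.e * S * phux) * h2

/-- the bound by `√γ` -/
theorem ph_sq (G : Geo κ s v) (v2 : B2 v) (c : Sc v eps al S r tr us)
    {a b gar ga phux Ei Eh : ℝ} (he2 : 2 ≤ v.e)
    (hga : gam v.e κ s ≤ ga) (hgR : ga = r * gar)
    (ha : 0 ≤ a) (hb : 0 ≤ b) (hab : 1 ≤ a * b)
    (hphu : v.e * v.t * S * phux = (1 / 2) * (a * (v.t * (v.e * gar)) + b))
    (hEi : Ei = 2 * eps + 1) (hEh : Eh = eps + 1) :
    ∃ lf Ex, PhiB κ s v v2 (v.e * v.t * S * phux) Ei Eh lf Ex := by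
  refine phi_sq G v2 he2 hga (gR' := v.e * gar) ?_ ha hb hab hphu ?_ ?_
  · have h1 := c.hr
    rw [hgR, h1]; ring
  · rw [c.eps' G.e0]; exact hEi
  · rw [c.eps' G.e0]; exact hEh

/-- the bound by `1/ω` -/
theorem ph_slog (G : Geo κ s v) (v2 : B2 v) (c : Sc v eps al S r tr us)
    {a b phux Ei Eh : ℝ} (he2 : 2 ≤ v.e)
    (ha : 0 ≤ a) (hb : 0 ≤ b) (hab : 1 ≤ a * b)
    (hphu : v.u * (v.e * v.t * S * phux) = (1 / 2) * (a * v.om + b))
    (hEi : Ei = 2 * eps + 1) (hEh : Eh = eps + 1) :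
    ∃ lf Ex, PhiB κ s v v2 (v.e * v.t * S * phux) Ei Eh lf Ex := by
  refine phi_slog G v2 he2 ha hb hab ?_ ?_ ?_
  · have hu := G.u0
    apply mul_left_cancel₀ hu.ne'
    rw [hphu, v.e_om]
    field_simp
  · rw [c.eps' G.e0]; exact hEi
  · rw [c.eps' G.e0]; exact hEh

/-- the constant bound -/
theorem ph_cone (G : Geo κ s v) (v2 : B2 v) (c : Sc v eps al 1 r tr us)
    {k gar ga phux Ei Eh : ℝ} (he2 : 2 ≤ v.e)
    (hga : gam v.e κ s ≤ ga) (hgR : ga = r * gar) (hk : 3 / 4 ≤ k) (hc : 0 < k * k - gar)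
    (hphu : phux = k) (hEi : Ei = 2 * eps + 1) (hEh : Eh = eps + 1) :
    ∃ lf Ex, PhiB κ s v v2 (v.e * v.t * 1 * phux) Ei Eh lf Ex := by
  have he := G.e0
  have hκ := G.κ0
  have hu := G.u0
  have hom := G.om0
  have hom1 := G.om1_0
  have hnj := G.nj0
  have ht := G.t0
  have hK := G.K0
  have hei := c.eps' he
  have hei' : v.ei = v.e⁻¹ := v.e_ei
  have h9 : 2 / v.e = 2 * v.e⁻¹ := div_eq_mul_inv _ _
  have hEi' : 1 + 2 / v.e ≤ Ei := by rw [hEi, ← hei, hei', h9]; linarith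
  have hEh' : (1 + (1 + 2 / v.e)) / 2 ≤ Eh := by rw [hEh, ← hei, hei', h9]; linarith
  have hphu0 : 0 ≤ v.e * v.t * 1 * phux := by rw [hphu]; positivity
  rcases le_total 1 (v.e * v.t) with h | h
  · refine ⟨v.om1 * v.om⁻¹ * Real.sqrt (gam v.e κ s), 1 + 2 / v.e, lf_sqrt G,
      Ex_two he2 hκ G.s0, hEi', hEh', hphu0, G.lf1 v2 ?_⟩
    have hom2 : v.om⁻¹ * v.om = 1 := inv_mul_cancel₀ hom.ne'
    have e1 : v.om * (v.om1 * v.om⁻¹ * Real.sqrt (gam v.e κ s)) =
        v.om1 * Real.sqrt (gam v.e κ s) := by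
      linear_combination (v.om1 * Real.sqrt (gam v.e κ s)) * hom2
    rw [e1, mul_assoc]
    apply mul_le_mul_of_nonneg_left _ hom1
    apply Real.sqrt_le_iff.2
    constructor
    · positivity
    · have hr : r = v.e * v.t * v.u * v.u := by rw [c.hr, v.e_R, v.e_u2]; ring
      have hr0 : 0 < r := by rw [hr]; positivity
      have h1 : gam v.e κ s ≤ r * (k * k) := by
        refine hga.trans ?_
        rw [hgR]
        exact mul_le_mul_of_nonneg_left (by linarith) hr0.le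
      refine h1.trans ?_
      have e2 : (v.e * v.t * 1 * phux * v.u) ^ 2 = (v.e * v.t) * (r * (k * k)) := by
        rw [hphu, hr]; ring
      rw [e2]
      have h2 : 0 ≤ r * (k * k) := by positivity
      nlinarith
  · obtain ⟨z, hz⟩ : ∃ z, z = v.om1 * (v.e * v.t) / 2 := ⟨_, rfl⟩
    have hom1' : v.om1 ≤ 1 := by rw [v.e_om1]; linarith
    have hz0 : 0 ≤ z := by rw [hz]; positivity
    have hz1 : z ≤ 1 / 2 := by
      rw [hz]
      have : v.om1 * (v.e * v.t) ≤ 1 * 1 := mul_le_mul hom1' h (by positivity) (by norm_num)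
      linarith
    have hb : ‖log (fT v.e κ s) - log (fT v.e κ 1)‖ ≤ -Real.log (1 - z) := by
      apply lf_le1 he hκ G.s0 _ (by linarith)
      rw [G.rt2]
      obtain ⟨T, hT⟩ : ∃ T, T = Real.tanh (v.e * κ / 2) := ⟨_, rfl⟩
      rw [← hT]
      have hT0 : 0 ≤ T := by
        rw [hT, Real.tanh_eq_sinh_div_cosh]
        exact div_nonneg (Real.sinh_nonneg_iff.2 (by positivity)) (Real.cosh_pos _).le
      have hT1 : T ≤ v.e * v.K / 2 := by
        rw [hT, G.K]
        have h1 := tanh_le' (κ := v.e * κ / 2) (by positivity)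
        have h2 := Real.self_le_sinh_iff.2 hκ.le
        have h3 := mul_le_mul_of_nonneg_left h2 he.le
        linarith
      have h4 : T / (1 + T) ≤ v.e * v.K / 2 :=
        (div_le_self hT0 (by linarith)).trans hT1
      have h5 : 0 ≤ v.om1 * v.om⁻¹ := by positivity
      refine (mul_le_mul_of_nonneg_left h4 h5).trans (le_of_eq ?_)
      rw [hz, G.Kom]
      field_simp
    have h2 : -Real.log (1 - z) ≤ 3 / 2 * z := by
      refine (log_kz hz0 (by linarith)).trans ?_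
      have h3 : 0 < 1 - z := by linarith
      have h4 : (1 - (1 / 2) * z) * (1 - z)⁻¹ ≤ 3 / 2 := by
        rw [← div_eq_mul_inv, div_le_iff₀ h3]
        linarith
      have := mul_le_mul_of_nonneg_left h4 hz0
      linarith
    refine ⟨3 / 2 * z, 1 + 2 / v.e, hb.trans h2, Ex_two he2 hκ G.s0, hEi', hEh', hphu0,
      G.lf1 v2 ?_⟩
    rw [hz, hphu]
    have h5 := G.om_le_u
    have h6 : v.om * (v.om1 * (v.e * v.t) * (3 / 4)) ≤ v.u * (v.om1 * (v.e * v.t) * k) := by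
      apply mul_le_mul h5 _ (by positivity) hu.le
      exact mul_le_mul_of_nonneg_left hk (by positivity)
    linarith

end Pool.Agent.helper71.FJ
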