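import Pool.Agent.helper71.FJ.Cha

/-!
# Far field programs in scaled variables: bounds of `log f` in the charts
-/

namespace Pool.Agent.helper71.FJ

open Complex ComplexConjugate Pool.Agent.helper31.EQ.Y Pool.Agent.helper31.EQ.R
open Pool.Agent.helper12.EQL Pool.Agent.helper12.RP Pool.Agent.helper12.FF Pool.Agent.helper63.FF
open Pool.Agent.helper71.FF (B1 B2 B3 Geo PhiB)

variable {κ : ℝ} {s : ℂ} {v : B1} {eps al S r tr us sg z de cv tz : ℝ}

theorem Sc.al0 (c : Sc v eps al S r tr us) (G : Geo κ s v) : 0 < al := by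
  have he := G.e0
  have htu := G.tu0
  have hS := c.S0
  rw [c.al']
  positivity

theorem Sc.rau (c : Sc v eps al 1 r tr us) : r = al * v.u := by
  rw [c.al', c.hr, v.e_R, v.e_u2, v.e_tu]; ring

theorem near_zM (G : Geo κ s v) {ga zph : ℝ} (e : zph = v.om1 * ga * v.om⁻¹) :
    zph * v.om = v.om1 * ga := by
  have := G.om0
  rw [e]; field_simp

theorem near_zH (G : Geo κ s v) (c : Sc v eps al 1 r tr us) {ga gar zph : ℝ} (hg : ga = r * gar)
    (e : zph = v.om1 * al * gar * v.nj⁻¹) : zph * v.om = v.om1 * ga := by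
  have := G.nj0
  rw [e, hg, c.rau, v.e_om]; field_simp

theorem near_pH (c : Sc v eps al 1 r tr us) {ga gar kz phux : ℝ} (hg : ga = r * gar)
    (e : phux = v.u * gar * kz) : al * phux = ga * kz := by
  rw [e, hg, c.rau]; ring

theorem ph_sqI (G : Geo κ s v) (v2 : B2 v) (c : Sc v eps al 1 r tr us) (ht : v.t = sg * de)
    (hee : v.e * (de * de) = 1) (hde0 : 0 < de) {a b gar ga phux Ei Eh : ℝ} (he2 : 2 ≤ v.e)
    (hga : gam v.e κ s ≤ ga) (hgR : ga = r * gar) (ha : 0 ≤ a) (hb : 0 ≤ b) (hab : 1 ≤ a * b)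
    (e_phux : phux = (1 / 2) * (a * (de * gar) + b * sg⁻¹))
    (hEi : Ei = 2 * eps + 1) (hEh : Eh = eps + 1) :
    ∃ lf Ex, PhiB κ s v v2 (v.e * v.t * 1 * phux) Ei Eh lf Ex := by
  have he := G.e0
  have ht0 := G.t0
  have hsg : sg ≠ 0 := by
    intro h
    rw [ht, h, zero_mul] at ht0
    exact lt_irrefl _ ht0
  refine ph_sq G v2 c he2 hga hgR (a := a * de) (b := b * (v.e * de)) (by positivity)
    (by positivity) ?_ ?_ hEi hEh
  · have : a * de * (b * (v.e * de)) = a * b := by linear_combination (a * b) * hee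
    rw [this]; exact hab
  · rw [e_phux]
    have h1 : sg * sg⁻¹ = 1 := mul_inv_cancel₀ hsg
    have h2 : v.t * sg⁻¹ = de := by rw [ht]; linear_combination de * h1
    linear_combination ((1 / 2) * v.e * b) * h2

theorem ph_sq2 (G : Geo κ s v) (v2 : B2 v) (c : Sc v eps al 1 r tr us) (hde : de = v.t * cv)
    (hee : v.e * (de * de) = 1) (hde0 : 0 < de) {a b gar ga phux Ei Eh : ℝ} (he2 : 2 ≤ v.e)
    (hga : gam v.e κ s ≤ ga) (hgR : ga = r * gar) (ha : 0 ≤ a) (hb : 0 ≤ b) (hab : 1 ≤ a * b)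
    (e_phux : phux = (1 / 2) * (cv * (a * gar + b * v.t)))
    (hEi : Ei = 2 * eps + 1) (hEh : Eh = eps + 1) :
    ∃ lf Ex, PhiB κ s v v2 (v.e * v.t * 1 * phux) Ei Eh lf Ex := by
  have he := G.e0
  have ht0 := G.t0
  have hcv : 0 < cv := by
    rw [hde] at hde0
    exact (mul_pos_iff_of_pos_left ht0).1 hde0
  refine ph_sq G v2 c he2 hga hgR (a := a * cv) (b := b * (v.e * v.t * v.t * cv)) (by positivity)
    (by positivity) ?_ ?_ hEi hEh
  · have : a * cv * (b * (v.e * v.t * v.t * cv)) = a * b := by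
      rw [hde] at hee
      linear_combination (a * b) * hee
    rw [this]; exact hab
  · rw [e_phux]; ring

theorem ph_sq3 (G : Geo κ s v) (v2 : B2 v) (c : Sc v eps al 1 r tr us)
    {a b gar ga phux Ei Eh : ℝ} (he2 : 2 ≤ v.e)
    (hga : gam v.e κ s ≤ ga) (hgR : ga = r * gar) (ha : 0 ≤ a) (hb : 0 ≤ b) (hab : 1 ≤ a * b)
    (e_phux : phux = (1 / 2) * (a * gar + b * (v.u * al⁻¹)))
    (hEi : Ei = 2 * eps + 1) (hEh : Eh = eps + 1) :
    ∃ lf Ex, PhiB κ s v v2 (v.e * v.t * 1 * phux) Ei Eh lf Ex := by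
  have hal := c.al0 G
  refine ph_sq G v2 c he2 hga hgR ha hb hab ?_ hEi hEh
  rw [e_phux]
  have h1 : al * al⁻¹ = 1 := mul_inv_cancel₀ hal.ne'
  have h2 : al = v.e * (v.t * v.u) * 1 := by rw [← v.e_tu]; exact c.al'
  linear_combination ((1 / 2) * b) * h1 - ((1 / 2) * b * al⁻¹) * h2

theorem ph_slM (G : Geo κ s v) (v2 : B2 v) (c : Sc v eps 1 S r tr us)
    {a b phux Ei Eh : ℝ} (he2 : 2 ≤ v.e) (ha : 0 ≤ a) (hb : 0 ≤ b) (hab : 1 ≤ a * b)
    (e_phux : phux = (1 / 2) * (a * v.om + b))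
    (hEi : Ei = 2 * eps + 1) (hEh : Eh = eps + 1) :
    ∃ lf Ex, PhiB κ s v v2 (v.e * v.t * S * phux) Ei Eh lf Ex := by
  refine ph_slog G v2 c he2 ha hb hab ?_ hEi hEh
  rw [e_phux]
  have h2 : 1 = v.e * (v.t * v.u) * S := by rw [← v.e_tu]; exact c.al'
  linear_combination (-((1 / 2) * (a * v.om + b))) * h2

theorem ph_slz (G : Geo κ s v) (v2 : B2 v) (c : Sc v eps 1 S r tr us) (e_tz : tz = v.t * z)
    (hde : de = tz * S) (hu : v.u = z * de) (hz0 : 0 < z)
    {a b phux Ei Eh : ℝ} (he2 : 2 ≤ v.e) (ha : 0 ≤ a) (hb : 0 ≤ b) (hab : 1 ≤ a * b)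
    (e_phux : phux = (1 / 2) * (z * (a * (S * v.nj) + b * v.t)))
    (hEi : Ei = 2 * eps + 1) (hEh : Eh = eps + 1) :
    ∃ lf Ex, PhiB κ s v v2 (v.e * v.t * S * phux) Ei Eh lf Ex := by
  have ht0 := G.t0
  have htz : 0 < tz := by rw [e_tz]; positivity
  have h3 : tz * tz⁻¹ = 1 := mul_inv_cancel₀ htz.ne'
  refine ph_slog G v2 c he2 (a := a * tz⁻¹) (b := b * tz) (by positivity) (by positivity) ?_ ?_
    hEi hEh
  · have : a * tz⁻¹ * (b * tz) = a * b := by linear_combination (a * b) * h3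
    rw [this]; exact hab
  · rw [e_phux]
    have h2 : 1 = v.e * (v.t * v.u) * S := by rw [← v.e_tu]; exact c.al'
    have h4 : v.om = z * (tz * S) * v.nj := by rw [v.e_om, hu, hde]
    have h5 : v.u * (v.e * v.t * S * ((1 / 2) * (z * (a * (S * v.nj) + b * v.t)))) =
        (1 / 2) * (z * (a * (S * v.nj) + b * v.t)) := by
      linear_combination (-((1 / 2) * (z * (a * (S * v.nj) + b * v.t)))) * h2
    rw [h5]
    linear_combination (-(1 / 2) * a * tz⁻¹) * h4 - ((1 / 2) * a * z * S * v.nj) * h3 -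
      ((1 / 2) * b) * e_tz

end Pool.Agent.helper71.FJ
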