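import Pool.Agent.helper71.FJ.Link

/-!
# Far field programs in scaled variables: Schwarz-Pick at the next point
-/

namespace Pool.Agent.helper71.FJ

open Complex ComplexConjugate Pool.Agent.helper31.EQ.Y Pool.Agent.helper31.EQ.R
open Pool.Agent.helper12.EQL Pool.Agent.helper12.RP Pool.Agent.helper12.FF Pool.Agent.helper63.FF
open Pool.Agent.helper71.FF (B1 B2 B3 Geo shf_re' log_kz' rt_shf_of)
open Pool.Agent.helper71.FG (arg_sq_ge Nx)

variable {κ : ℝ}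

/-- `Re t (|Pl|² + (eκ)²) ≤ eκ (|t|² + 1) Re Pl` -/
theorem pick_re {e : ℝ} (he : 0 < e) (hκ : 0 < κ) {t : ℂ} (ht : 0 < t.re) :
    t.re * (‖Pl e κ t‖ ^ 2 + (e * κ) ^ 2) ≤ e * κ * (‖t‖ ^ 2 + 1) * (Pl e κ t).re := by
  have h := Pl_pick_one (e := e) he hκ ht
  have h2 := pow_le_pow_left₀ (by positivity) h 2
  rw [mul_pow, mul_pow] at h2
  have e1 : ∀ z : ℂ, ∀ b : ℝ, ‖z - (b : ℂ)‖ ^ 2 = ‖z‖ ^ 2 + b ^ 2 - 2 * b * z.re := by
    intro z b
    rw [← Complex.normSq_eq_norm_sq, ← Complex.normSq_eq_norm_sq, Complex.normSq_apply,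
      Complex.normSq_apply, sub_re, sub_im, ofReal_re, ofReal_im]
    ring
  have e2 : ∀ z : ℂ, ∀ b : ℝ, ‖z + (b : ℂ)‖ ^ 2 = ‖z‖ ^ 2 + b ^ 2 + 2 * b * z.re := by
    intro z b
    rw [← Complex.normSq_eq_norm_sq, ← Complex.normSq_eq_norm_sq, Complex.normSq_apply,
      Complex.normSq_apply, add_re, add_im, ofReal_re, ofReal_im]
    ring
  have a1 := e1 (Pl e κ t) (e * κ)
  have a2 := e2 (Pl e κ t) (e * κ)
  have a3 := e1 t 1
  have a4 := e2 t 1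
  rw [ofReal_one] at a3 a4
  rw [a1, a2, a3, a4] at h2
  obtain ⟨P, hP⟩ : ∃ P, P = (Pl e κ t).re := ⟨_, rfl⟩
  obtain ⟨N, hN⟩ : ∃ N, N = ‖Pl e κ t‖ ^ 2 := ⟨_, rfl⟩
  obtain ⟨T, hT⟩ : ∃ T, T = ‖t‖ ^ 2 := ⟨_, rfl⟩
  rw [← hP, ← hN, ← hT] at h2 ⊢
  nlinarith

/-- `Re t (1 + w²) = w (|t|² + 1)` -/
theorem re_w {t : ℂ} (ht : 0 < t.re) {w : ℝ} (hw0 : 0 < w) (hw : rt t * (1 + w) = 1 - w) :
    t.re * (1 + w ^ 2) = w * (‖t‖ ^ 2 + 1) := by
  have h1 := Pool.Agent.helper12.FF.sub_sq t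
  have h2 := Pool.Agent.helper12.FF.add_sq' t
  have hb : 0 < ‖t + 1‖ := add_one_pos ht
  have h3 : ‖t - 1‖ * (1 + w) = (1 - w) * ‖t + 1‖ := by
    unfold rt at hw
    rw [← hw]
    field_simp
  have h4 : ‖t - 1‖ ^ 2 * (1 + w) ^ 2 = (1 - w) ^ 2 * ‖t + 1‖ ^ 2 := by
    rw [← mul_pow, ← mul_pow, h3]
  rw [h1, h2] at h4
  nlinarith

/-- `κ² ≥ K² (1 - K²/3)` -/
theorem kap_sq (hκ : 0 < κ) : Real.sinh κ ^ 2 * (1 - Real.sinh κ ^ 2 / 3) ≤ κ ^ 2 := by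
  have hm : MonotoneOn (fun x : ℝ => x - Real.sinh x + Real.sinh x ^ 3 / 6) (Set.Ici 0) := by
    have hd : ∀ x : ℝ, HasDerivAt (fun x : ℝ => x - Real.sinh x + Real.sinh x ^ 3 / 6)
        (1 - Real.cosh x + 3 * Real.sinh x ^ 2 * Real.cosh x / 6) x := by
      intro x
      have h := ((hasDerivAt_id x).sub (Real.hasDerivAt_sinh x)).add
        (((Real.hasDerivAt_sinh x).pow 3).div_const 6)
      refine h.congr_deriv ?_
      push_cast
      ring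
    apply monotoneOn_of_deriv_nonneg (convex_Ici 0)
    · exact fun y _ => (hd y).continuousAt.continuousWithinAt
    · exact fun y _ => (hd y).differentiableAt.differentiableWithinAt
    · intro y _
      rw [(hd y).deriv]
      have hc := Real.one_le_cosh y
      have hs := Real.cosh_sq y
      have e1 : 1 - Real.cosh y + 3 * Real.sinh y ^ 2 * Real.cosh y / 6 =
          (Real.cosh y - 1) * (Real.cosh y * (Real.cosh y + 1) / 2 - 1) := by
        have : Real.sinh y ^ 2 = Real.cosh y ^ 2 - 1 := by linarith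
        rw [this]; ring
      rw [e1]
      apply mul_nonneg (by linarith)
      nlinarith
  have h := hm (Set.mem_Ici.2 le_rfl) (Set.mem_Ici.2 hκ.le) hκ.le
  simp only [Real.sinh_zero] at h
  have hK : 0 < Real.sinh κ := Real.sinh_pos_iff.2 hκ
  obtain ⟨K, hKd⟩ : ∃ K, K = Real.sinh κ := ⟨_, rfl⟩
  rw [← hKd] at h hK ⊢
  have h1 : K - K ^ 3 / 6 ≤ κ := by linarith
  rcases le_total (K ^ 2) 3 with h2 | h2
  · have h3 : 0 ≤ K - K ^ 3 / 6 := by nlinarith [mul_nonneg hK.le (by linarith : 0 ≤ 3 - K ^ 2)]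
    have h4 := pow_le_pow_left₀ h3 h1 2
    nlinarith [pow_nonneg hK.le 6]
  · have h3 : K ^ 2 * (1 - K ^ 2 / 3) ≤ 0 := by
      apply mul_nonpos_of_nonneg_of_nonpos (by positivity)
      linarith
    linarith [sq_nonneg κ]

/-- `|e log Q|² ≥ (e log |Q|)² + e² (v² - 2 v⁴/3)` -/
theorem elog_sq {e : ℝ} {z : ℂ} (hz : 0 < z.re) :
    (e * Real.log ‖z‖) ^ 2 + e ^ 2 * ((z.im / z.re) ^ 2 - 2 / 3 * ((z.im / z.re) ^ 2) ^ 2) ≤
      ‖(e : ℂ) * log z‖ ^ 2 := by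
  have h1 := arg_sq_ge hz
  have h2 : ‖(e : ℂ) * log z‖ ^ 2 = (e * Real.log ‖z‖) ^ 2 + e ^ 2 * z.arg ^ 2 := by
    rw [norm_mul, mul_pow, Complex.norm_real, Real.norm_eq_abs, sq_abs,
      ← Complex.normSq_eq_norm_sq, Complex.normSq_apply, Complex.log_re, Complex.log_im]
    ring
  rw [h2]
  have := mul_le_mul_of_nonneg_left h1 (sq_nonneg e)
  linarith

/-- the core inequality -/
theorem sp_core {a E l p x E0 : ℝ} (hE : 0 ≤ E) (_hl : 0 ≤ l)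
    (h1 : E - l ≤ p) (hx : l ≤ a * x) (hx0 : 0 ≤ x) (hx1 : 0 < 1 - x) (hE0 : a ^ 2 * E0 ≤ E ^ 2) :
    a ^ 2 * (E0 - x * (E0 + 1)) ≤ p ^ 2 := by
  have h2 : E ^ 2 - x * (E ^ 2 + a ^ 2) ≤ p ^ 2 := by
    rcases le_total l E with h | h
    · have h3 : (E - l) ^ 2 ≤ p ^ 2 := pow_le_pow_left₀ (by linarith) h1 2
      have h4 : E * l ≤ E * (a * x) := mul_le_mul_of_nonneg_left hx hE
      nlinarith [mul_nonneg hx0 (sq_nonneg (E - a)), sq_nonneg l]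
    · have h6 : E ≤ a * x := h.trans hx
      have h7 : E ^ 2 ≤ (a * x) ^ 2 := pow_le_pow_left₀ hE h6 2
      nlinarith [mul_nonneg hx0 (sq_nonneg E), mul_nonneg (mul_nonneg (sq_nonneg a) hx0) hx1.le,
        sq_nonneg p]
  nlinarith [mul_le_mul_of_nonneg_right hE0 hx1.le]

/-- **Schwarz-Pick at the next point**: `r pe ≤ Re Pl`. -/
theorem sp_pe {s : ℂ} {v : B1} (G : Geo κ s v) {v5 : V5 v} {v3 : B3 v}
    {rlo rhi rplo rphi r a gap gu hgp yy : ℝ} (k : Pk v5 rplo v3.hp hgp gu yy)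
    (f : RtF v r rlo rhi rplo rphi) (hrp0 : 0 ≤ rplo) (ha : a = v.e * v.tu) (hr : r = v.e * v.R)
    (hgu : gap = a * gu) (hγ : gam v.e κ (shf κ s) ≤ gap) (e_hgp : hgp = v3.hp * gap)
    (hh : 0 < (1 / 2) - hgp) (alspa : 0 < 1 - k.lspa) (ape : 0 < k.pe) :
    r * k.pe ≤ (Pl v.e κ (shf κ s)).re := by
  have he := G.e0
  have hκ := G.κ0
  have hs0 := G.s0
  have hs' := shf_re' hκ hs0
  have htu := G.tu0
  have hu := G.u0
  have ht := G.t0
  have hR := G.R0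
  have hnj := G.nj0
  have hc := G.cgt
  have hK := G.K0
  have hom := G.om0
  have hSQ := G.SQ1
  have ha0 : 0 < a := by rw [ha]; positivity
  have hrau : r = a * v.u := by rw [hr, ha, v.e_R, v.e_u2, v.e_tu]; ring
  have hγ0 := gam_nonneg he hκ hs'
  have hgap0 : 0 ≤ gap := hγ0.trans hγ
  have hgu0 : 0 ≤ gu := by
    rw [hgu] at hgap0
    exact nonneg_of_mul_nonneg_right hgap0 ha0
  have hp0 := G.hp_0 v3
  -- the displacement of log f
  have hc0 : 0 ≤ v3.hp * gam v.e κ (shf κ s) := by positivity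
  have hc1 : v3.hp * gam v.e κ (shf κ s) ≤ hgp := by
    rw [e_hgp]; exact mul_le_mul_of_nonneg_left hγ hp0
  have hhgp1 : hgp < 1 := by linarith
  have hkz0 : 0 < (1 - (1 / 2) * hgp) * (1 - hgp)⁻¹ := by
    have h1 : 0 < 1 - (1 / 2) * hgp := by linarith
    have h2 : 0 < 1 - hgp := by linarith
    positivity
  have hlspf0 : 0 ≤ k.lspf := by
    rw [k.e_lspf]
    positivity
  have hls : ‖log (fT v.e κ (shf κ s)) - log (fT v.e κ (shf κ (shf κ s)))‖ ≤ a * k.lspa := by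
    have h1 := ls_le he hκ hs' (c := v3.hp * gam v.e κ (shf κ s)) (by rw [G.hp_eq v3])
      (by linarith)
    have h2 := log_kz' hc0 hc1 hhgp1
    refine h1.trans (h2.trans ?_)
    have h3 : v3.hp * gam v.e κ (shf κ s) * ((1 - (1 / 2) * hgp) * (1 - hgp)⁻¹) ≤
        v3.hp * gap * ((1 - (1 / 2) * hgp) * (1 - hgp)⁻¹) := by
      apply mul_le_mul_of_nonneg_right _ hkz0.le
      exact mul_le_mul_of_nonneg_left hγ hp0
    refine h3.trans (le_of_eq ?_)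
    rw [k.e_lspa, k.e_lspf, hgu]
    ring
  -- the logarithm of Q
  have hQr := G.Qre'
  have hQi := G.Qim'
  have hR1 : (Qk κ (shf κ s)).re = v.c0 + v5.R1 := by
    have h1 : (Qk κ (shf κ s)).re = Real.cosh κ + Real.sinh κ * (shf κ s).re := by
      unfold Qk
      rw [add_re, ofReal_re, re_ofReal_mul]
    rw [h1, G.c0, v5.e_R1]
    have h2 := G.re'
    have h3 : v.SQ * v.SQ⁻¹ = 1 := mul_inv_cancel₀ (by linarith)
    linear_combination v.SQ⁻¹ * h2 - (Real.sinh κ * (shf κ s).re) * h3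
  have hrh := G.rhat1
  have hR10 : 0 < v5.R1 := by
    rw [v5.e_R1]
    have h1 : 0 < v.SQ := by linarith
    positivity
  have hre : 0 < (Qk κ (shf κ s)).re := by rw [hR1]; linarith
  have hQpos : 0 < v5.Qr := by
    rw [v5.e_Qr]
    have h1 : 0 < v.SQ := by linarith
    have h2 : 0 < v.c0 + v5.R1 := by linarith
    positivity
  have hvv : ((Qk κ (shf κ s)).im / (Qk κ (shf κ s)).re) ^ 2 = v.tu2 * v5.Th := by
    have e1 : (Qk κ (shf κ s)).im / (Qk κ (shf κ s)).re = Real.sinh κ * s.im / v5.Qr := by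
      rw [v5.e_Qr, ← hR1, ← hQi, mul_comm v.SQ, mul_div_mul_right _ _ (by linarith)]
    rw [e1, div_pow, G.im, v5.e_Th, v5.e_sn]
    field_simp
  have hel := elog_sq (e := v.e) hre
  rw [hvv] at hel
  have hrp := G.rp_eq
  rw [← hrp] at hel
  have hE2 : a ^ 2 * k.E0 ≤ ‖(v.e : ℂ) * log (Qk κ (shf κ s))‖ ^ 2 := by
    refine le_trans ?_ hel
    have h1 : (a * (v.u * rplo)) ^ 2 ≤ v.rp ^ 2 := by
      apply pow_le_pow_left₀ (by positivity)
      have h2 := f.plo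
      rw [hrau] at h2
      linarith
    have hTh0 : 0 ≤ v5.Th := by
      have h2 : 0 ≤ v.tu2 * v5.Th := by rw [← hvv]; positivity
      have h3 : 0 < v.tu2 := by rw [v.e_tu2]; positivity
      exact nonneg_of_mul_nonneg_right h2 h3
    have h4 : v.e ^ 2 * v.tu2 = a ^ 2 := by rw [ha, v.e_tu2]; ring
    have h3 : 0 ≤ v5.Th * (v.tu2 * v5.Th) * a ^ 2 := by
      have : 0 ≤ v.tu2 := by rw [v.e_tu2]; positivity
      positivity
    have e1 : v.e ^ 2 * (v.tu2 * v5.Th - 2 / 3 * (v.tu2 * v5.Th) ^ 2) =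
        a ^ 2 * (v5.Th - 2 / 3 * (v5.Th * (v.tu2 * v5.Th))) := by
      rw [← h4]; ring
    rw [e1, k.e_E0, v.e_u2]
    have e2 : (a * (v.u * rplo)) ^ 2 = a ^ 2 * (v.u * v.u * (rplo * rplo)) := by ring
    rw [e2] at h1
    nlinarith
  -- Pl
  obtain ⟨P, hP⟩ : ∃ P, P = Pl v.e κ (shf κ s) := ⟨_, rfl⟩
  obtain ⟨L, hL⟩ : ∃ L, L = (v.e : ℂ) * log (Qk κ (shf κ s)) := ⟨_, rfl⟩
  obtain ⟨d, hd⟩ : ∃ d, d = log (fT v.e κ (shf κ s)) - log (fT v.e κ (shf κ (shf κ s))) := ⟨_, rfl⟩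
  have hPd : P = d + L := by rw [hP, hd, hL]; rfl
  have hn : ‖L‖ - ‖d‖ ≤ ‖P‖ := by
    have h1 : L = P - d := by rw [hPd]; ring
    have h2 := norm_sub_le P d
    rw [← h1] at h2
    linarith
  rw [← hL] at hE2
  rw [← hd] at hls
  have hlspa0 : 0 ≤ k.lspa := by
    rw [k.e_lspa]
    positivity
  have hcore := sp_core (norm_nonneg L) (norm_nonneg d) hn hls hlspa0 alspa hE2
  -- Pick
  have hpk := pick_re he hκ hs'
  rw [← hP] at hpk ⊢
  have hPre : 0 < P.re := by rw [hP]; exact Pl_re_pos he hκ hs'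
  have hrt : rt s * (1 + v.om) = 1 - v.om := by
    rw [← v.e_op1, ← v.e_om1]; exact G.rt_eq
  have hr' := rt_shf_of hκ hs0 hom hrt
  rw [← G.c0, ← G.K] at hr'
  have hN : 0 < v.c0 + v.om * v.K := by positivity
  have hw : (v.K + v.om * v.c0) / (v.c0 + v.om * v.K) = k.omp := by
    rw [k.e_omp, k.e_omr, v.e_ioK, div_eq_mul_inv]
    have h1 := G.Kom
    linear_combination (v.c0 + v.om * v.K)⁻¹ * h1
  rw [hw] at hr'
  have homr : 0 < k.omr := by rw [k.e_omr, v.e_ioK]; positivity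
  have homp : 0 < k.omp := by rw [k.e_omp]; positivity
  have hrw := re_w hs' homp hr'
  -- (e κ)²
  have hKs : Real.sinh κ = v.K := G.K.symm
  have hks := kap_sq hκ
  rw [hKs] at hks
  have heK : v.e * v.K = a * v.nj := by
    rw [ha, G.Kom, v.e_om, v.e_tu]; ring
  have hκK : κ ≤ v.K := by
    rw [← hKs]; exact Real.self_le_sinh_iff.2 hκ.le
  have hek2 : a ^ 2 * (v.nj2 * (1 - (2731 / 8192) * (v.K * v.K))) ≤ (v.e * κ) ^ 2 := by
    have h1 := mul_le_mul_of_nonneg_left hks (sq_nonneg v.e)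
    have e1 : v.e ^ 2 * (v.K ^ 2 * (1 - v.K ^ 2 / 3)) = (v.e * v.K) ^ 2 * (1 - v.K ^ 2 / 3) := by ring
    rw [e1, heK] at h1
    rw [v.e_nj2]
    have h2 : 0 ≤ (a * v.nj) ^ 2 * v.K ^ 2 := by positivity
    nlinarith
  have hek : v.e * κ ≤ a * v.nj := by
    rw [← heK]; exact mul_le_mul_of_nonneg_left hκK he.le
  -- the sum
  obtain ⟨J, hJ⟩ : ∃ J, J = k.E0 - k.lspa * (k.E0 + 1) +
    v.nj2 * (1 - (2731 / 8192) * (v.K * v.K)) := ⟨_, rfl⟩
  have hsum : a ^ 2 * J ≤ ‖P‖ ^ 2 + (v.e * κ) ^ 2 := by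
    rw [hJ, mul_add]; linarith
  have hpe : k.pe * (1 + k.omp * k.omp) = k.omr * J := by
    rw [k.e_pe, hJ]
    have : 1 + k.omp * k.omp ≠ 0 := by positivity
    field_simp
  have hD : 0 < 1 + k.omp ^ 2 := by positivity
  -- w' (|P|² + (eκ)²) ≤ e κ (1 + w'²) Re P
  have h5 : k.omp * (‖P‖ ^ 2 + (v.e * κ) ^ 2) ≤ v.e * κ * (1 + k.omp ^ 2) * P.re := by
    have hns : 0 < ‖shf κ s‖ ^ 2 + 1 := by positivity
    have h6 := mul_le_mul_of_nonneg_right hpk hD.le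
    have e1 : (shf κ s).re * (‖P‖ ^ 2 + (v.e * κ) ^ 2) * (1 + k.omp ^ 2) =
        (‖shf κ s‖ ^ 2 + 1) * (k.omp * (‖P‖ ^ 2 + (v.e * κ) ^ 2)) := by
      linear_combination (‖P‖ ^ 2 + (v.e * κ) ^ 2) * hrw
    have e2 : v.e * κ * (‖shf κ s‖ ^ 2 + 1) * P.re * (1 + k.omp ^ 2) =
        (‖shf κ s‖ ^ 2 + 1) * (v.e * κ * (1 + k.omp ^ 2) * P.re) := by ring
    rw [e1, e2] at h6
    exact le_of_mul_le_mul_left h6 hns
  have h7 : k.omp * (a ^ 2 * J) ≤ a * v.nj * (1 + k.omp ^ 2) * P.re := by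
    have h8 := mul_le_mul_of_nonneg_left hsum homp.le
    have h9 : v.e * κ * ((1 + k.omp ^ 2) * P.re) ≤ a * v.nj * ((1 + k.omp ^ 2) * P.re) :=
      mul_le_mul_of_nonneg_right hek (by positivity)
    linarith
  have e3 : k.omp * (a ^ 2 * J) = a * v.nj * (1 + k.omp ^ 2) * (r * k.pe) := by
    rw [k.e_omp, v.e_om, hrau]
    have e4 : (1 + (v.u * v.nj * k.omr) ^ 2) = 1 + k.omp * k.omp := by rw [k.e_omp, v.e_om]; ring
    rw [e4]
    linear_combination (-(a ^ 2 * v.u * v.nj)) * hpe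
  rw [e3] at h7
  exact le_of_mul_le_mul_left h7 (by positivity)

/-- `|qq| exp (yy Re Pl) ≤ exp (-(r ye))` -/
theorem sp_T {s : ℂ} {v : B1} (G : Geo κ s v) {v5 : V5 v} {rplo hp hgp gu yy r : ℝ}
    (k : Pk v5 rplo hp hgp gu yy) (h : r * k.pe ≤ (Pl v.e κ (shf κ s)).re) (hyy : 0 < 1 - yy) :
    ‖qq v.e κ (shf κ s)‖ * Real.exp (yy * (Pl v.e κ (shf κ s)).re) ≤ Real.exp (-(r * k.ye)) := by
  have he := G.e0
  have hκ := G.κ0
  have hs' := shf_re' hκ G.s0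
  rw [qq_exp he hκ hs', Complex.norm_exp, neg_re, ← Real.exp_add]
  apply Real.exp_le_exp.2
  rw [k.e_ye]
  have := mul_le_mul_of_nonneg_left h hyy.le
  linarith

/-- the facts at the next point, exact values -/
theorem nx_sp {s : ℂ} {v : B1} (G : Geo κ s v) {gap : ℝ} (hγ : gam v.e κ (shf κ s) ≤ gap) :
    Nx κ s v gap ‖qq v.e κ (shf κ s)‖ (Pl v.e κ (shf κ s)).re := by
  have he := G.e0
  have hκ := G.κ0
  have hs' := shf_re' hκ G.s0
  exact ⟨hγ, (gam_nonneg he hκ hs').trans hγ, le_rfl, le_rfl, (Pl_re_pos he hκ hs').le⟩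

end Pool.Agent.helper71.FJ
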