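import Pool.Agent.helper71.FJ.Cha
import Pool.Agent.helper71.FF.Crude

/-!
# Far field programs in scaled variables: the charts cover
-/

namespace Pool.Agent.helper71.FJ

open Complex ComplexConjugate Pool.Agent.helper31.EQ.Y Pool.Agent.helper31.EQ.R
open Pool.Agent.helper12.EQL Pool.Agent.helper12.RP Pool.Agent.helper12.FF Pool.Agent.helper63.FF
open Pool.Agent.helper71.FF (B1 B2 B3 Geo exB1 exB2 geo_of sa su)
open Pool.Agent.helper71.FG (PtE RE)

variable {κ : ℝ} {v : B1}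

/-- **The charts** -/
theorem chart_split {s : ℂ} (G : Geo κ s v) {de : ℝ} (hde0 : 0 < de) (hee : v.e * (de * de) = 1)
    {P : Prop}
    (hI : ∀ sg z, 0 ≤ sg → 0 ≤ z → z ≤ 2 → v.t = sg * de → v.u = z * de →
      v.e * v.tu ≤ 313 / 128 → P)
    (hIII : ∀ al g, 0 ≤ al → al ≤ 313 / 128 → al = v.e * v.tu → 0 ≤ g → g ≤ 1 / 2 →
      de = v.u * g → v.t = al * v.u * (g * g) → P)
    (hMa : ∀ S z, 0 ≤ S → S ≤ 105 / 256 → 0 < z → z ≤ 2 → de = v.t * z * S → v.u = z * de → P)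
    (hMb : ∀ S r g, 0 ≤ S → S ≤ 105 / 256 → 0 < r → r ≤ 8 → 0 ≤ g → g ≤ 1 / 2 →
      de = r * g * S → v.u = r * S → v.t = r * (g * g) → P)
    (hMc : ∀ ri tr, 0 < ri → ri ≤ 1 / 8 → 0 ≤ tr → v.t = tr * ri →
      de * de = v.t * v.u * (v.u * ri) → tr * v.nj2 = v.e * v.K ^ 2 → 8 ≤ v.e * v.tu → P) : P := by
  have he := G.e0
  have ht := G.t0
  have hu := G.u0
  have hu1 := G.u1
  have htu := v.e_tu
  have htu0 : v.tu ≠ 0 := by rw [htu]; positivity
  have ha0 : 0 < v.e * v.tu := by rw [htu]; positivity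
  have hz0 : 0 < v.u / de := by positivity
  have hzu : v.u = v.u / de * de := (div_mul_cancel₀ _ hde0.ne').symm
  have hd2 : de * de = v.e⁻¹ := by field_simp; linarith
  rcases le_or_gt (v.e * v.tu) (313 / 128) with h1 | h1
  · rcases le_or_gt (v.u / de) 2 with h2 | h2
    · exact hI (v.t / de) (v.u / de) (by positivity) hz0.le h2 (div_mul_cancel₀ _ hde0.ne').symm
        hzu h1
    · refine hIII (v.e * v.tu) (de / v.u) ha0.le h1 rfl (by positivity) ?_ ?_ ?_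
      · rw [div_le_iff₀ hu]
        rw [lt_div_iff₀ hde0] at h2
        linarith
      · field_simp
      · rw [htu]
        field_simp
        linear_combination (-1) * hee
  · have hS1 : (v.e * v.tu)⁻¹ ≤ 105 / 256 := by
      rw [inv_le_comm₀ ha0 (by norm_num)]
      have : (105 / 256 : ℝ)⁻¹ ≤ 313 / 128 := by norm_num
      linarith
    rcases le_or_gt (v.u / de) 2 with h2 | h2
    · refine hMa (v.e * v.tu)⁻¹ (v.u / de) (by positivity) hS1 hz0 h2 ?_ hzu
      rw [htu]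
      field_simp
      linear_combination hee
    · rcases le_or_gt (v.e * v.tu * v.u) 8 with h3 | h3
      · refine hMb (v.e * v.tu)⁻¹ (v.e * v.tu * v.u) (de / v.u) (by positivity) hS1 (by positivity)
          h3 (by positivity) ?_ ?_ ?_ ?_
        · rw [div_le_iff₀ hu]
          rw [lt_div_iff₀ hde0] at h2
          linarith
        · field_simp
        · field_simp
        · rw [htu]
          field_simp
          linear_combination (-1) * hee
      · have hr0 : 0 < v.e * v.tu * v.u := by positivity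
        refine hMc (v.e * v.tu * v.u)⁻¹ (v.t * (v.e * v.tu * v.u)) (by positivity) ?_ (by positivity)
          ?_ ?_ ?_ ?_
        · rw [inv_le_comm₀ hr0 (by norm_num)]
          have : (1 / 8 : ℝ)⁻¹ = 8 := by norm_num
          linarith
        · rw [mul_assoc v.t, mul_inv_cancel₀ hr0.ne', mul_one]
        · rw [hd2, htu]
          field_simp
        · rw [G.Kom, v.e_om, v.e_nj2, htu]; ring
        · have : v.e * v.tu * v.u ≤ v.e * v.tu * 1 := mul_le_mul_of_nonneg_left hu1 ha0.le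
          linarith

/-- the region, crude form -/
theorem reg_c {τ : ℂ} {R w bw : ℝ} (G : Geo κ (shf κ τ) v) (v2 : B2 v) (D : PtE bw v.e κ τ R w)
    (ht : v.t ≤ 1 / 2) :
    (v.e * v.tu) ^ 2 * (v.om1 * v.op1) ≤ 13 / 10 * (v.e * v.K) ^ 2 + 25 := by
  by_contra h
  push Not at h
  refine Pool.Agent.helper71.FG.dR_core G v2 D rfl rfl rfl ?_
  have h1 := G.om1_0
  have h2 := G.t0
  have h3 := G.cgt
  have h4 := G.om0
  have h5 := G.K0
  have h6 := G.om_le
  have h7 : v.K ≤ v.t := by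
    rw [G.Kom]
    have := mul_le_mul_of_nonneg_left h6 h2.le
    linarith
  have h8 : v.om1 ≤ 1 := by rw [v.e_om1]; linarith
  have h9 : 0 ≤ 2 * v.c0 - v.t - v.K * v.om := by
    have := mul_le_mul_of_nonneg_left h6 h5.le
    linarith
  have hR := G.R0
  have hx0 : 0 ≤ 1 - v.t * v.om1 := by
    have := mul_le_mul_of_nonneg_left h8 h2.le
    linarith
  have hx1 : 1 - v.t * v.om1 ≤ 1 := by
    have := mul_nonneg h2.le h1
    linarith
  have hy1 : 1 - v.R * (2 * v.c0 - v.t - v.K * v.om) ≤ 1 := by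
    have := mul_nonneg hR.le h9
    linarith
  have hC : 0 < v2.eK * v2.eK * (13 * 10⁻¹) + 25 := by
    have := mul_self_nonneg v2.eK
    positivity
  have h10 : (v2.eK * v2.eK * (13 * 10⁻¹) + 25) * (1 - v.t * v.om1) *
      (1 - v.R * (2 * v.c0 - v.t - v.K * v.om)) ≤ v2.eK * v2.eK * (13 * 10⁻¹) + 25 := by
    have k1 : (v2.eK * v2.eK * (13 * 10⁻¹) + 25) * (1 - v.t * v.om1) ≤
        v2.eK * v2.eK * (13 * 10⁻¹) + 25 := by
      have := mul_le_mul_of_nonneg_left hx1 hC.le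
      linarith
    have k2 := mul_le_mul_of_nonneg_left hy1 (mul_nonneg hC.le hx0)
    linarith
  have h11 : v2.eK * v2.eK * (13 * 10⁻¹) + 25 = 13 / 10 * (v.e * v.K) ^ 2 + 25 := by
    rw [v2.e_eK]; ring
  nlinarith

/-- the last chart: `tr` is bounded -/
theorem tr_le {τ : ℂ} {R w bw : ℝ} (G : Geo κ (shf κ τ) v) (v2 : B2 v) (D : PtE bw v.e κ τ R w)
    (ht : v.t ≤ 1 / 2) {tr : ℝ} (htr : tr * v.nj2 = v.e * v.K ^ 2) (htr0 : 0 ≤ tr)
    (ha : 8 ≤ v.e * v.tu) (hK : v.e * v.K ^ 2 ≤ 1653 / 1000) : tr ≤ 13 / 2 := by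
  have h1 := reg_c G v2 D ht
  have hKo : v.e * v.K = v.e * v.tu * v.nj := by rw [G.Kom, v.e_om, v.e_tu]; ring
  obtain ⟨a, ha'⟩ : ∃ a, a = v.e * v.tu := ⟨_, rfl⟩
  rw [← ha'] at ha h1 hKo
  have hom : v.om1 * v.op1 = 1 - v.u2 * v.nj2 := by
    rw [v.e_om1, v.e_op1, v.e_om, v.e_u2, v.e_nj2]; ring
  have hu2 : v.u2 ≤ 1 := by
    rw [v.e_u2]
    have := G.u1
    have := G.u0
    nlinarith
  have hn2 : 0 < v.nj2 := by
    rw [v.e_nj2]
    have := G.nj0
    positivity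
  rw [hom, hKo] at h1
  have h2 : a ^ 2 * (1 - v.nj2) ≤ 13 / 10 * (a ^ 2 * v.nj2) + 25 := by
    have h3 : v.nj2 = v.nj ^ 2 := by rw [v.e_nj2]; ring
    have h4 : a ^ 2 * (1 - v.nj2) ≤ a ^ 2 * (1 - v.u2 * v.nj2) := by
      apply mul_le_mul_of_nonneg_left _ (by positivity)
      nlinarith
    have h5 : (a * v.nj) ^ 2 = a ^ 2 * v.nj2 := by rw [h3]; ring
    rw [h5] at h1
    linarith
  have h3 : (64 : ℝ) ≤ a ^ 2 := by nlinarith
  have h4 : 39 / 64 ≤ 23 / 10 * v.nj2 := by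
    by_contra hc
    push Not at hc
    have h5 : a ^ 2 * (23 / 10 * v.nj2) < a ^ 2 * (39 / 64) := by
      apply mul_lt_mul_of_pos_left hc (by positivity)
    nlinarith
  by_contra hc
  push Not at hc
  nlinarith

/-- the last chart is empty for small `e K` -/
theorem no_Mc {τ : ℂ} {R w bw : ℝ} (G : Geo κ (shf κ τ) v) (v2 : B2 v) (D : PtE bw v.e κ τ R w)
    (ht : v.t ≤ 1 / 2) (ha : 8 ≤ v.e * v.tu) (hb : v.e * v.K ≤ 129 / 256) : False := by
  have h1 := reg_c G v2 D ht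
  have hKo : v.e * v.K = v.e * v.tu * v.nj := by rw [G.Kom, v.e_om, v.e_tu]; ring
  have hK0 := G.K0
  have he := G.e0
  have hb0 : 0 < v.e * v.K := by positivity
  have h2 : (v.e * v.K) ^ 2 ≤ (129 / 256) ^ 2 := pow_le_pow_left₀ hb0.le hb 2
  have hom : v.om1 * v.op1 = 1 - v.u2 * v.nj2 := by
    rw [v.e_om1, v.e_op1, v.e_om, v.e_u2, v.e_nj2]; ring
  have hu2 : v.u2 ≤ 1 := by
    rw [v.e_u2]
    have := G.u1
    have := G.u0
    nlinarith
  have hn2 : 0 ≤ v.nj2 := by rw [v.e_nj2]; exact mul_self_nonneg _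
  have h3 : (v.e * v.tu) ^ 2 * v.nj2 = (v.e * v.K) ^ 2 := by rw [hKo, v.e_nj2]; ring
  have h4 : (v.e * v.tu) ^ 2 * (1 - v.nj2) ≤ (v.e * v.tu) ^ 2 * (v.om1 * v.op1) := by
    rw [hom]
    apply mul_le_mul_of_nonneg_left _ (by positivity)
    nlinarith
  have h5 : (64 : ℝ) ≤ (v.e * v.tu) ^ 2 := by nlinarith
  have h6 : (v.e * v.tu) ^ 2 * (1 - v.nj2) = (v.e * v.tu) ^ 2 - (v.e * v.K) ^ 2 := by
    rw [← h3]; ring
  norm_num at h2
  linarith

/-- `n ≤ 1` -/
theorem n_le {s : ℂ} (G : Geo κ s v) : v.n ≤ 1 := by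
  have h1 := G.nj1
  have h2 := G.jjm
  have h3 : v.nj = v.n * v.j := v.e_nj
  have h4 : v.n = v.nj * v.jm := by rw [h3]; linear_combination (-v.n) * h2
  have h5 : v.jm ≤ 1 := by rw [v.e_jm]; nlinarith [G.h0]
  rw [h4]
  have := G.jm0
  have := G.nj0
  nlinarith

/-- `h ≤ K/2` -/
theorem h_leK {s : ℂ} (G : Geo κ s v) {c : ℝ} (hc0 : 0 ≤ c) (hc : v.K ^ 2 ≤ (2 * c) ^ 2) :
    v.h ≤ c := by
  have h1 : v.K ≤ 2 * c := by
    have := G.K0
    exact le_of_sq_le_sq hc (by linarith)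
  have h2 : v.K = 2 * (v.h * v.j) := v.e_K
  have h3 := G.jgt
  have h4 := G.h0
  nlinarith

end Pool.Agent.helper71.FJ
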